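import Pool.Agent.H97.ZE.Defs

/-! # [H97 ZE SYL] The Sylvester determinant over a domain

`M = syl f g m n`, rows: `X^r f` (`r < n`), `X^(r - n) g` (`n ≤ r`), columns: the coefficients of `1, X, …, X^(m+n-1)`.
All rows are polynomials of degree `< m + n` (`natDegree f ≤ m`, `natDegree g ≤ n`), so `∑_k C (M r k) * X^k` is the polynomial
of row `r` (`Polynomial.as_sum_range'`).
* `syl_comb`: `adj(M) M = det M`: the row `k = 0` : `∑_r adj(0, r) M(r, k) = det M` if `k = 0`, `= 0` otherwise
  (`Matrix.adjugate_mul`); multiply by `X^k` and sum: `C (det M) = ∑_r C (adj(0, r)) * (row r)`, a combination of `f` and `g`.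
* `syl_ne`: let `det M = 0`. `Matrix.exists_vecMul_eq_zero_iff`: `w ≠ 0` with `∑_r w_r M(r, k) = 0` for all `k`, so
  `A f + B g = 0`, `A = ∑_(r < n) w_r X^r`, `B = ∑_(r ≥ n) w_r X^(r - n)`, degree of `B` less than `m`. Over the field of fractions
  `f` is prime (`Irreducible.prime`), divides `B g` and not `g`, so it divides `B`, of degree `< m = natDegree f`: `B = 0`. Then `A f = 0`, `A = 0`, `w = 0`.
  (Maps to the field of fractions are injective: `IsFractionRing.injective`, `Polynomial.map_injective`.) -/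

namespace Pool.Agent.H97.ZE

open Finset Polynomial

variable {R : Type} [CommRing R]

private theorem sum_row {p : R[X]} {N : ℕ} (hp : p.natDegree < N) :
    ∑ k : Fin N, C (p.coeff (k : ℕ)) * X ^ (k : ℕ) = p := by
  rw [Fin.sum_univ_eq_sum_range (fun k => C (p.coeff k) * X ^ k) N]
  exact (as_sum_range_C_mul_X_pow' p hp).symm

theorem syl_row_f {f g : R[X]} {m n : ℕ} (hf : f.natDegree ≤ m) (r : Fin (m + n)) (hr : (r : ℕ) < n) :
    ∑ k, C (syl f g m n r k) * X ^ (k : ℕ) = X ^ (r : ℕ) * f := by
  have h1 : ∀ k, syl f g m n r k = (X ^ (r : ℕ) * f).coeff (k : ℕ) := fun k => if_pos hr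
  simp only [h1]
  apply sum_row
  refine (natDegree_mul_le).trans_lt ?_
  have h2 := natDegree_X_pow_le (R := R) (r : ℕ)
  omega

theorem syl_row_g {f g : R[X]} {m n : ℕ} (hg : g.natDegree ≤ n) (r : Fin (m + n)) (hr : n ≤ (r : ℕ)) :
    ∑ k, C (syl f g m n r k) * X ^ (k : ℕ) = X ^ ((r : ℕ) - n) * g := by
  have h1 : ∀ k, syl f g m n r k = (X ^ ((r : ℕ) - n) * g).coeff (k : ℕ) :=
    fun k => if_neg (not_lt.2 hr)
  simp only [h1]
  apply sum_row
  refine (natDegree_mul_le).trans_lt ?_
  have h2 := natDegree_X_pow_le (R := R) ((r : ℕ) - n)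
  have h3 := r.2
  omega

private noncomputable def sA (m n : ℕ) (w : Fin (m + n) → R) : R[X] :=
  ∑ r, C (w r) * (if (r : ℕ) < n then X ^ (r : ℕ) else 0)

private noncomputable def sB (m n : ℕ) (w : Fin (m + n) → R) : R[X] :=
  ∑ r, C (w r) * (if (r : ℕ) < n then 0 else X ^ ((r : ℕ) - n))

private theorem sAB {f g : R[X]} {m n : ℕ} (hf : f.natDegree ≤ m) (hg : g.natDegree ≤ n)
    (w : Fin (m + n) → R) : ∑ k : Fin (m + n), C (∑ r, w r * syl f g m n r k) * X ^ (k : ℕ) =
      sA m n w * f + sB m n w * g := by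
  have h1 : ∑ k : Fin (m + n), C (∑ r, w r * syl f g m n r k) * X ^ (k : ℕ) =
      ∑ r, C (w r) * ∑ k, C (syl f g m n r k) * X ^ (k : ℕ) := by
    simp only [map_sum, Finset.sum_mul, Finset.mul_sum]
    rw [Finset.sum_comm]
    refine Finset.sum_congr rfl fun r _ => Finset.sum_congr rfl fun k _ => ?_
    rw [C_mul, mul_assoc]
  rw [h1, sA, sB, Finset.sum_mul, Finset.sum_mul, ← Finset.sum_add_distrib]
  refine Finset.sum_congr rfl fun r _ => ?_
  by_cases hr : (r : ℕ) < n
  · rw [syl_row_f hf r hr, if_pos hr, if_pos hr]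
    ring
  · rw [syl_row_g hg r (not_lt.1 hr), if_neg hr, if_neg hr]
    ring

/-- the determinant is a combination of `f` and `g` -/
theorem syl_comb {f g : R[X]} {m n : ℕ} (hf : f.natDegree ≤ m) (hg : g.natDegree ≤ n) (hmn : 0 < m + n) :
    ∃ u v : R[X], C (syl f g m n).det = u * f + v * g := by
  let z : Fin (m + n) := ⟨0, hmn⟩
  refine ⟨sA m n (fun r => (syl f g m n).adjugate z r), sB m n (fun r => (syl f g m n).adjugate z r), ?_⟩
  rw [← sAB hf hg]
  have h1 : ∀ k, ∑ r, (syl f g m n).adjugate z r * syl f g m n r k =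
      if k = z then (syl f g m n).det else 0 := by
    intro k
    have h2 := congrFun (congrFun (Matrix.adjugate_mul (syl f g m n)) z) k
    rw [Matrix.mul_apply, Matrix.smul_apply, Matrix.one_apply] at h2
    rw [h2]
    by_cases hk : k = z
    · rw [if_pos hk, if_pos hk.symm, smul_eq_mul, mul_one]
    · rw [if_neg hk, if_neg (Ne.symm hk), smul_zero]
  simp only [h1]
  rw [Finset.sum_eq_single z]
  · rw [if_pos rfl, show ((z : Fin (m + n)) : ℕ) = 0 from rfl, pow_zero, mul_one]
  · intro k _ hk
    rw [if_neg hk, C_0, zero_mul]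
  · intro h
    exact absurd (Finset.mem_univ z) h

private theorem sA_coeff {m n : ℕ} (w : Fin (m + n) → R) (r : Fin (m + n)) (hr : (r : ℕ) < n) :
    (sA m n w).coeff (r : ℕ) = w r := by
  unfold sA
  rw [finsetSum_coeff, Finset.sum_eq_single r]
  · rw [if_pos hr, coeff_C_mul_X_pow, if_pos rfl]
  · intro k _ hk
    split_ifs with h
    · rw [coeff_C_mul_X_pow, if_neg]
      intro h1
      exact hk (Fin.ext h1.symm)
    · rw [mul_zero, coeff_zero]
  · intro h
    exact absurd (Finset.mem_univ r) h

private theorem sB_coeff {m n : ℕ} (w : Fin (m + n) → R) (r : Fin (m + n)) (hr : n ≤ (r : ℕ)) :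
    (sB m n w).coeff ((r : ℕ) - n) = w r := by
  unfold sB
  rw [finsetSum_coeff, Finset.sum_eq_single r]
  · rw [if_neg (not_lt.2 hr), coeff_C_mul_X_pow, if_pos rfl]
  · intro k _ hk
    split_ifs with h
    · rw [mul_zero, coeff_zero]
    · rw [coeff_C_mul_X_pow, if_neg]
      intro h1
      apply hk
      apply Fin.ext
      omega
  · intro h
    exact absurd (Finset.mem_univ r) h

private theorem sB_deg {m n : ℕ} (w : Fin (m + n) → R) : (sB m n w).degree < m := by
  rw [degree_lt_iff_coeff_zero]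
  intro j hj
  unfold sB
  rw [finsetSum_coeff]
  refine Finset.sum_eq_zero fun r _ => ?_
  split_ifs with h
  · rw [mul_zero, coeff_zero]
  · rw [coeff_C_mul_X_pow, if_neg]
    have := r.2
    omega

/-- the determinant is not zero if `f` is irreducible and does not divide `g` -/
theorem syl_ne [IsDomain R] {f g : R[X]} {m n : ℕ} (hf : f.natDegree = m) (hg : g.natDegree ≤ n)
    (hirr : Irreducible (f.map (algebraMap R (FractionRing R))))
    (hnd : ¬ f.map (algebraMap R (FractionRing R)) ∣ g.map (algebraMap R (FractionRing R))) :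
    (syl f g m n).det ≠ 0 := by
  intro hdet
  obtain ⟨w, hw0, hw⟩ := Matrix.exists_vecMul_eq_zero_iff.2 hdet
  have hinj : Function.Injective (algebraMap R (FractionRing R)) := IsFractionRing.injective R _
  have h1 : sA m n w * f + sB m n w * g = 0 := by
    rw [← sAB hf.le hg]
    refine Finset.sum_eq_zero fun k _ => ?_
    have h2 := congrFun hw k
    have h3 : ∑ r, w r * syl f g m n r k = 0 := h2
    rw [h3, C_0, zero_mul]
  obtain ⟨A, hA⟩ : ∃ A, A = sA m n w := ⟨_, rfl⟩
  obtain ⟨B, hB⟩ : ∃ B, B = sB m n w := ⟨_, rfl⟩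
  rw [← hA, ← hB] at h1
  have h2 : A.map (algebraMap R (FractionRing R)) * f.map (algebraMap R (FractionRing R)) +
      B.map (algebraMap R (FractionRing R)) * g.map (algebraMap R (FractionRing R)) = 0 := by
    rw [← Polynomial.map_mul, ← Polynomial.map_mul, ← Polynomial.map_add, h1, Polynomial.map_zero]
  have hdvd : f.map (algebraMap R (FractionRing R)) ∣
      B.map (algebraMap R (FractionRing R)) * g.map (algebraMap R (FractionRing R)) := by
    refine ⟨-A.map (algebraMap R (FractionRing R)), ?_⟩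
    linear_combination h2
  have hBf := (hirr.prime.dvd_or_dvd hdvd).resolve_right hnd
  have hB0 : B.map (algebraMap R (FractionRing R)) = 0 := by
    by_contra hne
    have h3 := natDegree_le_of_dvd hBf hne
    rw [natDegree_map_eq_of_injective hinj, hf] at h3
    have h4 : (B.map (algebraMap R (FractionRing R))).degree < m := by
      refine (degree_map_le).trans_lt ?_
      rw [hB]
      exact sB_deg w
    have h5 := (natDegree_lt_iff_degree_lt hne).2 h4
    omega
  have hB1 : B = 0 := by
    apply Polynomial.map_injective _ hinj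
    rw [hB0, Polynomial.map_zero]
  have hA1 : A = 0 := by
    rw [hB0, zero_mul, add_zero] at h2
    have h3 := (mul_eq_zero.1 h2).resolve_right hirr.ne_zero
    apply Polynomial.map_injective _ hinj
    rw [h3, Polynomial.map_zero]
  apply hw0
  funext r
  show w r = 0
  by_cases hr : (r : ℕ) < n
  · rw [← sA_coeff w r hr, ← hA, hA1, coeff_zero]
  · rw [← sB_coeff w r (not_lt.1 hr), ← hB, hB1, coeff_zero]

end Pool.Agent.H97.ZE
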