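import Pool.Agent.H97.ZE.Defs

/-! # [H97 ZE SZ] The calculus of sizes

`n1`, `n2` are the sums of the absolute values of the coefficients of a polynomial in `ℤ[t]`, `ℤ[t][x]`; compare
`Pool/Agent/H97/XU/SZA.lean` (the same calculus for `MvPolynomial`, all proofs are there).
* `n1_eq`: the sum may be taken over any finite set that contains the support; then `n1_add` (`support_add`, `Int.natAbs_add_le`),
  `n1_mul`: `p * q = ∑ i ∈ supp p, ∑ j ∈ supp q, monomial (i + j) (coeff * coeff)` (`Polynomial.as_sum_support`,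
  `monomial_mul_monomial`, `Finset.sum_mul_sum`), `n1` of a sum is at most the sum of the `n1`.
* `n2_mul`: the same with `n1` in the place of `natAbs`.
* `n1_det_rows`, `n2_det_rows`: `det M = ∑_σ sign σ ∏_i M (σ i) i` (`Matrix.det_apply`; transpose by `Matrix.det_transpose` to have
  `M i (σ i)`), `n1 (det) ≤ ∑_σ ∏_i n1 (M i (σ i)) ≤ ∑_(all maps τ) ∏_i n1 (M i (τ i)) = ∏_i ∑_j n1 (M i j)`
  (`Finset.prod_univ_sum`, the permutations are injectively maps).
* `n2_det`: `≤ (card)! * B^card` (`Fintype.card_perm`).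
* `n2_derivative`: `derivative g = ∑ j, C (g.coeff j * j) * X^(j - 1)` (`Polynomial.derivative_apply`).
* `dg_det`: `natDegree` and the degrees of the coefficients of a product of `card` entries; `dg_mul`: the coefficient `j` of `g * h`
  is `∑ g_i h_(j-i)` (`coeff_mul`, `natDegree_sum_le_of_forall_le`, `natDegree_mul_le`). -/

namespace Pool.Agent.H97.ZE

open Finset Polynomial

variable {D E : ℕ}

/-- submultiplicative norms with natural values -/
private structure Sn {R : Type} [CommRing R] (ν : R → ℕ) : Prop where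
  zero : ν 0 = 0
  one : ν 1 = 1
  neg : ∀ a, ν (-a) = ν a
  add : ∀ a b, ν (a + b) ≤ ν a + ν b
  mul : ∀ a b, ν (a * b) ≤ ν a * ν b

section gen

variable {R : Type} [CommRing R] {ν : R → ℕ}

private theorem Sn.sum (h : Sn ν) {ι : Type*} (t : Finset ι) (f : ι → R) :
    ν (∑ i ∈ t, f i) ≤ ∑ i ∈ t, ν (f i) :=
  Finset.le_sum_of_subadditive ν h.zero.le h.add t f

private theorem Sn.prod (h : Sn ν) {ι : Type*} (t : Finset ι) (f : ι → R) :
    ν (∏ i ∈ t, f i) ≤ ∏ i ∈ t, ν (f i) := by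
  classical
  induction t using Finset.induction_on with
  | empty => rw [Finset.prod_empty, Finset.prod_empty, h.one]
  | insert a t ha ih =>
    rw [Finset.prod_insert ha, Finset.prod_insert ha]
    exact (h.mul _ _).trans (Nat.mul_le_mul_left _ ih)

private theorem Sn.pow (h : Sn ν) (p : R) (j : ℕ) : ν (p ^ j) ≤ ν p ^ j := by
  induction j with
  | zero => rw [pow_zero, pow_zero, h.one]
  | succ j ih =>
    rw [pow_succ, pow_succ]
    exact (h.mul _ _).trans (Nat.mul_le_mul_right _ ih)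

private theorem Sn.nat (h : Sn ν) (n : ℕ) : ν (n : R) ≤ n := by
  induction n with
  | zero => rw [Nat.cast_zero, h.zero]
  | succ n ih =>
    rw [Nat.cast_succ]
    refine (h.add _ _).trans ?_
    rw [h.one]
    omega

private theorem Sn.sign (h : Sn ν) (s : ℤˣ) (a : R) : ν (s • a) = ν a := by
  rcases Int.units_eq_one_or s with rfl | rfl
  · rw [one_smul]
  · rw [Units.neg_smul, one_smul, h.neg]

private theorem Sn.det0 (h : Sn ν) {ι : Type*} [Fintype ι] [DecidableEq ι] (M : Matrix ι ι R) :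
    ν M.det ≤ ∑ σ : Equiv.Perm ι, ∏ i, ν (M i (σ i)) := by
  rw [← Matrix.det_transpose, Matrix.det_apply]
  refine (h.sum _ _).trans (Finset.sum_le_sum fun σ _ => ?_)
  rw [h.sign]
  exact h.prod _ _

private theorem Sn.det_rows (h : Sn ν) {ι : Type*} [Fintype ι] [DecidableEq ι]
    (M : Matrix ι ι R) : ν M.det ≤ ∏ i, ∑ j, ν (M i j) := by
  refine (h.det0 M).trans ?_
  rw [Finset.prod_univ_sum, Fintype.piFinset_univ]
  have e1 : ∑ σ : Equiv.Perm ι, ∏ i, ν (M i (σ i)) =
      ∑ τ ∈ (Finset.univ : Finset (Equiv.Perm ι)).image (fun σ : Equiv.Perm ι => (⇑σ : ι → ι)),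
        ∏ i, ν (M i (τ i)) := by
    rw [Finset.sum_image]
    intro σ _ τ _ hστ
    exact DFunLike.coe_injective hστ
  rw [e1]
  exact Finset.sum_le_sum_of_subset (Finset.subset_univ _)

private theorem Sn.det (h : Sn ν) {ι : Type*} [Fintype ι] [DecidableEq ι]
    (M : Matrix ι ι R) {B : ℕ} (hB : ∀ i j, ν (M i j) ≤ B) :
    ν M.det ≤ (Fintype.card ι).factorial * B ^ Fintype.card ι := by
  refine (h.det0 M).trans ?_
  have e1 : ∀ σ ∈ (Finset.univ : Finset (Equiv.Perm ι)), ∏ i, ν (M i (σ i)) ≤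
      B ^ Fintype.card ι := by
    intro σ _
    refine (Finset.prod_le_prod' fun i _ => hB i (σ i)).trans ?_
    rw [Finset.prod_const, Finset.card_univ]
  refine (Finset.sum_le_sum e1).trans ?_
  rw [Finset.sum_const, smul_eq_mul, Finset.card_univ, Fintype.card_perm]

/-- the norm of a polynomial -/
private noncomputable def pn (ν : R → ℕ) (p : R[X]) : ℕ := ∑ i ∈ p.support, ν (p.coeff i)

private theorem pn_eq (h : Sn ν) (p : R[X]) {t : Finset ℕ} (ht : p.support ⊆ t) :
    pn ν p = ∑ i ∈ t, ν (p.coeff i) := by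
  unfold pn
  refine Finset.sum_subset ht fun e _ he => ?_
  rw [notMem_support_iff] at he
  rw [he, h.zero]

private theorem pn_mon (h : Sn ν) (i : ℕ) (c : R) : pn ν (monomial i c) = ν c := by
  rw [pn_eq h _ (t := {i}) (support_monomial_subset i c), Finset.sum_singleton, coeff_monomial,
    if_pos rfl]

private theorem pn_C (h : Sn ν) (c : R) : pn ν (C c) = ν c := by
  rw [← monomial_zero_left, pn_mon h]

private theorem pn_X_pow (h : Sn ν) (k : ℕ) : pn ν ((X : R[X]) ^ k) = 1 := by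
  rw [X_pow_eq_monomial, pn_mon h, h.one]

private theorem pn_sn (h : Sn ν) : Sn (pn ν) := by
  have h0 : pn ν 0 = 0 := by
    unfold pn
    rw [support_zero, Finset.sum_empty]
  have hadd : ∀ a b, pn ν (a + b) ≤ pn ν a + pn ν b := by
    intro a b
    rw [pn_eq h a (t := a.support ∪ b.support) Finset.subset_union_left,
      pn_eq h b (t := a.support ∪ b.support) Finset.subset_union_right,
      pn_eq h (a + b) (t := a.support ∪ b.support) support_add, ← Finset.sum_add_distrib]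
    refine Finset.sum_le_sum fun e _ => ?_
    rw [coeff_add]
    exact h.add _ _
  have hsum : ∀ (t : Finset ℕ) (f : ℕ → R[X]), pn ν (∑ i ∈ t, f i) ≤ ∑ i ∈ t, pn ν (f i) :=
    fun t f => Finset.le_sum_of_subadditive (pn ν) h0.le hadd t f
  refine ⟨h0, ?_, ?_, hadd, ?_⟩
  · rw [← C_1, pn_C h, h.one]
  · intro a
    unfold pn
    rw [support_neg]
    refine Finset.sum_congr rfl fun e _ => ?_
    rw [coeff_neg, h.neg]
  · intro p q
    have h1 : p * q = ∑ e ∈ p.support, ∑ f ∈ q.support,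
        monomial (e + f) (p.coeff e * q.coeff f) := by
      conv_lhs => rw [p.as_sum_support, q.as_sum_support]
      rw [Finset.sum_mul_sum]
      refine Finset.sum_congr rfl fun e _ => Finset.sum_congr rfl fun f _ => ?_
      rw [monomial_mul_monomial]
    rw [h1]
    refine (hsum _ _).trans ?_
    have h2 : pn ν p * pn ν q = ∑ e ∈ p.support, ∑ f ∈ q.support,
        ν (p.coeff e) * ν (q.coeff f) := by
      unfold pn
      rw [Finset.sum_mul_sum]
    rw [h2]
    refine Finset.sum_le_sum fun e _ => (hsum _ _).trans (Finset.sum_le_sum fun f _ => ?_)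
    rw [pn_mon h]
    exact h.mul _ _

private theorem pn_coeff (h : Sn ν) (p : R[X]) (i : ℕ) : ν (p.coeff i) ≤ pn ν p := by
  by_cases he : i ∈ p.support
  · unfold pn
    exact Finset.single_le_sum (f := fun e => ν (p.coeff e)) (fun _ _ => Nat.zero_le _) he
  · rw [notMem_support_iff] at he
    rw [he, h.zero]
    exact Nat.zero_le _

private theorem pn_der (h : Sn ν) {p : R[X]} (hp : p.natDegree ≤ D) :
    pn ν (derivative p) ≤ D * pn ν p := by
  rw [derivative_apply, Polynomial.sum_def]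
  refine ((pn_sn h).sum _ _).trans ?_
  have e1 : D * pn ν p = ∑ j ∈ p.support, D * ν (p.coeff j) := by
    unfold pn
    rw [Finset.mul_sum]
  rw [e1]
  refine Finset.sum_le_sum fun j hj => ?_
  refine ((pn_sn h).mul _ _).trans ?_
  rw [pn_C h, pn_X_pow h, mul_one]
  refine (h.mul _ _).trans ?_
  rw [mul_comm]
  refine Nat.mul_le_mul_right _ ((h.nat j).trans ((le_natDegree_of_mem_supp j hj).trans hp))

end gen

private theorem sn0 : Sn Int.natAbs :=
  ⟨Int.natAbs_zero, Int.natAbs_one, Int.natAbs_neg, Int.natAbs_add_le,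
    fun a b => (Int.natAbs_mul a b).le⟩

private theorem n1_pn : n1 = pn Int.natAbs := rfl

private theorem n2_pn : n2 = pn n1 := rfl

private theorem sn1 : Sn n1 := pn_sn sn0

private theorem sn2 : Sn n2 := pn_sn sn1

/-- for any finite set containing the support -/
theorem n1_eq (p : ℤ[X]) {t : Finset ℕ} (h : p.support ⊆ t) : n1 p = ∑ i ∈ t, (p.coeff i).natAbs :=
  pn_eq sn0 p h

/-- for any finite set containing the support -/
theorem n2_eq (g : ℤ[X][X]) {t : Finset ℕ} (h : g.support ⊆ t) : n2 g = ∑ j ∈ t, n1 (g.coeff j) :=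
  pn_eq sn1 g h

theorem n1_zero : n1 0 = 0 := sn1.zero

theorem n1_one : n1 1 = 1 := sn1.one

theorem n1_C (c : ℤ) : n1 (C c) = c.natAbs := pn_C sn0 c

theorem n1_X_pow (k : ℕ) : n1 (X ^ k) = 1 := pn_X_pow sn0 k

theorem n1_neg (p : ℤ[X]) : n1 (-p) = n1 p := sn1.neg p

theorem n1_add (p q : ℤ[X]) : n1 (p + q) ≤ n1 p + n1 q := sn1.add p q

theorem n1_sum {ι : Type*} (t : Finset ι) (f : ι → ℤ[X]) : n1 (∑ i ∈ t, f i) ≤ ∑ i ∈ t, n1 (f i) :=
  sn1.sum t f

theorem n1_mul (p q : ℤ[X]) : n1 (p * q) ≤ n1 p * n1 q := sn1.mul p q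

theorem n1_prod {ι : Type*} (t : Finset ι) (f : ι → ℤ[X]) : n1 (∏ i ∈ t, f i) ≤ ∏ i ∈ t, n1 (f i) :=
  sn1.prod t f

theorem n1_pow (p : ℤ[X]) (k : ℕ) : n1 (p ^ k) ≤ n1 p ^ k := sn1.pow p k

theorem coeff_le_n1 (p : ℤ[X]) (i : ℕ) : (p.coeff i).natAbs ≤ n1 p := pn_coeff sn0 p i

theorem n1_pos {p : ℤ[X]} (h : p ≠ 0) : 1 ≤ n1 p := by
  refine le_trans ?_ (coeff_le_n1 p p.natDegree)
  have h1 : p.coeff p.natDegree ≠ 0 := leadingCoeff_ne_zero.2 h
  omega

theorem n2_zero : n2 0 = 0 := sn2.zero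

theorem n2_one : n2 1 = 1 := sn2.one

theorem n2_C (p : ℤ[X]) : n2 (C p) = n1 p := pn_C sn1 p

theorem n2_X_pow (k : ℕ) : n2 (X ^ k) = 1 := pn_X_pow sn1 k

theorem n2_neg (p : ℤ[X][X]) : n2 (-p) = n2 p := sn2.neg p

theorem n2_add (p q : ℤ[X][X]) : n2 (p + q) ≤ n2 p + n2 q := sn2.add p q

theorem n2_sum {ι : Type*} (t : Finset ι) (f : ι → ℤ[X][X]) : n2 (∑ i ∈ t, f i) ≤ ∑ i ∈ t, n2 (f i) :=
  sn2.sum t f

theorem n2_mul (p q : ℤ[X][X]) : n2 (p * q) ≤ n2 p * n2 q := sn2.mul p q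

theorem n2_prod {ι : Type*} (t : Finset ι) (f : ι → ℤ[X][X]) : n2 (∏ i ∈ t, f i) ≤ ∏ i ∈ t, n2 (f i) :=
  sn2.prod t f

theorem n2_pow (p : ℤ[X][X]) (k : ℕ) : n2 (p ^ k) ≤ n2 p ^ k := sn2.pow p k

theorem n1_coeff_le (g : ℤ[X][X]) (j : ℕ) : n1 (g.coeff j) ≤ n2 g := pn_coeff sn1 g j

theorem coeff_le_n2 (g : ℤ[X][X]) (i j : ℕ) : ((g.coeff j).coeff i).natAbs ≤ n2 g :=
  (coeff_le_n1 _ i).trans (n1_coeff_le g j)

theorem n2_pos {g : ℤ[X][X]} (h : g ≠ 0) : 1 ≤ n2 g :=
  (n1_pos (leadingCoeff_ne_zero.2 h)).trans (n1_coeff_le g g.natDegree)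

/-- from a bound of the coefficients -/
theorem n2_le {g : ℤ[X][X]} {B : ℝ} (h : dg D g) (hB : ∀ i j, |(((g.coeff j).coeff i : ℤ) : ℝ)| ≤ B) :
    (n2 g : ℝ) ≤ ((D : ℝ) + 1) ^ 2 * B := by
  have hsub : ∀ {R : Type} [CommRing R] (p : R[X]), p.natDegree ≤ D → p.support ⊆ range (D + 1) := by
    intro R _ p hp i hi
    rw [Finset.mem_range]
    have := le_natDegree_of_mem_supp i hi
    omega
  have h1 : ∀ j, (n1 (g.coeff j) : ℝ) ≤ ((D : ℝ) + 1) * B := by
    intro j
    rw [n1_eq _ (hsub _ (h.2 j))]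
    push_cast
    calc ∑ i ∈ range (D + 1), (((g.coeff j).coeff i).natAbs : ℝ) ≤ ∑ _i ∈ range (D + 1), B :=
          Finset.sum_le_sum fun i _ => by
            rw [Nat.cast_natAbs, Int.cast_abs]
            exact hB i j
      _ = ((D : ℝ) + 1) * B := by
          rw [Finset.sum_const, Finset.card_range, nsmul_eq_mul]
          push_cast
          ring
  rw [n2_eq _ (hsub _ h.1)]
  push_cast
  calc ∑ j ∈ range (D + 1), (n1 (g.coeff j) : ℝ) ≤ ∑ _j ∈ range (D + 1), ((D : ℝ) + 1) * B :=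
        Finset.sum_le_sum fun j _ => h1 j
    _ = ((D : ℝ) + 1) ^ 2 * B := by
        rw [Finset.sum_const, Finset.card_range, nsmul_eq_mul]
        push_cast
        ring

theorem dg_mono {g : ℤ[X][X]} (h : dg D g) (hDE : D ≤ E) : dg E g :=
  ⟨h.1.trans hDE, fun j => (h.2 j).trans hDE⟩

theorem dg_zero : dg D 0 := by
  refine ⟨by simp, fun j => by simp⟩

theorem dg_one : dg D 1 := by
  refine ⟨by simp, fun j => ?_⟩
  rw [coeff_one]
  split_ifs <;> simp

theorem dg_neg {g : ℤ[X][X]} (h : dg D g) : dg D (-g) := by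
  refine ⟨by rw [natDegree_neg]; exact h.1, fun j => ?_⟩
  rw [coeff_neg, natDegree_neg]
  exact h.2 j

theorem dg_add {g h : ℤ[X][X]} (hg : dg D g) (hh : dg D h) : dg D (g + h) := by
  refine ⟨(natDegree_add_le _ _).trans (max_le hg.1 hh.1), fun j => ?_⟩
  rw [coeff_add]
  exact (natDegree_add_le _ _).trans (max_le (hg.2 j) (hh.2 j))

theorem dg_sum {ι : Type*} (t : Finset ι) (f : ι → ℤ[X][X]) (h : ∀ i ∈ t, dg D (f i)) :
    dg D (∑ i ∈ t, f i) := by
  classical
  induction t using Finset.induction_on with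
  | empty =>
    rw [Finset.sum_empty]
    exact dg_zero
  | insert a t ha ih =>
    rw [Finset.sum_insert ha]
    exact dg_add (h a (Finset.mem_insert_self a t))
      (ih fun i hi => h i (Finset.mem_insert_of_mem hi))

theorem dg_mul {g h : ℤ[X][X]} (hg : dg D g) (hh : dg E h) : dg (D + E) (g * h) := by
  refine ⟨(natDegree_mul_le).trans (add_le_add hg.1 hh.1), fun j => ?_⟩
  rw [coeff_mul]
  refine natDegree_sum_le_of_forall_le _ _ fun i _ => ?_
  exact (natDegree_mul_le).trans (add_le_add (hg.2 _) (hh.2 _))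

theorem dg_pow {g : ℤ[X][X]} (hg : dg D g) (k : ℕ) : dg (k * D) (g ^ k) := by
  induction k with
  | zero =>
    rw [pow_zero]
    exact dg_one
  | succ k ih =>
    rw [pow_succ, Nat.succ_mul]
    exact dg_mul ih hg

private theorem dg_prod {ι : Type*} (t : Finset ι) (f : ι → ℤ[X][X]) (h : ∀ i ∈ t, dg D (f i)) :
    dg (t.card * D) (∏ i ∈ t, f i) := by
  classical
  induction t using Finset.induction_on with
  | empty =>
    rw [Finset.prod_empty]
    exact dg_one
  | insert a t ha ih =>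
    rw [Finset.prod_insert ha, Finset.card_insert_of_notMem ha, Nat.succ_mul, mul_comm (f a)]
    exact dg_mul (ih fun i hi => h i (Finset.mem_insert_of_mem hi))
      (h a (Finset.mem_insert_self a t))

theorem dg_det {ι : Type*} [Fintype ι] [DecidableEq ι] (M : Matrix ι ι ℤ[X][X]) (h : ∀ i j, dg D (M i j)) :
    dg (Fintype.card ι * D) M.det := by
  rw [Matrix.det_apply]
  refine dg_sum _ _ fun σ _ => ?_
  have h1 := dg_prod (Finset.univ : Finset ι) (fun i => M (σ i) i) fun i _ => h (σ i) i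
  rw [Finset.card_univ] at h1
  rcases Int.units_eq_one_or (Equiv.Perm.sign σ) with h2 | h2
  · rw [h2, one_smul]
    exact h1
  · rw [h2, Units.neg_smul, one_smul]
    exact dg_neg h1

theorem n2_det {ι : Type*} [Fintype ι] [DecidableEq ι] (M : Matrix ι ι ℤ[X][X]) {B : ℕ}
    (h : ∀ i j, n2 (M i j) ≤ B) : n2 M.det ≤ (Fintype.card ι).factorial * B ^ Fintype.card ι :=
  sn2.det M h

theorem n1_det_rows {ι : Type*} [Fintype ι] [DecidableEq ι] (M : Matrix ι ι ℤ[X]) :
    n1 M.det ≤ ∏ i, ∑ j, n1 (M i j) :=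
  sn1.det_rows M

theorem dg_derivative {g : ℤ[X][X]} (h : dg D g) : dg D (derivative g) := by
  refine ⟨(natDegree_derivative_le g).trans ((Nat.sub_le _ _).trans h.1), fun j => ?_⟩
  rw [coeff_derivative]
  refine (natDegree_mul_le).trans ?_
  have h1 : ((j : ℤ[X]) + 1).natDegree = 0 := by
    have h2 : ((j : ℤ[X]) + 1) = ((j + 1 : ℕ) : ℤ[X]) := by push_cast; rfl
    rw [h2, natDegree_natCast]
  rw [h1, add_zero]
  exact h.2 _

theorem n2_derivative {g : ℤ[X][X]} (h : dg D g) : n2 (derivative g) ≤ D * n2 g :=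
  pn_der sn1 h.1

private theorem dt_coeff (g : ℤ[X][X]) (j : ℕ) : (dt g).coeff j = derivative (g.coeff j) := by
  unfold dt
  rw [finsetSum_coeff]
  simp only [coeff_monomial]
  rw [Finset.sum_ite_eq']
  split_ifs with h
  · rfl
  · rw [Finset.mem_range, not_lt] at h
    rw [coeff_eq_zero_of_natDegree_lt (by omega), derivative_zero]

theorem dg_dt {g : ℤ[X][X]} (h : dg D g) : dg D (dt g) := by
  refine ⟨?_, fun j => ?_⟩
  · rw [natDegree_le_iff_coeff_eq_zero]
    intro j hj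
    have h1 := h.1
    rw [dt_coeff, coeff_eq_zero_of_natDegree_lt (by omega), derivative_zero]
  · rw [dt_coeff]
    exact (natDegree_derivative_le _).trans ((Nat.sub_le _ _).trans (h.2 j))

theorem n2_dt {g : ℤ[X][X]} (h : dg D g) : n2 (dt g) ≤ D * n2 g := by
  have hsub : (dt g).support ⊆ g.support := by
    intro j hj
    rw [mem_support_iff, dt_coeff] at hj
    rw [mem_support_iff]
    intro h0
    rw [h0, derivative_zero] at hj
    exact hj rfl
  rw [n2_eq (dt g) hsub]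
  have e1 : D * n2 g = ∑ j ∈ g.support, D * n1 (g.coeff j) := by
    unfold n2
    rw [Finset.mul_sum]
  rw [e1]
  refine Finset.sum_le_sum fun j _ => ?_
  rw [dt_coeff]
  exact pn_der sn0 (h.2 j)

private theorem it_der {g : ℤ[X][X]} (h : dg D g) (k : ℕ) :
    dg D ((⇑(derivative (R := ℤ[X])))^[k] g) ∧
      n2 ((⇑(derivative (R := ℤ[X])))^[k] g) ≤ D ^ k * n2 g := by
  induction k with
  | zero => exact ⟨h, by simp⟩
  | succ k ih =>
    rw [Function.iterate_succ_apply']
    refine ⟨dg_derivative ih.1, (n2_derivative ih.1).trans ?_⟩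
    rw [pow_succ, mul_comm (D ^ k) D, mul_assoc]
    exact Nat.mul_le_mul_left _ ih.2

private theorem it_dt {g : ℤ[X][X]} (h : dg D g) (k : ℕ) :
    dg D (dt^[k] g) ∧ n2 (dt^[k] g) ≤ D ^ k * n2 g := by
  induction k with
  | zero => exact ⟨h, by simp⟩
  | succ k ih =>
    rw [Function.iterate_succ_apply']
    refine ⟨dg_dt ih.1, (n2_dt ih.1).trans ?_⟩
    rw [pow_succ, mul_comm (D ^ k) D, mul_assoc]
    exact Nat.mul_le_mul_left _ ih.2

theorem dg_Dn {g : ℤ[X][X]} (h : dg D g) (ν : ℕ × ℕ) : dg D (Dn ν g) :=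
  (it_dt (it_der h ν.2).1 ν.1).1

theorem n2_Dn {g : ℤ[X][X]} (h : dg D g) (ν : ℕ × ℕ) : n2 (Dn ν g) ≤ D ^ (ν.1 + ν.2) * n2 g := by
  refine (it_dt (it_der h ν.2).1 ν.1).2.trans ?_
  rw [pow_add, mul_assoc]
  exact Nat.mul_le_mul_left _ (it_der h ν.2).2

end Pool.Agent.H97.ZE
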