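import Pool.Agent.H98.XG.Defs

/-! # [H97 ZE DCP] First order expansion at a point

There are polynomials `α, β, γ` (three variables) with
`F(a + s, x + t, y + z) = F(a, x, y) + F_y(a, x, y) z + s α(s, t, z) + t β(s, t, z) + z² γ(s, t, z)` for all elements `s, t, z` of all commutative
rings. Here `ev3 s t z α` is the value of `α ∈ ℤ[X][X][X]`.
Proof: `F(a + s, x + t, y + z) = ev3 s t z F'`, with `F' = ` the image of `F` under the ring homomorphism that sends the three variables to
(inner) `X + a`, (middle) `X + x`, (outer) `X + y` (composition of `ev3` with ring homomorphisms: `Polynomial.hom_eval₂`). `F' = ∑_k C (F'_k) X^k`; for `k ≥ 2` collect `γ`; for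
`k = 0, 1` write `F'_k = C (p_k) + X r_k` (`Polynomial.divX_mul_X_add`) with `p_k ∈ ℤ[X]`, `p_k = C (c_k) + X s_k`; then `c_0 = F(a, x, y)`,
`c_1 = F_y(a, x, y)` (`fy`; put `s = t = z = 0` in `F'` and in its derivative). -/

namespace Pool.Agent.H97.ZE

open Finset Polynomial Pool.Agent.H37.TE Pool.Agent.H98.TE Pool.Agent.H98.XG

private noncomputable def fi (a : ℕ) (x : ℤ) : ℤ[X][X] →+* ℤ[X][X] :=
  eval₂RingHom (eval₂RingHom (Int.castRingHom _) ((a : ℤ[X][X]) + C X)) ((x : ℤ[X][X]) + X)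

private theorem ev_tr (F : ℤ[X][X][X]) (a : ℕ) (x y : ℤ) {S : Type} [CommRing S] (s t z : S) :
    ev3 s t z ((F.map (fi a x)).comp ((y : ℤ[X][X][X]) + X)) =
      ev3 ((a : S) + s) ((x : S) + t) ((y : S) + z) F := by
  have h1 : (eval₂RingHom (eval₂RingHom (Int.castRingHom S) s) t).comp (fi a x) =
      eval₂RingHom (eval₂RingHom (Int.castRingHom S) ((a : S) + s)) ((x : S) + t) := by
    refine Polynomial.ringHom_ext' ?_ ?_
    · refine Polynomial.ringHom_ext' (RingHom.ext_int _ _) ?_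
      unfold fi
      simp
    · unfold fi
      simp
      exact map_intCast (eval₂RingHom (eval₂RingHom (Int.castRingHom S) s) t) x
  have h2 : eval₂ (eval₂RingHom (eval₂RingHom (Int.castRingHom S) s) t) z ((y : ℤ[X][X][X]) + X) =
      (y : S) + z := by
    simp
    exact map_intCast (eval₂RingHom (eval₂RingHom (eval₂RingHom (Int.castRingHom S) s) t) z) y
  unfold ev3
  rw [eval₂_comp, eval₂_map, h1, h2]

private theorem dec (G : ℤ[X][X][X]) : ∃ (c : ℤ) (α β γ : ℤ[X][X][X]),
    G = C (C (C c)) + C (C X) * α + C X * β + X * γ := by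
  refine ⟨((G.coeff 0).coeff 0).coeff 0, C (C (((G.coeff 0).coeff 0).divX)), C ((G.coeff 0).divX),
    G.divX, ?_⟩
  have h1 := divX_mul_X_add G
  have h2 : (C (G.coeff 0) : ℤ[X][X][X]) =
      C ((G.coeff 0).divX) * C X + C (C ((G.coeff 0).coeff 0)) := by
    rw [← C_mul, ← C_add, divX_mul_X_add (G.coeff 0)]
  have h3 : (C (C ((G.coeff 0).coeff 0)) : ℤ[X][X][X]) =
      C (C (((G.coeff 0).coeff 0).divX)) * C (C X) + C (C (C (((G.coeff 0).coeff 0).coeff 0))) := by
    rw [← C_mul, ← C_mul, ← C_add, ← C_add, divX_mul_X_add ((G.coeff 0).coeff 0)]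
  calc G = G.divX * X + C (G.coeff 0) := h1.symm
    _ = _ := by
      rw [h2, h3]
      ring

private theorem ev_dec {S : Type} [CommRing S] (s t z : S) (c : ℤ) (α β γ : ℤ[X][X][X]) :
    ev3 s t z (C (C (C c)) + C (C X) * α + C X * β + X * γ) =
      (c : S) + s * ev3 s t z α + t * ev3 s t z β + z * ev3 s t z γ := by
  unfold ev3
  rw [eval₂_add, eval₂_add, eval₂_add, eval₂_mul, eval₂_mul, eval₂_mul, eval₂_C, eval₂_C, eval₂_C,
    eval₂_X, coe_eval₂RingHom, eval₂_C, eval₂_C, eval₂_X, coe_eval₂RingHom, eval₂_C, eval₂_X,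
    eq_intCast]

private theorem ev3_add {S : Type} [CommRing S] (s t z : S) (f g : ℤ[X][X][X]) :
    ev3 s t z (f + g) = ev3 s t z f + ev3 s t z g := by
  unfold ev3
  rw [eval₂_add]

private theorem ev3_mul {S : Type} [CommRing S] (s t z : S) (f g : ℤ[X][X][X]) :
    ev3 s t z (f * g) = ev3 s t z f * ev3 s t z g := by
  unfold ev3
  rw [eval₂_mul]

private theorem ev3_X {S : Type} [CommRing S] (s t z : S) : ev3 s t z (X : ℤ[X][X][X]) = z := by
  unfold ev3
  rw [eval₂_X]

theorem dcp (F : ℤ[X][X][X]) (a : ℕ) (x y : ℤ) : ∃ α β γ : ℤ[X][X][X],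
    ∀ (S : Type) [CommRing S] (s t z : S),
      ev3 ((a : S) + s) ((x : S) + t) ((y : S) + z) F =
        (ev3 (a : ℤ) x y F : ℤ) + ((fy F a x y : ℤ) : S) * z + s * ev3 s t z α + t * ev3 s t z β +
          z ^ 2 * ev3 s t z γ := by
  obtain ⟨c0, α1, β1, γ1, h1⟩ := dec ((F.map (fi a x)).comp ((y : ℤ[X][X][X]) + X))
  obtain ⟨c1, α2, β2, γ2, h2⟩ := dec γ1
  have e0 : ev3 (a : ℤ) x y F = c0 := by
    have h3 := ev_tr F a x y (0 : ℤ) (0 : ℤ) (0 : ℤ)
    rw [h1, ev_dec, zero_mul, zero_mul, zero_mul, add_zero, add_zero, add_zero, add_zero, add_zero,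
      add_zero, Int.cast_id, Int.cast_id, Int.cast_id] at h3
    exact h3.symm
  have e1 : fy F a x y = c1 := by
    have h3 := ev_tr (derivative F) a x y (0 : ℤ) (0 : ℤ) (0 : ℤ)
    have h4 : derivative ((F.map (fi a x)).comp ((y : ℤ[X][X][X]) + X)) =
        ((derivative F).map (fi a x)).comp ((y : ℤ[X][X][X]) + X) := by
      rw [derivative_comp, derivative_map, derivative_add, derivative_X, derivative_intCast,
        zero_add, one_mul]
    rw [← h4, h1, add_zero, add_zero, add_zero, Int.cast_id, Int.cast_id] at h3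
    unfold fy
    rw [← Int.cast_natCast (R := ℤ) a] at h3
    have h5 : derivative (C (C (C c0)) + C (C X) * α1 + C X * β1 + X * γ1 : ℤ[X][X][X]) =
        C (C (C 0)) + C (C X) * derivative α1 + C X * derivative β1 + X * derivative γ1 + γ1 := by
      rw [derivative_add, derivative_add, derivative_add, derivative_C, derivative_C_mul,
        derivative_C_mul, derivative_mul, derivative_X, C_0, C_0, C_0]
      ring
    rw [h5, ev3_add, ev_dec, zero_mul, zero_mul, zero_mul, h2, ev_dec, zero_mul, zero_mul,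
      zero_mul] at h3
    simpa using h3.symm
  refine ⟨α1 + X * α2, β1 + X * β2, γ2, fun S _ s t z => ?_⟩
  rw [e0, e1, ← ev_tr F a x y s t z, h1, ev_dec, h2, ev_dec, ev3_add, ev3_mul, ev3_X, ev3_add,
    ev3_mul, ev3_X]
  ring

end Pool.Agent.H97.ZE
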