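import Mathlib

/-!
# [H97 ZE] MP_821da1_nt, THEOREM XG: the zero estimate on the surface `F(t, x, y) = 0`

Polynomials in `ℤ[t][x]` are elements of `ℤ[X][X]` (inner variable `t`, outer variable `x`), those of `ℤ[t][x][y]` are
elements of `ℤ[X][X][X]`.

* `dg D g`: the degrees of `g ∈ ℤ[t][x]` in `t` and in `x` are at most `D`.
* `n1 p`, `n2 g`: sum of the absolute values of all coefficients.
* `ev2 a x g = g(a, x)`; `sh a x g = g(a + t, x + x')`; `tc a x g i j` the coefficient of `(t - a)^i (x' - x)^j` in the Taylor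
  expansion at `(a, x)`; `Van N a x g`: `g` vanishes at `(a, x)` to order at least `N`.
* `dt g = ∂g/∂t` (`Polynomial.derivative` is `∂/∂x`), `Dn (i, j) = (∂/∂t)^i (∂/∂x)^j`.
* `Gen d ε a x`: every non-zero `G ∈ ℤ[t][x]` with degrees at most `d` and `G(a, x) = 0` has a coefficient of absolute value
  at least `|a|^ε`.
* `syl f g m n`: the Sylvester matrix: `n` rows `x^r f`, `m` rows `x^r g`.
-/

namespace Pool.Agent.H97.ZE

open Finset Polynomial

/-- the degrees in both variables are at most `D` -/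
def dg (D : ℕ) (g : ℤ[X][X]) : Prop := g.natDegree ≤ D ∧ ∀ j, (g.coeff j).natDegree ≤ D

/-- the sum of the absolute values of the coefficients -/
noncomputable def n1 (p : ℤ[X]) : ℕ := ∑ i ∈ p.support, (p.coeff i).natAbs

/-- the sum of the absolute values of the coefficients -/
noncomputable def n2 (g : ℤ[X][X]) : ℕ := ∑ j ∈ g.support, n1 (g.coeff j)

/-- the value at `(a, x)` -/
noncomputable def ev2 (a x : ℤ) (g : ℤ[X][X]) : ℤ := (g.eval (C x)).eval a

/-- translation by `(a, x)` -/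
noncomputable def sh (a x : ℤ) : ℤ[X][X] →+* ℤ[X][X] :=
  eval₂RingHom ((C : ℤ[X] →+* ℤ[X][X]).comp (eval₂RingHom (C : ℤ →+* ℤ[X]) (X + C a))) (X + C (C x))

/-- the Taylor coefficient at `(a, x)` of exponents `i` (in `t`) and `j` (in `x`) -/
noncomputable def tc (a x : ℤ) (g : ℤ[X][X]) (i j : ℕ) : ℤ := ((sh a x g).coeff j).coeff i

/-- `g` vanishes at `(a, x)` to order at least `N` -/
def Van (N : ℕ) (a x : ℤ) (g : ℤ[X][X]) : Prop := ∀ i j, i + j < N → tc a x g i j = 0

/-- the derivative with respect to the inner variable `t` -/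
noncomputable def dt (g : ℤ[X][X]) : ℤ[X][X] :=
  ∑ j ∈ range (g.natDegree + 1), monomial j (derivative (g.coeff j))

/-- the derivative `(∂/∂t)^i (∂/∂x)^j` -/
noncomputable def Dn (ν : ℕ × ℕ) (g : ℤ[X][X]) : ℤ[X][X] := dt^[ν.1] ((⇑(derivative (R := ℤ[X])))^[ν.2] g)

/-- `(a, x)` is generic: it is no zero of a polynomial of degree at most `d` with small coefficients -/
def Gen (d : ℕ) (ε : ℝ) (a x : ℤ) : Prop :=
  ∀ G : ℤ[X][X], G ≠ 0 → G.natDegree ≤ d → (∀ j, (G.coeff j).natDegree ≤ d) →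
    (G.eval (C x)).eval a = 0 → ∃ i j, |(a : ℝ)| ^ ε ≤ |(((G.coeff j).coeff i : ℤ) : ℝ)|

/-- the Sylvester matrix: the rows `X^r f`, `r < n`, and `X^(r - n) g`, `n ≤ r < m + n` -/
noncomputable def syl {R : Type} [CommRing R] (f g : R[X]) (m n : ℕ) : Matrix (Fin (m + n)) (Fin (m + n)) R :=
  Matrix.of fun r k => if (r : ℕ) < n then (X ^ (r : ℕ) * f).coeff (k : ℕ) else (X ^ ((r : ℕ) - n) * g).coeff (k : ℕ)

end Pool.Agent.H97.ZE
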