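import Pool.Agent.H97.ZE.SZ

/-! # [H97 ZE MAH] Mahler measure: `p^μ ∣ g` implies `n1 p ^ μ ≤ 2^(b μ) n1 g`

`M(p) = (p.map (Int.castRingHom ℂ)).mahlerMeasure` (Mathlib.Analysis.Polynomial.MahlerMeasure; or `Polynomial.mapMahlerMeasure`).
`g = p^μ h`, `h ≠ 0`: `M(p)^μ M(h) = M(g)` (`mahlerMeasure_mul`), `M(h) ≥ 1` (`one_le_mahlerMeasure_of_one_le_norm_leadingCoeff` or
`leadingCoeff_le_mahlerMeasure`: the leading coefficient is a non-zero integer), `M(g) ≤ ∑ |coeff| = n1 g` (`mahlerMeasure_le_sum_norm_coeff`),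
`|coeff i of p| ≤ choose (natDegree p) i * M(p)` (`norm_coeff_le_choose_mul_mahlerMeasure`), so
`n1 p ≤ ∑_(i ≤ natDegree p) choose * M(p) = 2^(natDegree p) M(p) ≤ 2^b M(p)` (`Nat.sum_range_choose`). -/

namespace Pool.Agent.H97.ZE

open Finset Polynomial

private noncomputable def mm (p : ℤ[X]) : ℝ := (p.map (Int.castRingHom ℂ)).mahlerMeasure

private theorem mm_mul (p q : ℤ[X]) : mm (p * q) = mm p * mm q := by
  unfold mm
  rw [Polynomial.map_mul, mahlerMeasure_mul]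

private theorem mm_nonneg (p : ℤ[X]) : 0 ≤ mm p := mahlerMeasure_nonneg _

private theorem mm_pow (p : ℤ[X]) (k : ℕ) : mm (p ^ k) = mm p ^ k := by
  induction k with
  | zero =>
    rw [pow_zero, pow_zero]
    unfold mm
    rw [Polynomial.map_one, mahlerMeasure_one]
  | succ k ih => rw [pow_succ, pow_succ, mm_mul, ih]

private theorem map_inj : Function.Injective (Int.castRingHom ℂ) := by
  intro a b h
  have h1 : (a : ℂ) = b := h
  exact_mod_cast h1

private theorem one_le_mm {p : ℤ[X]} (hp : p ≠ 0) : 1 ≤ mm p := by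
  apply one_le_mahlerMeasure_of_one_le_norm_leadingCoeff
  rw [leadingCoeff_map_of_injective map_inj]
  have h1 : (Int.castRingHom ℂ) p.leadingCoeff = ((p.leadingCoeff : ℤ) : ℂ) := rfl
  rw [h1, Complex.norm_intCast]
  have h2 : (1 : ℤ) ≤ |p.leadingCoeff| := Int.one_le_abs (leadingCoeff_ne_zero.2 hp)
  exact_mod_cast h2

private theorem nrm (p : ℤ[X]) (i : ℕ) :
    ‖(p.map (Int.castRingHom ℂ)).coeff i‖ = ((p.coeff i).natAbs : ℝ) := by
  have h1 : (p.map (Int.castRingHom ℂ)).coeff i = ((p.coeff i : ℤ) : ℂ) := coeff_map _ _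
  rw [h1, Complex.norm_intCast, Nat.cast_natAbs, Int.cast_abs]

private theorem mm_le (g : ℤ[X]) : mm g ≤ n1 g := by
  unfold mm
  refine (mahlerMeasure_le_sum_norm_coeff _).trans (le_of_eq ?_)
  rw [Polynomial.sum_def, support_map_of_injective _ map_inj]
  unfold n1
  rw [Nat.cast_sum]
  exact Finset.sum_congr rfl fun i _ => nrm g i

private theorem le_mm {b : ℕ} {p : ℤ[X]} (hb : p.natDegree ≤ b) : (n1 p : ℝ) ≤ 2 ^ b * mm p := by
  have hsub : p.support ⊆ Finset.range (p.natDegree + 1) := by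
    intro i hi
    rw [Finset.mem_range]
    have := le_natDegree_of_mem_supp i hi
    omega
  have hd : (p.map (Int.castRingHom ℂ)).natDegree = p.natDegree :=
    natDegree_map_eq_of_injective map_inj p
  rw [n1_eq p hsub, Nat.cast_sum]
  calc ∑ i ∈ Finset.range (p.natDegree + 1), ((p.coeff i).natAbs : ℝ)
      ≤ ∑ i ∈ Finset.range (p.natDegree + 1), ((p.natDegree.choose i : ℕ) : ℝ) * mm p := by
        refine Finset.sum_le_sum fun i _ => ?_
        rw [← nrm p i]
        have h1 := norm_coeff_le_choose_mul_mahlerMeasure i (p.map (Int.castRingHom ℂ))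
        rw [hd] at h1
        exact h1
    _ = 2 ^ p.natDegree * mm p := by
        rw [← Finset.sum_mul]
        have h2 : (∑ i ∈ Finset.range (p.natDegree + 1), ((p.natDegree.choose i : ℕ) : ℝ)) =
            2 ^ p.natDegree := by
          have h3 := Nat.sum_range_choose p.natDegree
          exact_mod_cast h3
        rw [h2]
    _ ≤ 2 ^ b * mm p :=
        mul_le_mul_of_nonneg_right (pow_le_pow_right₀ (by norm_num) hb) (mm_nonneg p)

theorem mah {b μ : ℕ} {p g : ℤ[X]} (hg : g ≠ 0) (hb : p.natDegree ≤ b) (h : p ^ μ ∣ g) :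
    n1 p ^ μ ≤ (2 ^ b) ^ μ * n1 g := by
  obtain ⟨q, hq⟩ := h
  have hq0 : q ≠ 0 := by
    rintro rfl
    exact hg (by rw [hq, mul_zero])
  have h1 : mm p ^ μ ≤ n1 g := by
    calc mm p ^ μ = mm p ^ μ * 1 := (mul_one _).symm
      _ ≤ mm p ^ μ * mm q :=
          mul_le_mul_of_nonneg_left (one_le_mm hq0) (pow_nonneg (mm_nonneg p) _)
      _ = mm g := by rw [hq, mm_mul, mm_pow]
      _ ≤ n1 g := mm_le g
  have h2 : ((n1 p ^ μ : ℕ) : ℝ) ≤ (((2 ^ b) ^ μ * n1 g : ℕ) : ℝ) := by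
    push_cast
    calc (n1 p : ℝ) ^ μ ≤ (2 ^ b * mm p) ^ μ :=
          pow_le_pow_left₀ (Nat.cast_nonneg _) (le_mm hb) μ
      _ = (2 ^ b) ^ μ * mm p ^ μ := mul_pow _ _ _
      _ ≤ (2 ^ b) ^ μ * n1 g := mul_le_mul_of_nonneg_left h1 (by positivity)
  exact_mod_cast h2

end Pool.Agent.H97.ZE
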