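import Pool.Agent.H97.ZE.SZ
import Pool.Agent.H97.ZE.MAH

/-! # [H97 ZE GLF] Gelfond's inequality in two variables, bounded degree

Kronecker substitution `φ : ℤ[t][x] → ℤ[X]`, `x ↦ X`, `t ↦ X^(b+1)` (see `kr`, `kr_coeff` in `Pool/Agent/H97/XU/FCG.lean`, private there: copy):
for `P.natDegree ≤ b` the coefficient of `X^(j + (b+1) i)` (`j ≤ b`) of `φ P` is that of `t^i x^j`, so `n1 (φ P) = n2 P`, and
`φ P ≠ 0` for `P ≠ 0`. `f = g h`: the degrees of `g` in `x` is at most that of `f` (`natDegree_mul`), the same in `t`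
(`Polynomial.Bivariate.swap`, or: the degree in `t` of a product is the sum, compare the leading coefficients in `t`), so `dg b g`;
`natDegree (φ g) ≤ b + (b + 1) b`. `φ g ∣ φ f`, `mah` with `μ = 1`: `n2 g = n1 (φ g) ≤ 2^((b+1)^2) n1 (φ f) = 2^((b+1)^2) n2 f`. `M = 2^((b+1)^2)`. -/

namespace Pool.Agent.H97.ZE

open Finset Polynomial

private theorem coeff_swap {R : Type*} [CommRing R] (p : R[X][X]) (i j : ℕ) :
    ((Bivariate.swap p).coeff i).coeff j = (p.coeff j).coeff i := by
  induction p using Polynomial.induction_on' with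
  | add p q hp hq => rw [map_add, coeff_add, coeff_add, hp, hq, coeff_add, coeff_add]
  | monomial n f =>
    induction f using Polynomial.induction_on' with
    | add f g hf hg => rw [map_add, map_add, coeff_add, coeff_add, hf, hg, coeff_add, coeff_add]
    | monomial m r =>
      rw [Bivariate.swap_monomial_monomial, coeff_monomial, coeff_monomial]
      split_ifs with h1 h2 h2
      · subst h1 h2
        rw [coeff_monomial, coeff_monomial, if_pos rfl, if_pos rfl]
      · rw [coeff_monomial, if_neg h2, coeff_zero]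
      · rw [coeff_monomial, if_neg h1, coeff_zero]
      · rw [coeff_zero, coeff_zero]

private theorem deg_le_swap {R : Type*} [CommRing R] (p : R[X][X]) (j : ℕ) :
    (p.coeff j).natDegree ≤ (Bivariate.swap p).natDegree := by
  rw [natDegree_le_iff_coeff_eq_zero]
  intro i hi
  rw [← coeff_swap, coeff_eq_zero_of_natDegree_lt hi, coeff_zero]

private theorem swap_deg_le {R : Type*} [CommRing R] {p : R[X][X]} {d : ℕ}
    (h : ∀ j, (p.coeff j).natDegree ≤ d) : (Bivariate.swap p).natDegree ≤ d := by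
  rw [natDegree_le_iff_coeff_eq_zero]
  intro i hi
  ext j
  rw [coeff_swap, coeff_eq_zero_of_natDegree_lt ((h j).trans_lt hi), coeff_zero]

private theorem deg_left {R : Type*} [CommRing R] [IsDomain R] {A B : R[X][X]} (hA : A ≠ 0)
    (hB : B ≠ 0) {d : ℕ} (h : ∀ j, ((A * B).coeff j).natDegree ≤ d) (j : ℕ) :
    (A.coeff j).natDegree ≤ d := by
  have h1 := swap_deg_le h
  have hinj : Function.Injective (Bivariate.swap (R := R)) := AlgEquiv.injective _
  have hA' : Bivariate.swap A ≠ 0 := fun h0 => hA (hinj (by rw [h0, map_zero]))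
  have hB' : Bivariate.swap B ≠ 0 := fun h0 => hB (hinj (by rw [h0, map_zero]))
  rw [map_mul, natDegree_mul hA' hB'] at h1
  exact (deg_le_swap A j).trans (by omega)

/-- the Kronecker substitution -/
private noncomputable def kr (b : ℕ) : ℤ[X][X] →+* ℤ[X] :=
  eval₂RingHom ((expand ℤ (b + 1)).toRingHom) X

private theorem kr_eq (b : ℕ) (P : ℤ[X][X]) :
    kr b P = ∑ k ∈ P.support, expand ℤ (b + 1) (P.coeff k) * X ^ k := by
  unfold kr
  rw [coe_eval₂RingHom, eval₂_eq_sum, Polynomial.sum_def]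
  rfl

private theorem kr_coeff {b : ℕ} {P : ℤ[X][X]} (hP : P.natDegree ≤ b) {j : ℕ} (hj : j ≤ b)
    (i : ℕ) : (kr b P).coeff (j + (b + 1) * i) = (P.coeff j).coeff i := by
  rw [kr_eq, finsetSum_coeff]
  rw [Finset.sum_eq_single j]
  · rw [coeff_mul_X_pow', if_pos (Nat.le_add_right _ _), Nat.add_sub_cancel_left,
      coeff_expand (Nat.succ_pos b), if_pos (Dvd.intro _ rfl), Nat.mul_div_cancel_left _
        (Nat.succ_pos b)]
  · intro k hk hkj
    have hkb : k ≤ b := (le_natDegree_of_mem_supp k hk).trans hP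
    rw [coeff_mul_X_pow']
    split_ifs with h1
    · rw [coeff_expand (Nat.succ_pos b), if_neg]
      rintro ⟨m, hm⟩
      rw [Nat.succ_eq_add_one] at hm
      have h2 : j + (b + 1) * i = k + (b + 1) * m := by omega
      have h3 := congrArg (· % (b + 1)) h2
      simp only [Nat.add_mul_mod_self_left] at h3
      rw [Nat.mod_eq_of_lt (by omega), Nat.mod_eq_of_lt (by omega)] at h3
      exact hkj h3.symm
    · rfl
  · intro hj'
    rw [notMem_support_iff] at hj'
    rw [hj', map_zero, zero_mul, coeff_zero]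

private theorem n1_expand (b : ℕ) (p : ℤ[X]) : n1 (expand ℤ (b + 1) p) ≤ n1 p := by
  have h1 : expand ℤ (b + 1) p = ∑ i ∈ p.support, C (p.coeff i) * X ^ ((b + 1) * i) := by
    conv_lhs => rw [p.as_sum_support_C_mul_X_pow]
    rw [map_sum]
    refine Finset.sum_congr rfl fun i _ => ?_
    rw [map_mul, expand_C, map_pow, expand_X, ← pow_mul]
  rw [h1]
  refine (n1_sum _ _).trans (Finset.sum_le_sum fun i _ => ?_)
  refine (n1_mul _ _).trans ?_
  rw [n1_C, n1_X_pow, mul_one]

private theorem n1_kr (b : ℕ) (P : ℤ[X][X]) : n1 (kr b P) ≤ n2 P := by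
  rw [kr_eq]
  refine (n1_sum _ _).trans (Finset.sum_le_sum fun k _ => ?_)
  refine (n1_mul _ _).trans ?_
  rw [n1_X_pow, mul_one]
  exact n1_expand b _

private theorem kr_n2 {b : ℕ} {P : ℤ[X][X]} (hP : dg b P) : n2 P ≤ n1 (kr b P) := by
  classical
  have hsub : ∀ {R : Type} [CommRing R] (p : R[X]), p.natDegree ≤ b → p.support ⊆ range (b + 1) := by
    intro R _ p hp i hi
    rw [Finset.mem_range]
    have := le_natDegree_of_mem_supp i hi
    omega
  have h1 : n2 P = ∑ p ∈ range (b + 1) ×ˢ range (b + 1), ((P.coeff p.1).coeff p.2).natAbs := by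
    rw [n2_eq P (hsub P hP.1), Finset.sum_product]
    exact Finset.sum_congr rfl fun j _ => n1_eq _ (hsub _ (hP.2 j))
  have h2 : ∑ p ∈ range (b + 1) ×ˢ range (b + 1), ((P.coeff p.1).coeff p.2).natAbs =
      ∑ m ∈ (range (b + 1) ×ˢ range (b + 1)).image (fun p : ℕ × ℕ => p.1 + (b + 1) * p.2),
        ((kr b P).coeff m).natAbs := by
    rw [Finset.sum_image]
    · refine Finset.sum_congr rfl fun p hp => ?_
      rw [Finset.mem_product, Finset.mem_range, Finset.mem_range] at hp
      rw [kr_coeff hP.1 (by omega)]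
    · rintro ⟨j, i⟩ hp ⟨j', i'⟩ hp' h3
      rw [Finset.mem_coe, Finset.mem_product, Finset.mem_range, Finset.mem_range] at hp hp'
      simp only at h3 hp hp'
      have h4 := congrArg (· % (b + 1)) h3
      simp only [Nat.add_mul_mod_self_left] at h4
      rw [Nat.mod_eq_of_lt hp.1, Nat.mod_eq_of_lt hp'.1] at h4
      subst h4
      have h5 : (b + 1) * i = (b + 1) * i' := by omega
      rw [Nat.eq_of_mul_eq_mul_left (Nat.succ_pos b) h5]
  rw [h1, h2, n1_eq (kr b P) (t := (kr b P).support ∪ (range (b + 1) ×ˢ range (b + 1)).image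
    (fun p : ℕ × ℕ => p.1 + (b + 1) * p.2)) Finset.subset_union_left]
  exact Finset.sum_le_sum_of_subset Finset.subset_union_right

private theorem kr_deg {b : ℕ} {P : ℤ[X][X]} (hP : dg b P) : (kr b P).natDegree ≤ (b + 1) ^ 2 := by
  rw [kr_eq]
  refine natDegree_sum_le_of_forall_le _ _ fun k hk => ?_
  refine natDegree_mul_le.trans ?_
  rw [natDegree_expand, natDegree_X_pow]
  have h1 : k ≤ b := (le_natDegree_of_mem_supp k hk).trans hP.1
  have h2 := hP.2 k
  nlinarith [Nat.mul_le_mul_right (b + 1) h2]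

theorem glf (b : ℕ) : ∃ M : ℕ, 1 ≤ M ∧ ∀ f g h : ℤ[X][X], f ≠ 0 → dg b f → f = g * h →
    dg b g ∧ n2 g ≤ M * n2 f := by
  refine ⟨2 ^ ((b + 1) ^ 2), Nat.one_le_two_pow, fun f g h hf hdf hgh => ?_⟩
  have hg : g ≠ 0 := by
    rintro rfl
    rw [zero_mul] at hgh
    exact hf hgh
  have hh : h ≠ 0 := by
    rintro rfl
    rw [mul_zero] at hgh
    exact hf hgh
  have hdg : dg b g := by
    refine ⟨?_, deg_left hg hh fun j => by rw [← hgh]; exact hdf.2 j⟩
    have h1 := hdf.1
    rw [hgh, natDegree_mul hg hh] at h1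
    omega
  refine ⟨hdg, ?_⟩
  have hkf : kr b f ≠ 0 := by
    intro h0
    have h1 := kr_n2 hdf
    rw [h0, n1_zero] at h1
    have h2 := n2_pos hf
    omega
  have h3 := mah (b := (b + 1) ^ 2) (μ := 1) (p := kr b g) hkf (kr_deg hdg)
    (by rw [pow_one, hgh, map_mul]; exact dvd_mul_right _ _)
  rw [pow_one, pow_one] at h3
  calc n2 g ≤ n1 (kr b g) := kr_n2 hdg
    _ ≤ 2 ^ ((b + 1) ^ 2) * n1 (kr b f) := h3
    _ ≤ 2 ^ ((b + 1) ^ 2) * n2 f := Nat.mul_le_mul_left _ (n1_kr b f)

end Pool.Agent.H97.ZE
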