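import Pool.Agent.H97.ZE.SZ

/-! # [H97 ZE HAS] Hasse derivatives of a multiple of `q^μ`, and two small estimates

* `has`: `g = q^μ h`, `q` does not divide `h`. Leibniz (`Polynomial.hasseDeriv_mul`): `hasseDeriv μ (q^μ h) = ∑_(i + j = μ)
  hasseDeriv i (q^μ) * hasseDeriv j h`. Lemma (induction on `k`, again Leibniz): for `i ≤ k`: `q^(k - i) ∣ hasseDeriv i (q^k)` and
  `q ∣ hasseDeriv k (q^k) - (derivative q)^k`. So modulo `q`: `hasseDeriv μ g ≡ (derivative q)^μ h`. `q` is prime (`Irreducible.prime`,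
  `ℤ[X][X]` is a unique factorisation domain), does not divide `h` and not `derivative q` (of smaller degree and not zero:
  characteristic zero and `0 < q.natDegree`; `Polynomial.natDegree_le_of_dvd`, `natDegree_derivative_lt`).
* `n2_hasse`: `hasseDeriv μ g = ∑_j monomial (j - μ) (choose j μ * g_j)`, `choose j μ ≤ 2^j ≤ 2^D`.
* `rob`: the lowest non-zero coefficient of `R = (X - a)^N R1` is `(-a)^N` times that of `R1` (`a ≠ 0`; `Polynomial.trailingCoeff_mul`), a non-zero
  integer; `coeff_le_n1`. If `a = 0` and `N ≥ 1` the left side is `0`; `N = 0`: `n1_pos`. -/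

namespace Pool.Agent.H97.ZE

open Finset Polynomial

private theorem has_dvd (q : ℤ[X][X]) : ∀ k i : ℕ, i ≤ k → q ^ (k - i) ∣ hasseDeriv i (q ^ k) := by
  intro k
  induction k with
  | zero =>
    intro i hi
    simp
  | succ k ih =>
    intro i hi
    rw [pow_succ', hasseDeriv_mul]
    refine Finset.dvd_sum fun ab hab => ?_
    rw [HasAntidiagonal.mem_antidiagonal] at hab
    rcases Nat.eq_zero_or_pos ab.1 with ha | ha
    · rw [ha, hasseDeriv_zero']
      rcases Nat.lt_or_ge k i with hki | hki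
      · rw [show k + 1 - i = 0 by omega, pow_zero]
        exact one_dvd _
      · rw [show k + 1 - i = (k - i) + 1 by omega, pow_succ']
        refine mul_dvd_mul_left _ ?_
        rw [show ab.2 = i by omega]
        exact ih i hki
    · refine Dvd.dvd.mul_left ?_ _
      refine dvd_trans (pow_dvd_pow q ?_) (ih ab.2 (by omega))
      omega

private theorem has_cong (q : ℤ[X][X]) : ∀ k : ℕ, q ∣ hasseDeriv k (q ^ k) - (derivative q) ^ k := by
  intro k
  induction k with
  | zero =>
    rw [hasseDeriv_zero', pow_zero, pow_zero, sub_self]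
    exact dvd_zero _
  | succ k ih =>
    rw [pow_succ' q k, hasseDeriv_mul]
    have hmem : ((1, k) : ℕ × ℕ) ∈ HasAntidiagonal.antidiagonal (k + 1) := by
      rw [HasAntidiagonal.mem_antidiagonal]
      exact Nat.add_comm 1 k
    rw [← Finset.add_sum_erase _ _ hmem]
    have h1 : q ∣ hasseDeriv 1 q * hasseDeriv k (q ^ k) - derivative q ^ (k + 1) := by
      rw [hasseDeriv_one', pow_succ', ← mul_sub]
      exact Dvd.dvd.mul_left ih _
    have h2 : q ∣ ∑ x ∈ (HasAntidiagonal.antidiagonal (k + 1)).erase (1, k),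
        hasseDeriv x.1 q * hasseDeriv x.2 (q ^ k) := by
      refine Finset.dvd_sum fun ab hab => ?_
      rw [Finset.mem_erase, HasAntidiagonal.mem_antidiagonal] at hab
      rcases Nat.eq_zero_or_pos ab.1 with ha | ha
      · rw [ha, hasseDeriv_zero']
        exact Dvd.intro _ rfl
      · have ha1 : ab.1 ≠ 1 := by
          intro h
          apply hab.1
          exact Prod.ext h (by simp only; omega)
        refine Dvd.dvd.mul_left ?_ _
        refine dvd_trans ?_ (has_dvd q k ab.2 (by omega))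
        exact dvd_pow_self q (by omega)
    have h3 := dvd_add h1 h2
    have h4 : hasseDeriv 1 q * hasseDeriv k (q ^ k) + ∑ x ∈ (HasAntidiagonal.antidiagonal (k + 1)).erase (1, k),
        hasseDeriv x.1 q * hasseDeriv x.2 (q ^ k) - derivative q ^ (k + 1) =
        (hasseDeriv 1 q * hasseDeriv k (q ^ k) - derivative q ^ (k + 1)) +
        ∑ x ∈ (HasAntidiagonal.antidiagonal (k + 1)).erase (1, k),
        hasseDeriv x.1 q * hasseDeriv x.2 (q ^ k) := by ring
    rw [h4]
    exact h3

theorem has {μ : ℕ} {q g : ℤ[X][X]} (hq : Irreducible q) (hd : 0 < q.natDegree) (h1 : q ^ μ ∣ g)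
    (h2 : ¬ q ^ (μ + 1) ∣ g) : ¬ q ∣ hasseDeriv μ g := by
  intro hcon
  obtain ⟨h, rfl⟩ := h1
  have hqh : ¬ q ∣ h := by
    rintro ⟨r, rfl⟩
    exact h2 ⟨r, by ring⟩
  have hprime : Prime q := hq.prime
  have hder : ¬ q ∣ derivative q := by
    intro hdiv
    have hne : derivative q ≠ 0 := by
      intro h0
      have := derivative_eq_zero.mp h0
      omega
    have h3 := natDegree_le_of_dvd hdiv hne
    have h4 := natDegree_derivative_lt (p := q) (by omega)
    omega
  rw [hasseDeriv_mul] at hcon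
  have hmem : ((μ, 0) : ℕ × ℕ) ∈ HasAntidiagonal.antidiagonal μ := by
    rw [HasAntidiagonal.mem_antidiagonal]
    exact Nat.add_zero μ
  rw [← Finset.add_sum_erase _ _ hmem] at hcon
  have h5 : q ∣ ∑ x ∈ (HasAntidiagonal.antidiagonal μ).erase (μ, 0),
      hasseDeriv x.1 (q ^ μ) * hasseDeriv x.2 h := by
    refine Finset.dvd_sum fun ab hab => ?_
    rw [Finset.mem_erase, HasAntidiagonal.mem_antidiagonal] at hab
    have ha1 : ab.1 ≠ μ := by
      intro h
      apply hab.1
      exact Prod.ext h (by simp only; omega)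
    refine Dvd.dvd.mul_right ?_ _
    refine dvd_trans ?_ (has_dvd q μ ab.1 (by omega))
    exact dvd_pow_self q (by omega)
  have h6 : q ∣ hasseDeriv μ (q ^ μ) * hasseDeriv 0 h := (dvd_add_left h5).mp hcon
  rw [hasseDeriv_zero'] at h6
  have h7 : q ∣ (hasseDeriv μ (q ^ μ) - derivative q ^ μ) * h := Dvd.dvd.mul_right (has_cong q μ) _
  have h8 : q ∣ derivative q ^ μ * h := by
    have h9 := dvd_sub h6 h7
    have h10 : hasseDeriv μ (q ^ μ) * h - (hasseDeriv μ (q ^ μ) - derivative q ^ μ) * h =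
        derivative q ^ μ * h := by ring
    rwa [h10] at h9
  rcases hprime.dvd_or_dvd h8 with h9 | h9
  · exact hder (hprime.dvd_of_dvd_pow h9)
  · exact hqh h9

private theorem n1_natCast (c : ℕ) : n1 (c : ℤ[X]) = c := by
  have h : ((c : ℕ) : ℤ[X]) = C (c : ℤ) := by simp
  rw [h, n1_C, Int.natAbs_natCast]

private theorem n2_monomial (k : ℕ) (p : ℤ[X]) : n2 (monomial k p) ≤ n1 p := by
  rw [← C_mul_X_pow_eq_monomial]
  have := n2_mul (C p) (X ^ k)
  rwa [n2_C, n2_X_pow, mul_one] at this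

theorem n2_hasse {D : ℕ} {g : ℤ[X][X]} (hg : g.natDegree ≤ D) (μ : ℕ) :
    n2 (hasseDeriv μ g) ≤ 2 ^ D * n2 g := by
  rw [hasseDeriv_apply, sum_def]
  refine (n2_sum _ _).trans ?_
  unfold n2
  rw [Finset.mul_sum]
  refine Finset.sum_le_sum fun i hi => ?_
  refine (n2_monomial _ _).trans ?_
  refine (n1_mul _ _).trans ?_
  rw [n1_natCast]
  refine Nat.mul_le_mul_right _ ?_
  have h1 : i ≤ g.natDegree := le_natDegree_of_mem_supp i hi
  refine (Nat.choose_le_two_pow i μ).trans ?_
  exact Nat.pow_le_pow_right (by norm_num) (h1.trans hg)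

theorem dg_hasse {D : ℕ} {g : ℤ[X][X]} (hg : dg D g) (μ : ℕ) : dg D (hasseDeriv μ g) := by
  refine ⟨?_, fun j => ?_⟩
  · have h1 := natDegree_hasseDeriv_le g μ
    have h2 := hg.1
    omega
  · rw [hasseDeriv_coeff]
    refine (natDegree_mul_le).trans ?_
    rw [natDegree_natCast, zero_add]
    exact hg.2 _

theorem rob {N : ℕ} {a : ℤ} {R : ℤ[X]} (hR : R ≠ 0) (h : (X - C a) ^ N ∣ R) :
    a.natAbs ^ N ≤ n1 R := by
  rcases eq_or_ne a 0 with rfl | ha
  · rcases Nat.eq_zero_or_pos N with rfl | hN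
    · rw [pow_zero]
      exact n1_pos hR
    · rw [Int.natAbs_zero, zero_pow (by omega)]
      exact Nat.zero_le _
  obtain ⟨R1, rfl⟩ := h
  have hR1 : R1 ≠ 0 := by
    rintro rfl
    exact hR (mul_zero _)
  have h1 : trailingCoeff ((X - C a : ℤ[X]) ^ N) = (-a) ^ N := by
    induction N with
    | zero =>
      rw [pow_zero, pow_zero]
      have h2 : (1 : ℤ[X]).natTrailingDegree = 0 := natTrailingDegree_one
      rw [trailingCoeff, h2]
      simp
    | succ N ih =>
      have h3 : (X - C a : ℤ[X]) ^ N * R1 ≠ 0 :=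
        mul_ne_zero (pow_ne_zero _ (X_sub_C_ne_zero a)) hR1
      rw [pow_succ, trailingCoeff_mul, ih h3, pow_succ]
      congr 1
      have h4 : (X - C a : ℤ[X]).coeff 0 = -a := by simp
      have h5 : (X - C a : ℤ[X]).natTrailingDegree = 0 := by
        rw [natTrailingDegree_eq_zero]
        right
        rw [h4]
        exact neg_ne_zero.mpr ha
      rw [trailingCoeff, h5, h4]
  have h6 : trailingCoeff ((X - C a : ℤ[X]) ^ N * R1) = (-a) ^ N * R1.trailingCoeff := by
    rw [trailingCoeff_mul, h1]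
  have h7 : R1.trailingCoeff ≠ 0 := by
    rw [Ne, trailingCoeff_eq_zero]
    exact hR1
  have h8 : (trailingCoeff ((X - C a : ℤ[X]) ^ N * R1)).natAbs ≤
      n1 ((X - C a : ℤ[X]) ^ N * R1) := by
    rw [trailingCoeff]
    exact coeff_le_n1 _ _
  refine le_trans ?_ h8
  rw [h6, Int.natAbs_mul, Int.natAbs_pow, Int.natAbs_neg]
  exact Nat.le_mul_of_pos_right _ (Int.natAbs_pos.mpr h7)

end Pool.Agent.H97.ZE
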