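import Mathlib

/-! # [H97 ZE HEN] Hensel's lemma for power series in two variables

`Ω = MvPowerSeries (Fin 2) A`, `V N = {φ : coeff ν φ = 0 for ν 0 + ν 1 < N}`: an ideal, `V M * V N ⊆ V (M + N)`, `V 1` = zero constant coefficient.
* `hen_exists`: `e` = inverse of the constant coefficient of `f.coeff 1`. `Z 0 = 0`, `Z (k+1) = Z k - C e * f.eval (Z k)`. Claim:
  `Z k ∈ V 1`, `f.eval (Z k) ∈ V (k + 1)`. Step: `h = - C e * f.eval (Z k) ∈ V (k + 1)`; `f.eval (Z k + h) = f.eval (Z k) + f'.eval (Z k) * h + z h^2`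
  (`Polynomial.binomExpansion`), `= f.eval (Z k) * (1 - C e * f'.eval (Z k)) + z h^2`; `f'.eval (Z k)` has the constant coefficient of `f.coeff 1`
  (`Z k ∈ V 1`: `f'.eval (Z k) ≡ f'.coeff 0 = f.coeff 1` modulo `V 1`), so the bracket is in `V 1`, the sum in `V (k + 2)`. `Z (k+1) - Z k ∈ V (k + 1)`.
  Put `Z ν = coeff ν (Z (ν 0 + ν 1 + 1))`: `Z - Z k ∈ V (k + 1)`.. for all `k` up to an index shift, so
  `f.eval Z ≡ f.eval (Z k) ≡ 0` modulo `V k` (`Polynomial.sub_dvd_eval_sub`), for all `k`: `f.eval Z = 0`.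
* `hen_unique`: `0 = f.eval Z - f.eval Z'`, `Z = Z' + w`: `f.eval (Z' + w) = f.eval Z' + f'.eval Z' * w + z w^2`, so `w (f'.eval Z' + z w) = 0`; the constant
  coefficient of the bracket is that of `f'.eval Z'` (`w ∈ V 1`), not zero by hypothesis; `Ω` is a domain (`Mathlib.RingTheory.MvPowerSeries.NoZeroDivisors`).
  So `w = 0`. -/

namespace Pool.Agent.H97.ZE

open Finset Polynomial

/-- the ideal of the power series of order at least `N` -/
private def V (A : Type) [CommRing A] (N : ℕ) : Ideal (MvPowerSeries (Fin 2) A) where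
  carrier := {φ | ∀ ν : Fin 2 →₀ ℕ, ν 0 + ν 1 < N → MvPowerSeries.coeff ν φ = 0}
  add_mem' := by
    intro a b ha hb ν hν
    rw [map_add, ha ν hν, hb ν hν, add_zero]
  zero_mem' := fun ν _ => map_zero _
  smul_mem' := by
    intro c φ h ν hν
    rw [smul_eq_mul, MvPowerSeries.coeff_mul]
    apply Finset.sum_eq_zero
    intro p hp
    rw [HasAntidiagonal.mem_antidiagonal] at hp
    have h1 : p.2 0 + p.2 1 < N := by
      have e0 : p.1 0 + p.2 0 = ν 0 := by rw [← hp, Finsupp.add_apply]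
      have e1 : p.1 1 + p.2 1 = ν 1 := by rw [← hp, Finsupp.add_apply]
      omega
    rw [h p.2 h1, mul_zero]

section
variable {A : Type} [CommRing A]

private theorem mem_V {N : ℕ} {φ : MvPowerSeries (Fin 2) A} :
    φ ∈ V A N ↔ ∀ ν : Fin 2 →₀ ℕ, ν 0 + ν 1 < N → MvPowerSeries.coeff ν φ = 0 := Iff.rfl

private theorem V_mul {M N : ℕ} {φ ψ : MvPowerSeries (Fin 2) A} (h : φ ∈ V A M) (h' : ψ ∈ V A N) :
    φ * ψ ∈ V A (M + N) := by
  rw [mem_V]
  intro ν hν
  rw [MvPowerSeries.coeff_mul]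
  apply Finset.sum_eq_zero
  intro p hp
  rw [HasAntidiagonal.mem_antidiagonal] at hp
  have e0 : p.1 0 + p.2 0 = ν 0 := by rw [← hp, Finsupp.add_apply]
  have e1 : p.1 1 + p.2 1 = ν 1 := by rw [← hp, Finsupp.add_apply]
  by_cases h1 : p.1 0 + p.1 1 < M
  · rw [mem_V.1 h p.1 h1, zero_mul]
  · rw [mem_V.1 h' p.2 (by omega), mul_zero]

private theorem V_mono {M N : ℕ} (hMN : M ≤ N) {φ : MvPowerSeries (Fin 2) A} (h : φ ∈ V A N) :
    φ ∈ V A M := fun ν hν => mem_V.1 h ν (by omega)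

private theorem V_one {φ : MvPowerSeries (Fin 2) A} :
    φ ∈ V A 1 ↔ MvPowerSeries.constantCoeff φ = 0 := by
  rw [mem_V]
  constructor
  · intro h
    have h1 := h 0 (by simp)
    rw [MvPowerSeries.coeff_zero_eq_constantCoeff_apply] at h1
    exact h1
  · intro h ν hν
    have h1 : ν = 0 := by
      ext i
      fin_cases i
      · show ν 0 = 0
        omega
      · show ν 1 = 0
        omega
    rw [h1, MvPowerSeries.coeff_zero_eq_constantCoeff_apply]
    exact h

private theorem V_inf {φ : MvPowerSeries (Fin 2) A} (h : ∀ N, φ ∈ V A N) : φ = 0 := by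
  ext ν
  rw [map_zero]
  exact mem_V.1 (h (ν 0 + ν 1 + 1)) ν (by omega)

private theorem V_lim {Z : ℕ → MvPowerSeries (Fin 2) A} (h : ∀ k, Z (k + 1) - Z k ∈ V A (k + 1)) :
    ∃ Y : MvPowerSeries (Fin 2) A, ∀ k, Y - Z k ∈ V A (k + 1) := by
  have h1 : ∀ (ν : Fin 2 →₀ ℕ) (j : ℕ), MvPowerSeries.coeff ν (Z (ν 0 + ν 1 + j)) =
      MvPowerSeries.coeff ν (Z (ν 0 + ν 1)) := by
    intro ν j
    induction j with
    | zero => rfl
    | succ j ih =>
      rw [← ih, ← sub_eq_zero, ← map_sub]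
      exact mem_V.1 (h (ν 0 + ν 1 + j)) ν (by omega)
  refine ⟨fun ν => MvPowerSeries.coeff ν (Z (ν 0 + ν 1)), fun k => ?_⟩
  rw [mem_V]
  intro ν hν
  rw [map_sub, sub_eq_zero]
  obtain ⟨j, hj⟩ := Nat.exists_eq_add_of_le (Nat.lt_succ_iff.1 hν)
  rw [hj, h1]
  rfl

end

theorem hen_exists {A : Type} [CommRing A] (f : Polynomial (MvPowerSeries (Fin 2) A))
    (h0 : MvPowerSeries.constantCoeff (f.coeff 0) = 0)
    (h1 : IsUnit (MvPowerSeries.constantCoeff (f.coeff 1))) :
    ∃ Z : MvPowerSeries (Fin 2) A, MvPowerSeries.constantCoeff Z = 0 ∧ f.eval Z = 0 := by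
  obtain ⟨e, he⟩ := h1.exists_left_inv
  obtain ⟨E, hE⟩ : ∃ E : MvPowerSeries (Fin 2) A, MvPowerSeries.constantCoeff E = e :=
    ⟨MvPowerSeries.C e, MvPowerSeries.constantCoeff_C _⟩
  obtain ⟨Z, hZ0, hZs⟩ : ∃ Z : ℕ → MvPowerSeries (Fin 2) A, Z 0 = 0 ∧
      ∀ k, Z (k + 1) = Z k - E * f.eval (Z k) :=
    ⟨fun k => Nat.rec 0 (fun _ z => z - E * f.eval z) k, rfl, fun _ => rfl⟩
  have key : ∀ k, Z k ∈ V A 1 ∧ f.eval (Z k) ∈ V A (k + 1) := by
    intro k
    induction k with
    | zero =>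
      rw [hZ0]
      refine ⟨(V A 1).zero_mem, ?_⟩
      rw [zero_add, V_one, ← Polynomial.coeff_zero_eq_eval_zero]
      exact h0
    | succ k ih =>
      obtain ⟨ih1, ih2⟩ := ih
      refine ⟨?_, ?_⟩
      · rw [hZs k]
        exact (V A 1).sub_mem ih1 ((V A 1).mul_mem_left _ (V_mono (by omega) ih2))
      · obtain ⟨z, hz⟩ := Polynomial.binomExpansion f (Z k) (-(E * f.eval (Z k)))
        have e1 : f.eval (Z (k + 1)) = f.eval (Z k) * (1 - E * (derivative f).eval (Z k)) +
            z * ((E * f.eval (Z k)) * (E * f.eval (Z k))) := by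
          rw [hZs k, sub_eq_add_neg, hz]
          ring
        have h2 : (1 - E * (derivative f).eval (Z k)) ∈ V A 1 := by
          have h3 : (derivative f).eval (Z k) - (derivative f).eval 0 ∈ V A 1 := by
            obtain ⟨w, hw⟩ := Polynomial.sub_dvd_eval_sub (Z k) 0 (derivative f)
            rw [hw, sub_zero, mul_comm]
            exact (V A 1).mul_mem_left _ ih1
          have h4 : MvPowerSeries.constantCoeff ((derivative f).eval (Z k)) =
              MvPowerSeries.constantCoeff (f.coeff 1) := by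
            have h5 := V_one.1 h3
            rw [map_sub, sub_eq_zero] at h5
            rw [h5, ← Polynomial.coeff_zero_eq_eval_zero, Polynomial.coeff_derivative]
            simp
          rw [V_one, map_sub, map_mul, map_one, hE, h4, he, sub_self]
        rw [e1]
        have h6 : E * f.eval (Z k) ∈ V A (k + 1) := (V A (k + 1)).mul_mem_left _ ih2
        refine (V A (k + 1 + 1)).add_mem (V_mul ih2 h2) ?_
        exact (V A (k + 1 + 1)).mul_mem_left _ (V_mono (by omega) (V_mul h6 h6))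
  have hst : ∀ k, Z (k + 1) - Z k ∈ V A (k + 1) := by
    intro k
    rw [hZs k, sub_sub_cancel_left]
    exact (V A (k + 1)).neg_mem ((V A (k + 1)).mul_mem_left _ (key k).2)
  obtain ⟨Y, hY⟩ := V_lim hst
  refine ⟨Y, ?_, ?_⟩
  · have h7 := hY 0
    rw [hZ0, sub_zero] at h7
    exact V_one.1 h7
  · apply V_inf
    intro N
    have h8 : f.eval Y - f.eval (Z N) ∈ V A (N + 1) := by
      obtain ⟨w, hw⟩ := Polynomial.sub_dvd_eval_sub Y (Z N) f
      rw [hw, mul_comm]
      exact (V A (N + 1)).mul_mem_left _ (hY N)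
    have h9 := (V A (N + 1)).add_mem h8 (key N).2
    rw [sub_add_cancel] at h9
    exact V_mono (by omega) h9

theorem hen_unique {A : Type} [CommRing A] [IsDomain A] (f : Polynomial (MvPowerSeries (Fin 2) A))
    {Z Z' : MvPowerSeries (Fin 2) A} (h : f.eval Z = 0) (h' : f.eval Z' = 0)
    (hc : MvPowerSeries.constantCoeff Z = MvPowerSeries.constantCoeff Z')
    (h1 : MvPowerSeries.constantCoeff ((derivative f).eval Z') ≠ 0) : Z = Z' := by
  obtain ⟨z, hz⟩ := Polynomial.binomExpansion f Z' (Z - Z')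
  rw [add_sub_cancel, h, h', zero_add] at hz
  have h2 : (Z - Z') * ((derivative f).eval Z' + z * (Z - Z')) = 0 := by
    rw [hz]
    ring
  rcases mul_eq_zero.1 h2 with h3 | h3
  · exact sub_eq_zero.1 h3
  · exfalso
    apply h1
    have h4 := congrArg MvPowerSeries.constantCoeff h3
    rw [map_add, map_mul, map_sub, hc, sub_self, mul_zero, add_zero, map_zero] at h4
    exact h4

end Pool.Agent.H97.ZE
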