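import Pool.Agent.H98.XG.Defs

/-! # [H97 ZE IRR] `F` is irreducible over `ℚ(t, x)`, of degree `n` in `y`

* Degree: `DegF.nat` gives `≤ n`; `h.lead` (`HypG.lead`, see `win_root` in `Pool/Agent/H4/SX/WDH.lean`; or `(topq n m F).natDegree = n` and
  `topq_coeff`): the coefficient of `x^0 y^n` of `F` is not zero.
* `ℤ[t][x]` is a unique factorisation domain: choose a `NormalizedGCDMonoid` structure
  (`UniqueFactorizationMonoid.toNormalizedGCDMonoid`). `F = C (content) * P`, `P = F.primPart` primitive of degree `n ≥ 1`
  (`Polynomial.eq_C_content_mul_primPart`). `P` is irreducible in `ℤ[t][x][y]`: `P = g h`; `F = (C content * g) * h`, so by `IrrT` (`c = 1`) one of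
  `C content * g`, `h` is `C (C _)`, of degree `0` in `y`; so `g` or `h` is a constant polynomial in `y` that divides the primitive polynomial `P`:
  a unit (`Polynomial.IsPrimitive` is: `C r ∣ P → IsUnit r`); and `P` is not a unit (degree `n ≥ 1`). Then
  `Polynomial.IsPrimitive.irreducible_iff_irreducible_map_fraction_map`, and `F.map = C (content) * P.map` with a non-zero constant, a unit:
  `Associated.irreducible`. -/

namespace Pool.Agent.H97.ZE

open Finset Polynomial Pool.Agent.H37.TE Pool.Agent.H98.TE Pool.Agent.H4.TP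

theorem irr_of_hyp {n m : ℕ} {F : ℤ[X][X][X]} (hn : 1 ≤ n) (h : HypG n m F) :
    F.natDegree = n ∧ Irreducible (F.map (algebraMap ℤ[X][X] (FractionRing ℤ[X][X]))) := by
  classical
  have hdeg : F.natDegree = n := by
    apply le_antisymm h.H.nat
    apply le_natDegree_of_ne_zero
    intro h0
    have h1 := topq_coeff n m F n
    rw [if_pos le_rfl] at h1
    have h2 : (topq n m F).coeff n ≠ 0 := by
      have h3 := h.tq
      have h4 : topq n m F ≠ 0 := by
        intro h5
        rw [h5, natDegree_zero] at h3
        omega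
      rw [← leadingCoeff_ne_zero, leadingCoeff, h3] at h4
      exact h4
    apply h2
    rw [h1]
    unfold cf3
    rw [h0]
    simp
  refine ⟨hdeg, ?_⟩
  let _ : NormalizedGCDMonoid ℤ[X][X] := UniqueFactorizationMonoid.toNormalizedGCDMonoid _
  have hF0 : F ≠ 0 := by
    rintro rfl
    rw [natDegree_zero] at hdeg
    omega
  have hc0 : F.content ≠ 0 := fun h0 => hF0 (content_eq_zero_iff.1 h0)
  have hFP : F = C F.content * F.primPart := F.eq_C_content_mul_primPart
  have hprim : F.primPart.IsPrimitive := isPrimitive_primPart F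
  have hPirr : Irreducible F.primPart := by
    constructor
    · intro hu
      have h1 := natDegree_eq_zero_of_isUnit hu
      rw [natDegree_primPart] at h1
      omega
    · intro g k hgk
      have h1 : C (C (1 : ℤ[X])) * F = (C F.content * g) * k := by
        rw [C_1, C_1, one_mul, mul_assoc, ← hgk]
        exact hFP
      rcases h.irr 1 _ _ one_ne_zero h1 with ⟨g0, hg0⟩ | ⟨k0, hk0⟩
      · left
        have h2 := congrArg natDegree hg0
        rw [natDegree_C_mul hc0, natDegree_C] at h2
        have h3 := eq_C_of_natDegree_eq_zero h2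
        rw [h3]
        exact (hprim _ (by rw [← h3, hgk]; exact dvd_mul_right _ _)).map C
      · right
        rw [hk0]
        exact (hprim _ (by rw [← hk0, hgk]; exact dvd_mul_left _ _)).map C
  have hPmap := (hprim.irreducible_iff_irreducible_map_fraction_map
    (K := FractionRing ℤ[X][X])).1 hPirr
  have hmap : F.map (algebraMap ℤ[X][X] (FractionRing ℤ[X][X])) =
      C (algebraMap ℤ[X][X] (FractionRing ℤ[X][X]) F.content) *
        F.primPart.map (algebraMap ℤ[X][X] (FractionRing ℤ[X][X])) := by
    conv_lhs => rw [hFP]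
    rw [Polynomial.map_mul, map_C]
  rw [hmap]
  have hu : IsUnit (C (algebraMap ℤ[X][X] (FractionRing ℤ[X][X]) F.content)) := by
    rw [isUnit_C, isUnit_iff_ne_zero]
    intro h0
    exact hc0 ((IsFractionRing.to_map_eq_zero_iff).1 h0)
  exact (irreducible_isUnit_mul hu).2 hPmap

end Pool.Agent.H97.ZE
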