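import Pool.Agent.H97.ZE.TY

/-! # [H97 ZE JA] The vectors of all derivatives span

Suppose `∑_j c_j Dn ν (ρ_j) = 0` for all `ν` and some `c_j ≠ 0`. Take integers `a, x` with `c_j(a, x) ≠ 0` (`exists_pt`), put
`u_i = c_i(a, x) ∈ ℤ`. Evaluating at `(a, x)` (`ev2_sum`, `ev2_mul`) : `∑_i u_i Dn ν (ρ_i) (a, x) = 0`, i.e. `ev2 a x (Dn ν (∑ u_i • ρ_i)) = 0`
for all `ν` (`Dn_sum_zsmul`, `ev2_zsmul`), so by `ev_Dn` (factorials are not zero) all `tc a x (∑ u_i • ρ_i) i j` are zero and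
`∑ u_i • ρ_i = 0` (`eq_zero_of_tc`); linear independence: `u = 0`, contradiction (`Fintype.linearIndependent_iff`). -/

namespace Pool.Agent.H97.ZE

open Finset Polynomial

theorem ja {l : ℕ} (ρ : Fin l → ℤ[X][X]) (h : LinearIndependent ℤ ρ) (c : Fin l → ℤ[X][X])
    (hc : ∀ ν : ℕ × ℕ, ∑ j, c j * Dn ν (ρ j) = 0) : c = 0 := by
  by_contra hne
  obtain ⟨j, hj⟩ : ∃ j, c j ≠ 0 := by
    by_contra hno
    push Not at hno
    exact hne (funext hno)
  obtain ⟨a, x, hax⟩ := exists_pt hj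
  have h1 : ∀ ν : ℕ × ℕ, ev2 a x (Dn ν (∑ i, ev2 a x (c i) • ρ i)) = 0 := by
    intro ν
    rw [Dn_sum_zsmul, ev2_sum]
    have h2 := congrArg (ev2 a x) (hc ν)
    rw [ev2_sum] at h2
    have h3 : ev2 a x 0 = 0 := by
      unfold ev2
      rw [eval_zero, eval_zero]
    rw [h3] at h2
    rw [← h2]
    refine Finset.sum_congr rfl fun i _ => ?_
    rw [ev2_zsmul, ev2_mul]
  have h2 : (∑ i, ev2 a x (c i) • ρ i) = 0 := by
    refine eq_zero_of_tc (a := a) (x := x) fun i k => ?_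
    have h3 := h1 (i, k)
    rw [ev_Dn] at h3
    rcases mul_eq_zero.1 h3 with h4 | h4
    · rcases mul_eq_zero.1 h4 with h5 | h5
      · exact absurd h5 (by exact_mod_cast i.factorial_ne_zero)
      · exact absurd h5 (by exact_mod_cast k.factorial_ne_zero)
    · exact h4
  exact hax (Fintype.linearIndependent_iff.1 h _ h2 j)

end Pool.Agent.H97.ZE
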