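import Pool.Agent.H97.ZE.TY

/-! # [H97 ZE JB] The jumps form a down-set

`lx` is the lexicographic order of `ℕ × ℕ` (well-founded: `Prod.lex`, `WellFounded` of `Prod.Lex (· < ·) (· < ·)`; trichotomous;
`lx ν' ν` implies `lx (ν' + e) (ν + e)`). `Jm ρ`: the set of the `ν` for which there is a vector `c` orthogonal to all the vectors
`(Dn ν' (ρ j))_j` with `ν' < ν` and not orthogonal to that of `ν`.
`jm_fst`: let `c` belong to `ν + e`, `e = (1, 0)`; take `c' j = dt (c j)`: by the product rule (`dt_mul`, `dt_Dn`, `dt_sum`)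
`∑ c'_j Dn ν' ρ_j = dt (∑ c_j Dn ν' ρ_j) - ∑ c_j Dn (ν' + e) ρ_j`. For `ν' < ν`: both are zero (`ν' < ν + e`, `ν' + e < ν + e`). For `ν' = ν`:
the first is zero (`ν < ν + e`), the second is not. `jm_snd`: the same with `derivative` and `e = (0, 1)` (`derivative_Dn`,
`Polynomial.derivative_mul`, `derivative_sum`). `jm_down`: iterate. -/

namespace Pool.Agent.H97.ZE

open Finset Polynomial

/-- lexicographic order -/
def lx (ν' ν : ℕ × ℕ) : Prop := ν'.1 < ν.1 ∨ (ν'.1 = ν.1 ∧ ν'.2 < ν.2)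

/-- the jumps -/
def Jm {l : ℕ} (ρ : Fin l → ℤ[X][X]) : Set (ℕ × ℕ) :=
  {ν | ∃ c : Fin l → ℤ[X][X], (∀ ν', lx ν' ν → ∑ j, c j * Dn ν' (ρ j) = 0) ∧ ∑ j, c j * Dn ν (ρ j) ≠ 0}

theorem lx_wf : WellFounded lx := by
  have h : lx = Prod.Lex (· < ·) (· < ·) := by
    funext a b
    apply propext
    rw [Prod.lex_def]
    exact Iff.rfl
  rw [h]
  exact WellFounded.prod_lex wellFounded_lt wellFounded_lt

theorem lx_total (ν' ν : ℕ × ℕ) : lx ν' ν ∨ ν' = ν ∨ lx ν ν' := by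
  obtain ⟨a, b⟩ := ν'
  obtain ⟨c, d⟩ := ν
  unfold lx
  simp only [Prod.mk.injEq]
  omega

private theorem lxF {ν' ν : ℕ × ℕ} (h : lx ν' ν) : lx ν' (ν.1 + 1, ν.2) := by
  obtain ⟨a, b⟩ := ν'
  obtain ⟨c, d⟩ := ν
  unfold lx at *
  dsimp only at *
  omega

private theorem lxFF {ν' ν : ℕ × ℕ} (h : lx ν' ν) : lx (ν'.1 + 1, ν'.2) (ν.1 + 1, ν.2) := by
  obtain ⟨a, b⟩ := ν'
  obtain ⟨c, d⟩ := ν
  unfold lx at *
  dsimp only at *
  omega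

private theorem lxS {ν' ν : ℕ × ℕ} (h : lx ν' ν) : lx ν' (ν.1, ν.2 + 1) := by
  obtain ⟨a, b⟩ := ν'
  obtain ⟨c, d⟩ := ν
  unfold lx at *
  dsimp only at *
  omega

private theorem lxSS {ν' ν : ℕ × ℕ} (h : lx ν' ν) : lx (ν'.1, ν'.2 + 1) (ν.1, ν.2 + 1) := by
  obtain ⟨a, b⟩ := ν'
  obtain ⟨c, d⟩ := ν
  unfold lx at *
  dsimp only at *
  omega

theorem jm_fst {l : ℕ} (ρ : Fin l → ℤ[X][X]) {ν : ℕ × ℕ} (h : (ν.1 + 1, ν.2) ∈ Jm ρ) : ν ∈ Jm ρ := by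
  obtain ⟨c, hc1, hc2⟩ := h
  have key : ∀ ν' : ℕ × ℕ, ∑ j, dt (c j) * Dn ν' (ρ j) =
      dt (∑ j, c j * Dn ν' (ρ j)) - ∑ j, c j * Dn (ν'.1 + 1, ν'.2) (ρ j) := by
    intro ν'
    rw [dt_sum, ← Finset.sum_sub_distrib]
    refine Finset.sum_congr rfl fun j _ => ?_
    rw [dt_mul, dt_Dn]
    ring
  refine ⟨fun j => dt (c j), ?_, ?_⟩
  · intro ν' hν'
    rw [key, hc1 ν' (lxF hν'), hc1 _ (lxFF hν'), dt_zero, sub_zero]
  · rw [key, hc1 ν (Or.inl (Nat.lt_succ_self _)), dt_zero, zero_sub]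
    exact neg_ne_zero.2 hc2

theorem jm_snd {l : ℕ} (ρ : Fin l → ℤ[X][X]) {ν : ℕ × ℕ} (h : (ν.1, ν.2 + 1) ∈ Jm ρ) : ν ∈ Jm ρ := by
  obtain ⟨c, hc1, hc2⟩ := h
  have key : ∀ ν' : ℕ × ℕ, ∑ j, derivative (c j) * Dn ν' (ρ j) =
      derivative (∑ j, c j * Dn ν' (ρ j)) - ∑ j, c j * Dn (ν'.1, ν'.2 + 1) (ρ j) := by
    intro ν'
    rw [derivative_sum, ← Finset.sum_sub_distrib]
    refine Finset.sum_congr rfl fun j _ => ?_
    rw [derivative_mul, derivative_Dn]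
    ring
  refine ⟨fun j => derivative (c j), ?_, ?_⟩
  · intro ν' hν'
    rw [key, hc1 ν' (lxS hν'), hc1 _ (lxSS hν'), derivative_zero, sub_zero]
  · rw [key, hc1 ν (Or.inr ⟨rfl, Nat.lt_succ_self _⟩), derivative_zero, zero_sub]
    exact neg_ne_zero.2 hc2

theorem jm_down {l : ℕ} (ρ : Fin l → ℤ[X][X]) {ν ν' : ℕ × ℕ} (h : ν ∈ Jm ρ) (h1 : ν'.1 ≤ ν.1)
    (h2 : ν'.2 ≤ ν.2) : ν' ∈ Jm ρ := by
  have hF : ∀ (k : ℕ) (a b : ℕ), (a + k, b) ∈ Jm ρ → (a, b) ∈ Jm ρ := by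
    intro k
    induction k with
    | zero => intro a b h; exact h
    | succ k ih =>
      intro a b h
      exact ih a b (jm_fst ρ (ν := (a + k, b)) h)
  have hS : ∀ (k : ℕ) (a b : ℕ), (a, b + k) ∈ Jm ρ → (a, b) ∈ Jm ρ := by
    intro k
    induction k with
    | zero => intro a b h; exact h
    | succ k ih =>
      intro a b h
      exact ih a b (jm_snd ρ (ν := (a, b + k)) h)
  obtain ⟨a, b⟩ := ν
  obtain ⟨a', b'⟩ := ν'
  dsimp only at h1 h2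
  obtain ⟨k, rfl⟩ := Nat.exists_eq_add_of_le h1
  obtain ⟨m, rfl⟩ := Nat.exists_eq_add_of_le h2
  exact hS m _ _ (hF k _ _ h)

end Pool.Agent.H97.ZE
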