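import Pool.Agent.H97.ZE.JA
import Pool.Agent.H97.ZE.JB

/-! # [H97 ZE JC] The generalised Wronskian

Put `v ν = (Dn ν (ρ j))_j ∈ R^l`, `R = ℤ[t][x]` a domain.
* `jm_indep`: for a finite set `S` of jumps the vectors `v ν`, `ν ∈ S`, are linearly independent over `R`: let `∑_(ν ∈ S) r_ν v ν = 0`,
  not all `r_ν = 0`, let `ν₀` be the greatest `ν ∈ S` with `r_ν ≠ 0` (`lx` is a total order: `lx_total`; finite set). The vector `c` of the
  jump `ν₀` is orthogonal to `v ν` for `ν < ν₀`, so `0 = ∑_ν r_ν ⟨c, v ν⟩ = r_ν₀ ⟨c, v ν₀⟩ ≠ 0`. (Matrix: `c ↦ ∑_j c j * v ν j`.)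
* So every finite set of jumps has at most `l` elements (`LinearIndependent.fintype_card_le_finrank`, `Module.finrank_fin_fun`), `Jm ρ` is finite
  (`Set.Infinite.exists_subset_card_eq`).
* There are exactly `l`: if the set `S` of all jumps had `k < l` elements there is `c ≠ 0` in `R^l` with `⟨c, v ν⟩ = 0` for all `ν ∈ S`
  (`Matrix.exists_mulVec_eq_zero_iff` for the `l × l` matrix with the rows `v ν`, `ν ∈ S`, and zero rows:
  `Matrix.det_eq_zero_of_row_eq_zero`). By `ja` there is `ν` with `⟨c, v ν⟩ ≠ 0`; the smallest one (`lx_wf.min`) is a jump (with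
  this `c`): contradiction.
* `det ≠ 0` for the `l` jumps: otherwise `Matrix.exists_vecMul_eq_zero_iff` gives a relation between the rows, against `jm_indep`.
* `(J k).1 + (J k).2 < l`: `jm_down`: all `(i, j)` with `i ≤ ν.1`, `j ≤ ν.2` are jumps: `(ν.1 + 1) (ν.2 + 1) ≤ l`
  (`Finset.card_product`). -/

namespace Pool.Agent.H97.ZE

open Finset Polynomial

theorem jm_indep {l : ℕ} (ρ : Fin l → ℤ[X][X]) (S : Finset (ℕ × ℕ)) (hS : ∀ ν ∈ S, ν ∈ Jm ρ) :
    LinearIndependent ℤ[X][X] (fun ν : S => fun j : Fin l => Dn (ν : ℕ × ℕ) (ρ j)) := by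
  classical
  rw [Fintype.linearIndependent_iff]
  intro g hg
  by_contra hcon
  push Not at hcon
  obtain ⟨ν₁, hν₁⟩ := hcon
  obtain ⟨ν₀, hν₀, hmax⟩ := Finset.exists_max_image (Finset.univ.filter fun ν : S => g ν ≠ 0)
    (fun ν : S => toLex (ν : ℕ × ℕ)) ⟨ν₁, Finset.mem_filter.2 ⟨Finset.mem_univ _, hν₁⟩⟩
  rw [Finset.mem_filter] at hν₀
  obtain ⟨c, hc1, hc2⟩ := hS ν₀ ν₀.2
  have h1 : ∑ ν : S, g ν * ∑ j, c j * Dn (ν : ℕ × ℕ) (ρ j) = 0 := by
    have h2 : ∀ j, ∑ ν : S, g ν * Dn (ν : ℕ × ℕ) (ρ j) = 0 := by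
      intro j
      have h3 := congrFun hg j
      rw [Finset.sum_apply] at h3
      exact h3
    have h4 : ∑ ν : S, g ν * ∑ j, c j * Dn (ν : ℕ × ℕ) (ρ j) =
        ∑ j, c j * ∑ ν : S, g ν * Dn (ν : ℕ × ℕ) (ρ j) := by
      simp only [Finset.mul_sum]
      rw [Finset.sum_comm]
      refine Finset.sum_congr rfl fun j _ => Finset.sum_congr rfl fun ν _ => ?_
      ring
    rw [h4]
    refine Finset.sum_eq_zero fun j _ => ?_
    rw [h2, mul_zero]
  rw [Finset.sum_eq_single ν₀] at h1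
  · rcases mul_eq_zero.1 h1 with h2 | h2
    · exact hν₀.2 h2
    · exact hc2 h2
  · intro ν _ hne
    by_cases hg0 : g ν = 0
    · rw [hg0, zero_mul]
    · have h2 := hmax ν (Finset.mem_filter.2 ⟨Finset.mem_univ _, hg0⟩)
      have h3 : toLex (ν : ℕ × ℕ) < toLex (ν₀ : ℕ × ℕ) := by
        refine lt_of_le_of_ne h2 fun h => hne ?_
        exact Subtype.ext (toLex.injective h)
      have h4 : lx (ν : ℕ × ℕ) (ν₀ : ℕ × ℕ) := by
        rw [Prod.Lex.toLex_lt_toLex] at h3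
        exact h3
      rw [hc1 _ h4, mul_zero]
  · intro h
    exact absurd (Finset.mem_univ _) h

private theorem jm_card {l : ℕ} (ρ : Fin l → ℤ[X][X]) (S : Finset (ℕ × ℕ))
    (hS : ∀ ν ∈ S, ν ∈ Jm ρ) : S.card ≤ l := by
  have h := (jm_indep ρ S hS).fintype_card_le_finrank
  rwa [Fintype.card_coe, Module.finrank_fin_fun] at h

private theorem jm_fin {l : ℕ} (ρ : Fin l → ℤ[X][X]) : (Jm ρ).Finite := by
  by_contra hinf
  obtain ⟨S, hS, hc⟩ := Set.Infinite.exists_subset_card_eq hinf (l + 1)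
  have h := jm_card ρ S fun ν hν => hS hν
  omega

/-- the generalised Wronskian of linearly independent polynomials -/
theorem jet {l : ℕ} (ρ : Fin l → ℤ[X][X]) (h : LinearIndependent ℤ ρ) :
    ∃ J : Fin l → ℕ × ℕ, (∀ k, (J k).1 + (J k).2 < l) ∧
      (Matrix.of fun k j => Dn (J k) (ρ j)).det ≠ 0 := by
  classical
  obtain ⟨S, hS⟩ : ∃ S : Finset (ℕ × ℕ), ∀ ν, ν ∈ S ↔ ν ∈ Jm ρ :=
    ⟨(jm_fin ρ).toFinset, fun ν => Set.Finite.mem_toFinset _⟩
  have hle := jm_card ρ S fun ν hν => (hS ν).1 hν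
  have hge : l ≤ S.card := by
    by_contra hlt
    push Not at hlt
    let f : (Fin l → ℤ[X][X]) →ₗ[ℤ[X][X]] (S → ℤ[X][X]) :=
      { toFun := fun c ν => ∑ j, c j * Dn (ν : ℕ × ℕ) (ρ j)
        map_add' := fun c c' => by
          funext ν
          show ∑ j, (c j + c' j) * Dn (ν : ℕ × ℕ) (ρ j) = _
          simp only [add_mul, Finset.sum_add_distrib]
          rfl
        map_smul' := fun a c => by
          funext ν
          show ∑ j, (a * c j) * Dn (ν : ℕ × ℕ) (ρ j) = a * ∑ j, c j * Dn (ν : ℕ × ℕ) (ρ j)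
          rw [Finset.mul_sum]
          exact Finset.sum_congr rfl fun j _ => mul_assoc _ _ _ }
    have hni : ¬ Function.Injective f := by
      intro hinj
      have h1 := LinearMap.finrank_le_finrank_of_injective hinj
      rw [Module.finrank_fin_fun, Module.finrank_fintype_fun_eq_card, Fintype.card_coe] at h1
      omega
    rw [injective_iff_map_eq_zero] at hni
    push Not at hni
    obtain ⟨c, hc, hc0⟩ := hni
    have hex : ∃ ν : ℕ × ℕ, ∑ j, c j * Dn ν (ρ j) ≠ 0 := by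
      by_contra hcon
      push Not at hcon
      exact hc0 (ja ρ h c hcon)
    have hne : {ν : ℕ × ℕ | ∑ j, c j * Dn ν (ρ j) ≠ 0}.Nonempty := hex
    have hmem := lx_wf.min_mem _ hne
    have hj : lx_wf.min _ hne ∈ Jm ρ := by
      refine ⟨c, fun ν' hν' => ?_, hmem⟩
      by_contra hcon
      exact lx_wf.not_lt_min _ hcon hν'
    have h2 := congrFun hc ⟨_, (hS _).2 hj⟩
    exact hmem h2
  have hcard : S.card = l := le_antisymm hle hge
  let e : Fin l ≃ S := (finCongr hcard.symm).trans S.equivFin.symm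
  refine ⟨fun k => (e k : ℕ × ℕ), fun k => ?_, ?_⟩
  · obtain ⟨ν, hν⟩ : ∃ ν : ℕ × ℕ, ν = e k := ⟨_, rfl⟩
    show (e k : ℕ × ℕ).1 + (e k : ℕ × ℕ).2 < l
    rw [← hν]
    have hνJ : ν ∈ Jm ρ := by
      rw [hν]
      exact (hS _).1 (e k).2
    have h1 := jm_card ρ (Finset.range (ν.1 + 1) ×ˢ Finset.range (ν.2 + 1)) (by
      intro μ hμ
      rw [Finset.mem_product, Finset.mem_range, Finset.mem_range] at hμ
      exact jm_down ρ hνJ (Nat.lt_succ_iff.1 hμ.1) (Nat.lt_succ_iff.1 hμ.2))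
    rw [Finset.card_product, Finset.card_range, Finset.card_range] at h1
    nlinarith
  · intro hdet
    obtain ⟨v, hv0, hv⟩ := Matrix.exists_vecMul_eq_zero_iff.2 hdet
    have hli := (jm_indep ρ S fun ν hν => (hS ν).1 hν).comp e e.injective
    rw [Fintype.linearIndependent_iff] at hli
    apply hv0
    funext k
    refine hli v ?_ k
    funext j
    rw [Finset.sum_apply]
    exact congrFun hv j

end Pool.Agent.H97.ZE
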