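import Pool.Agent.H97.ZE.SZ

/-! # [H97 ZE LAG] A specialisation `x = c` that keeps the size

For `q = ∑_(j ≤ b) q_j(t) x^j` and `c = 0, …, b`: `q(t, c) = ∑_j c^j q_j(t)`. The Vandermonde matrix `V = (c^j)` is invertible over `ℚ`
(`Matrix.det_vandermonde_ne_zero_iff`), so there is an integer matrix `L` (the adjugate) and `w = det V ≠ 0` in `ℤ` with
`w q_j = ∑_c L j c * q(t, c)` in `ℤ[t]`. So `n1 (q_j) ≤ n1 (w q_j) ≤ ∑_c |L j c| n1 (q(t, c))` (`n1 (C w * p) = |w| n1 p ≥ n1 p`),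
`n2 q = ∑_j n1 (q_j) ≤ ∑_(j, c) |L j c| n1 (q(t, c)) ≤ K max_c n1 (q(t, c))`, `K = 1 + ∑ |L j c|`. Take the `c` with the
greatest `n1 (q(t, c))` (`Finset.exists_max_image`). -/

namespace Pool.Agent.H97.ZE

open Finset Polynomial

private theorem n1Cmul {w : ℤ} (hw : w ≠ 0) (p : ℤ[X]) : n1 p ≤ n1 (C w * p) := by
  have hsub : (C w * p).support ⊆ p.support := by
    intro i hi
    rw [mem_support_iff, coeff_C_mul] at hi
    rw [mem_support_iff]
    intro h0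
    rw [h0, mul_zero] at hi
    exact hi rfl
  rw [n1_eq (C w * p) hsub]
  unfold n1
  refine Finset.sum_le_sum fun i _ => ?_
  rw [coeff_C_mul, Int.natAbs_mul]
  have h1 : 1 ≤ w.natAbs := Int.natAbs_pos.2 hw
  calc (p.coeff i).natAbs = 1 * (p.coeff i).natAbs := (one_mul _).symm
    _ ≤ w.natAbs * (p.coeff i).natAbs := Nat.mul_le_mul_right _ h1

theorem lag (b : ℕ) : ∃ K : ℕ, 1 ≤ K ∧ ∀ q : ℤ[X][X], q.natDegree ≤ b →
    ∃ c : ℕ, c ≤ b ∧ n2 q ≤ K * n1 (q.eval (C (c : ℤ))) := by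
  classical
  let V : Matrix (Fin (b + 1)) (Fin (b + 1)) ℤ :=
    Matrix.vandermonde (fun c : Fin (b + 1) => ((c : ℕ) : ℤ))
  have hdet : V.det ≠ 0 := by
    refine Matrix.det_vandermonde_ne_zero_iff.2 ?_
    intro c d hcd
    have h1 : ((c : ℕ) : ℤ) = ((d : ℕ) : ℤ) := hcd
    exact Fin.ext (by exact_mod_cast h1)
  let L := V.adjugate
  have hLV : ∀ j k, ∑ c, L j c * V c k = V.det * (if j = k then 1 else 0) := by
    intro j k
    have h1 := congrFun (congrFun (Matrix.adjugate_mul V) j) k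
    rw [Matrix.mul_apply, Matrix.smul_apply, Matrix.one_apply, smul_eq_mul] at h1
    exact h1
  refine ⟨1 + ∑ j, ∑ c, (L j c).natAbs, Nat.le_add_right _ _, fun q hq => ?_⟩
  have hev : ∀ c : Fin (b + 1), q.eval (C ((c : ℕ) : ℤ)) = ∑ k : Fin (b + 1), C (V c k) * q.coeff k := by
    intro c
    rw [eval_eq_sum_range' (Nat.lt_succ_of_le hq), Finset.sum_range]
    refine Finset.sum_congr rfl fun k _ => ?_
    have : V c k = ((c : ℕ) : ℤ) ^ (k : ℕ) := rfl
    rw [this, C_pow, mul_comm]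
  have hq1 : ∀ j : Fin (b + 1), C V.det * q.coeff j = ∑ c, C (L j c) * q.eval (C ((c : ℕ) : ℤ)) := by
    intro j
    have h1 : ∀ c, C (L j c) * q.eval (C ((c : ℕ) : ℤ)) =
        ∑ k : Fin (b + 1), C (L j c * V c k) * q.coeff k := by
      intro c
      rw [hev c, Finset.mul_sum]
      refine Finset.sum_congr rfl fun k _ => ?_
      rw [C_mul, mul_assoc]
    rw [Finset.sum_congr rfl fun c _ => h1 c, Finset.sum_comm]
    have h2 : ∀ k : Fin (b + 1), ∑ c, C (L j c * V c k) * q.coeff k =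
        if j = k then C V.det * q.coeff k else 0 := by
      intro k
      rw [← Finset.sum_mul, ← map_sum, hLV j k]
      split_ifs
      · rw [mul_one]
      · rw [mul_zero, C_0, zero_mul]
    rw [Finset.sum_congr rfl fun k _ => h2 k, Finset.sum_ite_eq Finset.univ j,
      if_pos (Finset.mem_univ j)]
  obtain ⟨c0, hc0⟩ := Finite.exists_max (fun c : Fin (b + 1) => n1 (q.eval (C ((c : ℕ) : ℤ))))
  refine ⟨c0, Nat.lt_succ_iff.1 c0.2, ?_⟩
  have hcoef : ∀ j : Fin (b + 1), n1 (q.coeff j) ≤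
      (∑ c, (L j c).natAbs) * n1 (q.eval (C ((c0 : ℕ) : ℤ))) := by
    intro j
    calc n1 (q.coeff j) ≤ n1 (C V.det * q.coeff j) := n1Cmul hdet _
      _ = n1 (∑ c, C (L j c) * q.eval (C ((c : ℕ) : ℤ))) := by rw [hq1 j]
      _ ≤ ∑ c, n1 (C (L j c) * q.eval (C ((c : ℕ) : ℤ))) := n1_sum _ _
      _ ≤ ∑ c, (L j c).natAbs * n1 (q.eval (C ((c0 : ℕ) : ℤ))) := by
          refine Finset.sum_le_sum fun c _ => (n1_mul _ _).trans ?_
          rw [n1_C]
          exact Nat.mul_le_mul_left _ (hc0 c)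
      _ = (∑ c, (L j c).natAbs) * n1 (q.eval (C ((c0 : ℕ) : ℤ))) := by rw [Finset.sum_mul]
  have hsupp : q.support ⊆ range (b + 1) := by
    intro i hi
    rw [Finset.mem_range]
    have := le_natDegree_of_mem_supp i hi
    omega
  rw [n2_eq q hsupp, Finset.sum_range]
  calc ∑ j : Fin (b + 1), n1 (q.coeff j) ≤
        ∑ j : Fin (b + 1), (∑ c, (L j c).natAbs) * n1 (q.eval (C ((c0 : ℕ) : ℤ))) :=
        Finset.sum_le_sum fun j _ => hcoef j
    _ = (∑ j, ∑ c, (L j c).natAbs) * n1 (q.eval (C ((c0 : ℕ) : ℤ))) := by rw [Finset.sum_mul]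
    _ ≤ (1 + ∑ j, ∑ c, (L j c).natAbs) * n1 (q.eval (C ((c0 : ℕ) : ℤ))) :=
        Nat.mul_le_mul_right _ (Nat.le_add_left _ _)

end Pool.Agent.H97.ZE
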