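import Pool.Agent.H97.ZE.HEN
import Pool.Agent.H97.ZE.DCP

/-! # [H97 ZE LOD] The expansion of `y` at a simple point: existence, uniqueness, denominators

`D = fy F a x y ≠ 0`. `α, β, γ` of `dcp`. For `A = ℤ` or `ℚ`, `Ω = MvPowerSeries (Fin 2) A`, let
`g = Z + S α(D² S, D² T, D Z) + T β(D² S, D² T, D Z) + Z² γ(D² S, D² T, D Z) ∈ Ω[Z]` (`ev3` in the ring `Ω[Z]`), so that in `Ω` for every `Z`:
`F(a + D² S, x + D² T, y + D Z) = F(a, x, y) + D² g(Z)`.
* `g.coeff 0` has constant coefficient `0`, `g.coeff 1` has constant coefficient `1` (apply the ring homomorphism `constantCoeff` to the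
  coefficients: `S, T ↦ 0`, `g ↦ Z + Z² (..)`).
* `loc'` and `den` : by `hen_exists` over `ℤ` there is `W ∈ ℤ[[S, T]]` with `W(0,0) = 0`, `g(W) = 0`; `W'` its image in `ℚ[[S, T]]`
  (`MvPowerSeries.map`), `Y = y + D W'(S / D², T / D²)` (`MvPowerSeries.rescale`, a ring homomorphism with `S ↦ S / D²`, `T ↦ T / D²`; apply it to the identity
  above) satisfies `F(a + S, x + T, Y) = 0`, `Y(0,0) = y`: `loc`. By uniqueness (`uniq`) every `IsLoc` series is this one:
  `D^(2 |ν|) coeff ν Y ∈ ℤ`. The set `{φ ∈ ℚ[[S, T]] : D^(2 (ν 0 + ν 1)) coeff ν φ ∈ ℤ for all ν}` is a subring (it is the preimage of `ℤ[[S, T]]` under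
  `rescale (D², D²)`) that contains `a + S`, `x + T`, `Y`, hence `t^i x^k y^b`: `den`.
* `uniq`: `hen_unique` for `f(Z) = F(a + S, x + T, Z)` (the image of `F` in `Ω[Z]`: `ev3` of the constants and `X`); the constant coefficient of
  `f'(Y')` is `F_y(a, x, y) ≠ 0` in `R` (characteristic zero). -/

namespace Pool.Agent.H97.ZE

open Finset Polynomial Pool.Agent.H37.TE Pool.Agent.H98.TE Pool.Agent.H98.XG

private theorem ehom {S T : Type*} [CommRing S] [CommRing T] (φ : S →+* T) (t x y : S)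
    (F : ℤ[X][X][X]) : φ (ev3 t x y F) = ev3 (φ t) (φ x) (φ y) F := by
  unfold ev3
  rw [hom_eval₂]
  congr 1
  ext p
  · simp
  · simp
  · simp

/-- uniqueness of the expansion, over any domain of characteristic zero -/
theorem uniq {R : Type} [CommRing R] [IsDomain R] [CharZero R] (F : ℤ[X][X][X]) (a : ℕ) (x y : ℤ)
    (h : fy F a x y ≠ 0) (Y Y' : MvPowerSeries (Fin 2) R) (h1 : MvPowerSeries.constantCoeff Y = (y : R))
    (h1' : MvPowerSeries.constantCoeff Y' = (y : R))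
    (h2 : ev3 (MvPowerSeries.C (a : R) + MvPowerSeries.X 0) (MvPowerSeries.C (x : R) + MvPowerSeries.X 1) Y F = 0)
    (h2' : ev3 (MvPowerSeries.C (a : R) + MvPowerSeries.X 0) (MvPowerSeries.C (x : R) + MvPowerSeries.X 1) Y' F = 0) :
    Y = Y' := by
  set φ : ℤ[X][X] →+* MvPowerSeries (Fin 2) R :=
    eval₂RingHom (eval₂RingHom (Int.castRingHom (MvPowerSeries (Fin 2) R))
      (MvPowerSeries.C (a : R) + MvPowerSeries.X 0)) (MvPowerSeries.C (x : R) + MvPowerSeries.X 1) with hφ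
  refine hen_unique (F.map φ) ?_ ?_ (by rw [h1, h1']) ?_
  · rw [eval_map]
    exact h2
  · rw [eval_map]
    exact h2'
  · rw [derivative_map, eval_map]
    have e : eval₂ φ Y' (derivative F) = ev3 (MvPowerSeries.C (a : R) + MvPowerSeries.X 0)
      (MvPowerSeries.C (x : R) + MvPowerSeries.X 1) Y' (derivative F) := rfl
    rw [e, ehom, map_add, map_add, MvPowerSeries.constantCoeff_C, MvPowerSeries.constantCoeff_C,
      MvPowerSeries.constantCoeff_X, MvPowerSeries.constantCoeff_X, add_zero, add_zero, h1']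
    have e2 : ev3 (a : R) (x : R) (y : R) (derivative F) = ((fy F a x y : ℤ) : R) := by
      have := ehom (Int.castRingHom R) (a : ℤ) x y (derivative F)
      simp only [eq_intCast, Int.cast_natCast] at this
      exact this.symm
    rw [e2]
    exact_mod_cast h

private theorem core (F : ℤ[X][X][X]) (a : ℕ) (x y : ℤ) (h0 : ev3 (a : ℤ) x y F = 0) :
    ∃ W : MvPowerSeries (Fin 2) ℤ, MvPowerSeries.constantCoeff W = 0 ∧
      ev3 (MvPowerSeries.C (a : ℤ) + MvPowerSeries.C (fy F a x y ^ 2) * MvPowerSeries.X 0)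
        (MvPowerSeries.C x + MvPowerSeries.C (fy F a x y ^ 2) * MvPowerSeries.X 1)
        (MvPowerSeries.C y + MvPowerSeries.C (fy F a x y) * W) F = 0 := by
  obtain ⟨α, β, γ, hd⟩ := dcp F a x y
  set D := fy F a x y with hD
  set S : MvPowerSeries (Fin 2) ℤ := MvPowerSeries.X 0 with hS
  set T : MvPowerSeries (Fin 2) ℤ := MvPowerSeries.X 1 with hT
  set d : MvPowerSeries (Fin 2) ℤ := MvPowerSeries.C D with hdd
  have cS : MvPowerSeries.constantCoeff S = 0 := MvPowerSeries.constantCoeff_X 0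
  have cT : MvPowerSeries.constantCoeff T = 0 := MvPowerSeries.constantCoeff_X 1
  set E : ℤ[X][X][X] → (MvPowerSeries (Fin 2) ℤ)[X] := fun G =>
    ev3 (C (d ^ 2 * S)) (C (d ^ 2 * T)) (C d * X) G with hE
  set g : (MvPowerSeries (Fin 2) ℤ)[X] := X + C S * E α + C T * E β + X ^ 2 * E γ with hg
  have hEe : ∀ (G : ℤ[X][X][X]) (Z : MvPowerSeries (Fin 2) ℤ),
      (E G).eval Z = ev3 (d ^ 2 * S) (d ^ 2 * T) (d * Z) G := by
    intro G Z
    have := ehom (evalRingHom Z) (C (d ^ 2 * S)) (C (d ^ 2 * T)) (C d * X) G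
    simp only [coe_evalRingHom, eval_C, eval_mul, eval_X] at this
    exact this
  have hge : ∀ Z : MvPowerSeries (Fin 2) ℤ, g.eval Z = Z + S * ev3 (d ^ 2 * S) (d ^ 2 * T) (d * Z) α +
      T * ev3 (d ^ 2 * S) (d ^ 2 * T) (d * Z) β + Z ^ 2 * ev3 (d ^ 2 * S) (d ^ 2 * T) (d * Z) γ := by
    intro Z
    rw [hg]
    simp only [eval_add, eval_mul, eval_X, eval_C, eval_pow, hEe]
  have c0 : MvPowerSeries.constantCoeff (g.coeff 0) = 0 := by
    rw [coeff_zero_eq_eval_zero, hge]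
    simp only [map_add, map_mul, map_zero, cS, cT, map_pow]
    ring
  have c1 : MvPowerSeries.constantCoeff (g.coeff 1) = 1 := by
    have e : MvPowerSeries.constantCoeff (g.coeff 1) =
        (g.map (MvPowerSeries.constantCoeff (σ := Fin 2) (R := ℤ))).coeff 1 := (coeff_map _ _).symm
    rw [e, hg]
    simp only [Polynomial.map_add, Polynomial.map_mul, Polynomial.map_X, Polynomial.map_C, cS, cT, C_0,
      zero_mul, add_zero, Polynomial.map_pow, coeff_add, coeff_X_one]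
    rw [coeff_X_pow_mul']
    simp
  obtain ⟨W, hW0, hW⟩ := hen_exists g c0 (by rw [c1]; exact isUnit_one)
  refine ⟨W, hW0, ?_⟩
  have h := hd (MvPowerSeries (Fin 2) ℤ) (d ^ 2 * S) (d ^ 2 * T) (d * W)
  rw [h0] at h
  rw [hge] at hW
  have ca : MvPowerSeries.C (a : ℤ) = (a : MvPowerSeries (Fin 2) ℤ) := by simp
  have cx : MvPowerSeries.C x = (x : MvPowerSeries (Fin 2) ℤ) := by simp
  have cy : MvPowerSeries.C y = (y : MvPowerSeries (Fin 2) ℤ) := by simp
  have cd : ((D : ℤ) : MvPowerSeries (Fin 2) ℤ) = d := by rw [hdd]; simp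
  have cd2 : MvPowerSeries.C (D ^ 2) = d ^ 2 := by rw [hdd, map_pow]
  rw [ca, cx, cy, cd2, h, cd]
  linear_combination (exp := 1) (d ^ 2) * hW

private theorem rsc (r : ℚ) (φ : MvPowerSeries (Fin 2) ℚ) (ν : Fin 2 →₀ ℕ) :
    MvPowerSeries.coeff ν (MvPowerSeries.rescale (fun _ => r) φ) =
      r ^ (ν 0 + ν 1) * MvPowerSeries.coeff ν φ := by
  rw [MvPowerSeries.coeff_rescale, Finsupp.prod_fintype _ _ (fun _ => pow_zero _), Fin.prod_univ_two,
    pow_add]

private theorem rscX (r : ℚ) (i : Fin 2) : MvPowerSeries.rescale (fun _ => r) (MvPowerSeries.X i) =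
    MvPowerSeries.C r * MvPowerSeries.X i := by
  ext ν
  rw [rsc, MvPowerSeries.coeff_C_mul, MvPowerSeries.coeff_X]
  split_ifs with h
  · rw [h]
    fin_cases i <;> simp
  · rw [mul_zero, mul_zero]

private theorem rscC (r c : ℚ) : MvPowerSeries.rescale (fun _ => r)
    (MvPowerSeries.C (σ := Fin 2) c) = MvPowerSeries.C c := by
  ext ν
  rw [rsc, MvPowerSeries.coeff_C]
  split_ifs with h
  · rw [h]
    simp
  · rw [mul_zero]

/-- the two facts together -/
private theorem main (F : ℤ[X][X][X]) (a : ℕ) (x y : ℤ) (h0 : ev3 (a : ℤ) x y F = 0)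
    (h1 : fy F a x y ≠ 0) : ∃ (W : MvPowerSeries (Fin 2) ℤ) (Y : MvPowerSeries (Fin 2) ℚ),
      IsLoc F a x y Y ∧ MvPowerSeries.rescale (fun _ => (fy F a x y : ℚ) ^ 2) Y =
        MvPowerSeries.map (Int.castRingHom ℚ) (MvPowerSeries.C y + MvPowerSeries.C (fy F a x y) * W) := by
  obtain ⟨W, hW0, hW⟩ := core F a x y h0
  set D := fy F a x y with hD
  have hDq : (D : ℚ) ≠ 0 := by exact_mod_cast h1
  set W' : MvPowerSeries (Fin 2) ℚ := MvPowerSeries.map (Int.castRingHom ℚ) W with hW'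
  set r : ℚ := ((D : ℚ) ^ 2)⁻¹ with hr
  have hrD : r * (D : ℚ) ^ 2 = 1 := inv_mul_cancel₀ (pow_ne_zero 2 hDq)
  have hrr : ∀ φ : MvPowerSeries (Fin 2) ℚ, MvPowerSeries.rescale (fun _ => (D : ℚ) ^ 2)
      (MvPowerSeries.rescale (fun _ => r) φ) = φ := by
    intro φ
    ext ν
    rw [rsc, rsc, ← mul_assoc, ← mul_pow, mul_comm ((D : ℚ) ^ 2) r, hrD, one_pow, one_mul]
  refine ⟨W, MvPowerSeries.C (y : ℚ) + MvPowerSeries.C (D : ℚ) *
    MvPowerSeries.rescale (fun _ => r) W', ⟨?_, ?_⟩, ?_⟩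
  · have e1 : MvPowerSeries.constantCoeff (MvPowerSeries.rescale (fun _ => r) W') = 0 := by
      rw [← MvPowerSeries.coeff_zero_eq_constantCoeff_apply, rsc,
        MvPowerSeries.coeff_zero_eq_constantCoeff_apply, hW', MvPowerSeries.constantCoeff_map, hW0]
      simp
    rw [map_add, map_mul, e1, MvPowerSeries.constantCoeff_C, mul_zero, add_zero]
  · have h2 := congrArg (fun φ => MvPowerSeries.rescale (fun _ => r)
      (MvPowerSeries.map (Int.castRingHom ℚ) φ)) hW
    simp only [ehom, map_add, map_mul, MvPowerSeries.map_C, MvPowerSeries.map_X, rscC, rscX,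
      map_zero] at h2
    simp only [eq_intCast (Int.castRingHom ℚ), Int.cast_natCast] at h2
    have e2 : ∀ i : Fin 2, MvPowerSeries.C (((D ^ 2 : ℤ)) : ℚ) * (MvPowerSeries.C r *
        MvPowerSeries.X (R := ℚ) i) = MvPowerSeries.X i := by
      intro i
      rw [← mul_assoc, ← map_mul]
      push_cast
      rw [mul_comm, mul_comm ((D : ℚ) ^ 2) r, hrD, map_one, mul_one]
    rw [e2 0, e2 1] at h2
    exact h2
  · rw [map_add, map_mul, rscC, rscC, hrr, map_add, map_mul, MvPowerSeries.map_C, MvPowerSeries.map_C]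
    rfl

theorem loc (F : ℤ[X][X][X]) : LOC F := by
  intro a x y h0 h1
  obtain ⟨-, Y, hY, -⟩ := main F a x y h0 h1
  exact ⟨Y, hY⟩

theorem den (n : ℕ) (F : ℤ[X][X][X]) : DEN n F := by
  intro a x y Y h1 hY I M l ν
  have h0 : ev3 (a : ℤ) x y F = 0 := by
    have h2 := congrArg MvPowerSeries.constantCoeff hY.ev
    rw [ehom, map_add, map_add, MvPowerSeries.constantCoeff_C, MvPowerSeries.constantCoeff_C,
      MvPowerSeries.constantCoeff_X, MvPowerSeries.constantCoeff_X, add_zero, add_zero, hY.cst,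
      map_zero] at h2
    have h3 := ehom (Int.castRingHom ℚ) (a : ℤ) x y F
    simp only [eq_intCast, Int.cast_natCast] at h3
    rw [← h3] at h2
    exact_mod_cast h2
  obtain ⟨W, Y0, hY0, hW⟩ := main F a x y h0 h1
  have hYY : Y = Y0 := uniq F a x y h1 Y Y0 hY.cst hY0.cst hY.ev hY0.ev
  rw [← hYY] at hW
  set D := fy F a x y with hD
  refine ⟨MvPowerSeries.coeff ν ((MvPowerSeries.C (a : ℤ) + MvPowerSeries.C (D ^ 2) *
    MvPowerSeries.X 0) ^ (l.1 : ℕ) * (MvPowerSeries.C x + MvPowerSeries.C (D ^ 2) *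
    MvPowerSeries.X 1) ^ (l.2.2 : ℕ) * (MvPowerSeries.C y + MvPowerSeries.C D * W) ^ (l.2.1 : ℕ)), Eq.trans ?_ (eq_intCast (Int.castRingHom ℚ) _)⟩
  rw [← MvPowerSeries.coeff_map, tau, pow_mul, ← rsc]
  congr 1
  rw [map_mul, map_mul, map_pow, map_pow, map_pow, hW, map_add, map_add, rscC, rscC, rscX, rscX]
  rw [map_mul, map_mul, map_pow, map_pow, map_pow]
  congr 2
  all_goals simp

end Pool.Agent.H97.ZE
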