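import Pool.Agent.H97.ZE.SZ

/-! # [H97 ZE NEX] The Sylvester determinant of a linear combination

`M v = syl F (∑ v_i • g_i) n (n - 1)`: the rows `r < n - 1` are those of `F`, the `n` rows `r ≥ n - 1` are `∑_i v_i` times the rows of the `g_i`.
For `f : Fin n → ι` let `ρ f` be the determinant of the matrix with the rows of `F` for `r < n - 1`, and the row `r ≥ n - 1` of
`g (f ⟨r - (n - 1), _⟩)` (`(X^(r - (n-1)) * g_i).coeff k`). Expand: `det (M v) = ∑_σ sign σ ∏_r M v r (σ r)`-type formula (`Matrix.det_apply'`), the product over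
`r ≥ n - 1` of sums is the sum over `f` (`Finset.prod_univ_sum`, `Fintype.piFinset_univ`); reindex `Fin (n + (n-1))` as `Fin (n - 1) ⊕ Fin n`
(`finSumFinEquiv`, `Fin.cast`), `Fintype.prod_sum_type`. Or: `Matrix.detRowAlternating` is multilinear (`MultilinearMap.map_sum`).
Sizes: every entry is a coefficient of `F` or of some `g_i` (or `0`): `dg_det`, `n2_det` (`card = n + (n - 1) ≤ 2 n`; `dg_mono`; `1 ≤ B`;
`Nat.factorial_le`). -/

set_option autoImplicit false

namespace Pool.Agent.H97.ZE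

open Finset Polynomial

/-- the matrix of the choice `f` -/
private noncomputable def nm {ι : Type} {n : ℕ} (hn : 1 ≤ n) (F : ℤ[X][X][X]) (g : ι → ℤ[X][X][X])
    (f : Fin n → ι) : Matrix (Fin (n + (n - 1))) (Fin (n + (n - 1))) ℤ[X][X] :=
  Matrix.of fun r k => if (r : ℕ) < n - 1 then (X ^ (r : ℕ) * F).coeff (k : ℕ)
    else (X ^ ((r : ℕ) - (n - 1)) * g (f ⟨(r : ℕ) - (n - 1), by omega⟩)).coeff (k : ℕ)

private theorem det_rows {R : Type} [CommRing R] {m : ℕ} (M : Matrix (Fin m) (Fin m) R) :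
    M.det = ∑ σ : Equiv.Perm (Fin m), ((Equiv.Perm.sign σ : ℤ) : R) * ∏ r, M r (σ r) := by
  rw [← Matrix.det_transpose, Matrix.det_apply']
  rfl

theorem nex {ι : Type} [Fintype ι] {n : ℕ} (hn : 1 ≤ n) (F : ℤ[X][X][X]) (g : ι → ℤ[X][X][X]) {D B : ℕ}
    (hB : 1 ≤ B) (hF : ∀ k, dg D (F.coeff k) ∧ n2 (F.coeff k) ≤ B)
    (hg : ∀ i k, dg D ((g i).coeff k) ∧ n2 ((g i).coeff k) ≤ B) :
    ∃ ρ : (Fin n → ι) → ℤ[X][X], (∀ f, dg (2 * n * D) (ρ f) ∧ n2 (ρ f) ≤ (2 * n).factorial * B ^ (2 * n)) ∧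
      ∀ v : ι → ℤ, (syl F (∑ i, v i • g i) n (n - 1)).det = ∑ f, (∏ k, v (f k)) • ρ f := by
  classical
  refine ⟨fun f => (nm hn F g f).det, fun f => ?_, fun v => ?_⟩
  · have hX : ∀ (G : ℤ[X][X][X]) (s k : ℕ), (∀ k, dg D (G.coeff k) ∧ n2 (G.coeff k) ≤ B) →
        dg D ((X ^ s * G).coeff k) ∧ n2 ((X ^ s * G).coeff k) ≤ B := by
      intro G s k hG
      rw [coeff_X_pow_mul']
      split_ifs
      · exact hG _
      · exact ⟨dg_zero, by rw [n2_zero]; exact Nat.zero_le _⟩
    have hent : ∀ r k, dg D (nm hn F g f r k) ∧ n2 (nm hn F g f r k) ≤ B := by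
      intro r k
      unfold nm
      rw [Matrix.of_apply]
      split_ifs
      · exact hX F _ _ hF
      · exact hX _ _ _ (hg _)
    constructor
    · refine dg_mono (dg_det (nm hn F g f) (fun r k => (hent r k).1)) ?_
      rw [Fintype.card_fin]
      exact Nat.mul_le_mul_right _ (by omega)
    · refine (n2_det (nm hn F g f) (fun r k => (hent r k).2)).trans ?_
      rw [Fintype.card_fin]
      exact Nat.mul_le_mul (Nat.factorial_le (by omega)) (Nat.pow_le_pow_right hB (by omega))
  · have hlen : (n - 1) + n = n + (n - 1) := by omega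
    let e : Fin (n - 1) ⊕ Fin n ≃ Fin (n + (n - 1)) := finSumFinEquiv.trans (finCongr hlen)
    have he1 : ∀ a : Fin (n - 1), ((e (Sum.inl a) : Fin (n + (n - 1))) : ℕ) = a := by
      intro a
      simp [e]
    have he2 : ∀ b : Fin n, ((e (Sum.inr b) : Fin (n + (n - 1))) : ℕ) = (n - 1) + b := by
      intro b
      simp [e]
      omega
    have hprod : ∀ A : Fin (n + (n - 1)) → ℤ[X][X], ∏ r, A r =
        (∏ a, A (e (Sum.inl a))) * ∏ b, A (e (Sum.inr b)) := by
      intro A
      rw [← Equiv.prod_comp e A, Fintype.prod_sum_type]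
    have hsum : ∀ σ : Equiv.Perm (Fin (n + (n - 1))),
        ∏ r, syl F (∑ i, v i • g i) n (n - 1) r (σ r) =
          ∑ f : Fin n → ι, ((∏ k, v (f k) : ℤ) : ℤ[X][X]) * ∏ r, nm hn F g f r (σ r) := by
      intro σ
      rw [hprod]
      have h1 : ∀ b : Fin n, syl F (∑ i, v i • g i) n (n - 1) (e (Sum.inr b)) (σ (e (Sum.inr b))) =
          ∑ i : ι, ((v i : ℤ) : ℤ[X][X]) * (X ^ (b : ℕ) * g i).coeff (σ (e (Sum.inr b)) : ℕ) := by
        intro b
        unfold syl
        rw [Matrix.of_apply, he2, if_neg (by omega), Nat.add_sub_cancel_left, Finset.mul_sum,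
          finsetSum_coeff]
        refine Finset.sum_congr rfl fun i _ => ?_
        rw [mul_smul_comm, coeff_smul, zsmul_eq_mul]
      rw [Finset.prod_congr rfl fun b _ => h1 b, Finset.prod_univ_sum, Fintype.piFinset_univ,
        Finset.mul_sum]
      refine Finset.sum_congr rfl fun f _ => ?_
      rw [hprod, Finset.prod_mul_distrib, Int.cast_prod]
      have h2 : ∀ a : Fin (n - 1), syl F (∑ i, v i • g i) n (n - 1) (e (Sum.inl a))
          (σ (e (Sum.inl a))) = nm hn F g f (e (Sum.inl a)) (σ (e (Sum.inl a))) := by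
        intro a
        unfold syl nm
        have h4 : ((e (Sum.inl a) : Fin (n + (n - 1))) : ℕ) < n - 1 := by
          rw [he1]
          exact a.2
        rw [Matrix.of_apply, Matrix.of_apply, if_pos h4, if_pos h4]
      have h3 : ∀ b : Fin n, (X ^ (b : ℕ) * g (f b)).coeff (σ (e (Sum.inr b)) : ℕ) =
          nm hn F g f (e (Sum.inr b)) (σ (e (Sum.inr b))) := by
        intro b
        unfold nm
        rw [Matrix.of_apply]
        have h4 : ¬ ((e (Sum.inr b) : Fin (n + (n - 1))) : ℕ) < n - 1 := by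
          rw [he2]
          omega
        rw [if_neg h4]
        have h5 : ((e (Sum.inr b) : Fin (n + (n - 1))) : ℕ) - (n - 1) = b := by
          rw [he2, Nat.add_sub_cancel_left]
        have h6 : (⟨((e (Sum.inr b) : Fin (n + (n - 1))) : ℕ) - (n - 1), by omega⟩ : Fin n) = b :=
          Fin.ext h5
        simp only [h5]
      rw [Finset.prod_congr rfl fun a _ => h2 a, Finset.prod_congr rfl fun b _ => h3 b]
      ring
    rw [det_rows, Finset.sum_congr rfl fun σ _ => by rw [hsum σ]]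
    simp only [Finset.mul_sum]
    rw [Finset.sum_comm]
    refine Finset.sum_congr rfl fun f _ => ?_
    rw [zsmul_eq_mul, det_rows, Finset.mul_sum]
    refine Finset.sum_congr rfl fun σ _ => ?_
    ring

end Pool.Agent.H97.ZE
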