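import Pool.Agent.H97.ZE.SYL
import Pool.Agent.H97.ZE.SZ
import Pool.Agent.H98.XG.Defs

/-! # [H97 ZE NPT] The norm of a function on the surface, and generic points

* `npt_ne`: `syl_ne`: over the field of fractions `F` does not divide `G ≠ 0` of smaller degree (`Polynomial.degree_le_of_dvd`,
  `natDegree_map_eq_of_injective`). `npt_comb`: `syl_comb`.
* `ev3_C`: `ev3 a x y (C R) = ev2 a x R` (unfold; `Polynomial.eval₂_C`, `eval₂RingHom` of `Int.castRingHom ℤ`).
* `npt_rel`: `R = det`; sizes by `dg_det`, `n2_det` as in `NEX` (all entries are coefficients of `F` or `G` or zero); `ev3` of `u F + v G` is zero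
  (`ev3` is a ring homomorphism in the polynomial: it is `eval₂`). -/

namespace Pool.Agent.H97.ZE

open Finset Polynomial Pool.Agent.H37.TE

variable {n : ℕ} {F G : ℤ[X][X][X]}

theorem npt_ne (hF : F.natDegree = n)
    (hirr : Irreducible (F.map (algebraMap ℤ[X][X] (FractionRing ℤ[X][X])))) (hG : G ≠ 0)
    (hGn : G.natDegree < n) : (syl F G n (n - 1)).det ≠ 0 := by
  have hinj : Function.Injective (algebraMap ℤ[X][X] (FractionRing ℤ[X][X])) :=
    IsFractionRing.injective _ _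
  refine syl_ne hF (by omega) hirr ?_
  intro hdvd
  have h0 : G.map (algebraMap ℤ[X][X] (FractionRing ℤ[X][X])) ≠ 0 := by
    intro h
    apply hG
    apply Polynomial.map_injective _ hinj
    rw [h, Polynomial.map_zero]
  have h1 := natDegree_le_of_dvd hdvd h0
  rw [natDegree_map_eq_of_injective hinj, natDegree_map_eq_of_injective hinj, hF] at h1
  omega

theorem npt_comb (hF : F.natDegree = n) (hGn : G.natDegree < n) :
    ∃ u v : ℤ[X][X][X], C (syl F G n (n - 1)).det = u * F + v * G := by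
  exact syl_comb hF.le (by omega) (by omega)

theorem ev3_C (a x y : ℤ) (R : ℤ[X][X]) : ev3 a x y (C R) = ev2 a x R := by
  unfold ev3 ev2
  rw [eval₂_C, coe_eval₂RingHom]
  have h1 : (eval₂RingHom (Int.castRingHom ℤ) a : ℤ[X] →+* ℤ) = evalRingHom a := by
    apply Polynomial.ringHom_ext
    · intro c
      simp
    · simp
  rw [h1]
  have h2 : (R.eval (C x)).eval a = evalRingHom a (R.eval (C x)) := rfl
  rw [h2, ← eval₂_at_apply, coe_evalRingHom, eval_C]

theorem npt_rel {D B : ℕ} {a x y : ℤ} (hB : 1 ≤ B) (hF : F.natDegree = n)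
    (hirr : Irreducible (F.map (algebraMap ℤ[X][X] (FractionRing ℤ[X][X])))) (hG : G ≠ 0)
    (hGn : G.natDegree < n) (hFs : ∀ k, dg D (F.coeff k) ∧ n2 (F.coeff k) ≤ B)
    (hGs : ∀ k, dg D (G.coeff k) ∧ n2 (G.coeff k) ≤ B) (h1 : ev3 a x y F = 0) (h2 : ev3 a x y G = 0) :
    ∃ R : ℤ[X][X], R ≠ 0 ∧ dg (2 * n * D) R ∧ n2 R ≤ (2 * n).factorial * B ^ (2 * n) ∧ ev2 a x R = 0 := by
  have hX : ∀ (H : ℤ[X][X][X]) (s k : ℕ), (∀ k, dg D (H.coeff k) ∧ n2 (H.coeff k) ≤ B) →
      dg D ((X ^ s * H).coeff k) ∧ n2 ((X ^ s * H).coeff k) ≤ B := by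
    intro H s k hH
    rw [coeff_X_pow_mul']
    split_ifs
    · exact hH _
    · exact ⟨dg_zero, by rw [n2_zero]; exact Nat.zero_le _⟩
  have hent : ∀ r k, dg D (syl F G n (n - 1) r k) ∧ n2 (syl F G n (n - 1) r k) ≤ B := by
    intro r k
    unfold syl
    rw [Matrix.of_apply]
    split_ifs
    · exact hX F _ _ hFs
    · exact hX G _ _ hGs
  refine ⟨(syl F G n (n - 1)).det, npt_ne hF hirr hG hGn, ?_, ?_, ?_⟩
  · refine dg_mono (dg_det (syl F G n (n - 1)) (fun r k => (hent r k).1)) ?_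
    rw [Fintype.card_fin]
    exact Nat.mul_le_mul_right _ (by omega)
  · refine (n2_det (syl F G n (n - 1)) (fun r k => (hent r k).2)).trans ?_
    rw [Fintype.card_fin]
    exact Nat.mul_le_mul (Nat.factorial_le (by omega)) (Nat.pow_le_pow_right hB (by omega))
  · obtain ⟨u, v, huv⟩ := npt_comb (n := n) (F := F) (G := G) hF hGn
    rw [← ev3_C a x y, huv]
    unfold ev3 at h1 h2 ⊢
    rw [eval₂_add, eval₂_mul, eval₂_mul, h1, h2, mul_zero, mul_zero, add_zero]

end Pool.Agent.H97.ZE
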