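import Pool.Agent.H97.ZE.TY
import Pool.Agent.H98.XG.Defs

/-! # [H97 ZE SER] The Taylor map `ℤ[t][x] → ℚ[[S, T]]` at `(a, x)`

* `coeff_tmap`: `tmap a x = (map S, T) ∘ sh a x`, where `ι : ℤ[X][X] → ℚ[[S, T]]`, inner variable `↦ S = X 0`, outer `↦ T = X 1`: two ring
  homomorphisms that agree on the generators (`Polynomial.ringHom_ext'`). For `ι`: the coefficient `ν` of `ι g` is `(g.coeff (ν 1)).coeff (ν 0)`: both sides
  are additive in `g`, check it for `g = monomial j (monomial i c)`: `ι g = c S^i T^j` (`MvPowerSeries.coeff_mul`.. or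
  `MvPowerSeries.X_pow_eq`, `monomial_mul_monomial`, `coeff_monomial`; a `Fin 2 →₀ ℕ` is determined by its two values).
* `ser_C`: unfold `ev3`, `Polynomial.eval₂_C`.
* `ord_mul`: `MvPowerSeries.coeff_mul`, in every summand the exponent of `φ` is at most `ν`, so has total degree `< N`.
* `sm_eq`: `ev3 (..) (relG c)` is the sum of the `c l * t^i x^k Y^b` (`relG` is a sum; `ev3` is a ring homomorphism), apply `coeff ν` and
  compare with `Sm` (with `tau`). -/

namespace Pool.Agent.H97.ZE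

open Finset Polynomial Pool.Agent.H37.TE Pool.Agent.H98.TE Pool.Agent.H98.XG

/-- the Taylor expansion at `(a, x)` -/
noncomputable def tmap (a x : ℤ) : ℤ[X][X] →+* MvPowerSeries (Fin 2) ℚ :=
  eval₂RingHom (eval₂RingHom (Int.castRingHom _) (MvPowerSeries.C (a : ℚ) + MvPowerSeries.X 0))
    (MvPowerSeries.C (x : ℚ) + MvPowerSeries.X 1)

/-- the embedding: inner variable to `S = X 0`, outer to `T = X 1` -/
private noncomputable def io : ℤ[X][X] →+* MvPowerSeries (Fin 2) ℚ :=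
  eval₂RingHom (eval₂RingHom (Int.castRingHom _) (MvPowerSeries.X 0)) (MvPowerSeries.X 1)

private theorem fin2_iff (ν : Fin 2 →₀ ℕ) (i j : ℕ) :
    ν = Finsupp.single 0 i + Finsupp.single 1 j ↔ j = ν 1 ∧ i = ν 0 := by
  constructor
  · intro h
    rw [h]
    simp
  · rintro ⟨h1, h2⟩
    ext k
    fin_cases k
    · simp [h2]
    · simp [h1]

private theorem coeff_io (g : ℤ[X][X]) (ν : Fin 2 →₀ ℕ) :
    MvPowerSeries.coeff ν (io g) = (((g.coeff (ν 1)).coeff (ν 0) : ℤ) : ℚ) := by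
  induction g using Polynomial.induction_on' with
  | add f h hf hh => rw [map_add, map_add, hf, hh, coeff_add, coeff_add, Int.cast_add]
  | monomial j p =>
    induction p using Polynomial.induction_on' with
    | add f h hf hh =>
      rw [map_add (monomial j), map_add, map_add, hf, hh, coeff_add, coeff_add, Int.cast_add]
    | monomial i c =>
      have h1 : io (monomial j (monomial i c)) =
          MvPowerSeries.C (c : ℚ) * (MvPowerSeries.X 0 ^ i * MvPowerSeries.X 1 ^ j) := by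
        unfold io
        rw [coe_eval₂RingHom, eval₂_monomial, coe_eval₂RingHom, eval₂_monomial, mul_assoc]
        congr 1
        rw [eq_intCast, ← map_intCast (MvPowerSeries.C (σ := Fin 2) (R := ℚ)) c]
      rw [h1, MvPowerSeries.coeff_C_mul, MvPowerSeries.X_pow_eq, MvPowerSeries.X_pow_eq,
        MvPowerSeries.monomial_mul_monomial, MvPowerSeries.coeff_monomial, coeff_monomial]
      by_cases h2 : j = ν 1
      · rw [if_pos h2, coeff_monomial]
        by_cases h3 : i = ν 0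
        · rw [if_pos ((fin2_iff ν i j).2 ⟨h2, h3⟩), if_pos h3, mul_one, mul_one]
        · rw [if_neg (fun h => h3 ((fin2_iff ν i j).1 h).2), if_neg h3, mul_zero, Int.cast_zero]
      · rw [if_neg (fun h => h2 ((fin2_iff ν i j).1 h).1), if_neg h2, mul_zero, coeff_zero,
          Int.cast_zero]

private theorem tmap_eq (a x : ℤ) : tmap a x = io.comp (sh a x) := by
  refine Polynomial.ringHom_ext' ?_ ?_
  · refine Polynomial.ringHom_ext' ?_ ?_
    · exact RingHom.ext_int _ _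
    · unfold tmap io sh
      simp
      rw [← coe_eval₂RingHom, map_intCast, add_comm]
  · unfold tmap io sh
    simp
    rw [← coe_eval₂RingHom, map_intCast, add_comm]

theorem coeff_tmap (a x : ℤ) (g : ℤ[X][X]) (ν : Fin 2 →₀ ℕ) :
    MvPowerSeries.coeff ν (tmap a x g) = (tc a x g (ν 0) (ν 1) : ℚ) := by
  rw [tmap_eq, RingHom.comp_apply, coeff_io]
  rfl

theorem ser_C (a : ℕ) (x : ℤ) (Y : MvPowerSeries (Fin 2) ℚ) (g : ℤ[X][X]) :
    ev3 (MvPowerSeries.C (a : ℚ) + MvPowerSeries.X 0) (MvPowerSeries.C (x : ℚ) + MvPowerSeries.X 1) Y (C g) =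
      tmap (a : ℤ) x g := by
  unfold ev3 tmap
  rw [eval₂_C, Int.cast_natCast]

theorem ord_mul {φ : MvPowerSeries (Fin 2) ℚ} {N : ℕ} (ψ : MvPowerSeries (Fin 2) ℚ)
    (h : ∀ ν : Fin 2 →₀ ℕ, ν 0 + ν 1 < N → MvPowerSeries.coeff ν φ = 0) (ν : Fin 2 →₀ ℕ) (hν : ν 0 + ν 1 < N) :
    MvPowerSeries.coeff ν (ψ * φ) = 0 := by
  classical
  rw [MvPowerSeries.coeff_mul]
  refine Finset.sum_eq_zero fun p hp => ?_
  rw [Finset.HasAntidiagonal.mem_antidiagonal] at hp
  rw [h p.2, mul_zero]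
  have h0 : p.1 0 + p.2 0 = ν 0 := by rw [← hp]; rfl
  have h1 : p.1 1 + p.2 1 = ν 1 := by rw [← hp]; rfl
  omega

theorem sm_eq {I₁ M₁ I₂ M₂ n : ℕ} (c : Lam I₁ n M₁ → Lam I₂ n M₂ → ℤ) (Y : MvPowerSeries (Fin 2) ℚ)
    (a₁ : ℕ) (x₁ : ℤ) (a₂ : ℕ) (x₂ y₂ : ℤ) (ν : Fin 2 →₀ ℕ) :
    MvPowerSeries.coeff ν (ev3 (MvPowerSeries.C (a₁ : ℚ) + MvPowerSeries.X 0)
      (MvPowerSeries.C (x₁ : ℚ) + MvPowerSeries.X 1) Y (relG fun l => ∑ l', c l l' * mv a₂ x₂ y₂ l')) =
      Sm c Y a₁ x₁ a₂ x₂ y₂ ν := by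
  unfold ev3 relG Sm
  rw [eval₂_finsetSum, map_sum]
  refine sum_congr rfl fun l _ => ?_
  rw [eval₂_mul, eval₂_C, eval₂_pow, eval₂_X, coe_eval₂RingHom, eval₂_mul, eval₂_C, eval₂_pow,
    eval₂_X, coe_eval₂RingHom, eval₂_mul, eval₂_C, eval₂_pow, eval₂_X, eq_intCast,
    ← map_intCast (MvPowerSeries.C (σ := Fin 2) (R := ℚ)), mul_assoc, mul_assoc,
    MvPowerSeries.coeff_C_mul, Int.cast_sum, Finset.sum_mul]
  refine sum_congr rfl fun l' _ => ?_
  unfold tau
  rw [Int.cast_mul, mul_assoc ((MvPowerSeries.C (a₁ : ℚ) + MvPowerSeries.X 0) ^ (l.1 : ℕ))]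
  ring

/-- if the restriction of `G` to the surface vanishes at the point to order `N`, so does every `R ∈ ℤ[t][x]` in the
ideal `(F, G)` -/
theorem van_of_comb {F G u v : ℤ[X][X][X]} {R : ℤ[X][X]} {a N : ℕ} {x y : ℤ}
    {Y : MvPowerSeries (Fin 2) ℚ} (hY : IsLoc F a x y Y) (hR : C R = u * F + v * G)
    (hG : ∀ ν : Fin 2 →₀ ℕ, ν 0 + ν 1 < N → MvPowerSeries.coeff ν
      (ev3 (MvPowerSeries.C (a : ℚ) + MvPowerSeries.X 0) (MvPowerSeries.C (x : ℚ) + MvPowerSeries.X 1) Y G) = 0) :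
    Van N (a : ℤ) x R := by
  intro i j hij
  have h1 := congrArg (ev3 (MvPowerSeries.C (a : ℚ) + MvPowerSeries.X 0)
    (MvPowerSeries.C (x : ℚ) + MvPowerSeries.X 1) Y) hR
  rw [ser_C] at h1
  have h2 : ev3 (MvPowerSeries.C (a : ℚ) + MvPowerSeries.X 0)
      (MvPowerSeries.C (x : ℚ) + MvPowerSeries.X 1) Y (u * F + v * G) =
      ev3 (MvPowerSeries.C (a : ℚ) + MvPowerSeries.X 0)
        (MvPowerSeries.C (x : ℚ) + MvPowerSeries.X 1) Y v *
      ev3 (MvPowerSeries.C (a : ℚ) + MvPowerSeries.X 0)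
        (MvPowerSeries.C (x : ℚ) + MvPowerSeries.X 1) Y G := by
    have h3 := hY.ev
    unfold ev3 at h3 ⊢
    rw [eval₂_add, eval₂_mul, eval₂_mul, h3, mul_zero, zero_add]
  rw [h2] at h1
  have h4 := ord_mul (ev3 (MvPowerSeries.C (a : ℚ) + MvPowerSeries.X 0)
        (MvPowerSeries.C (x : ℚ) + MvPowerSeries.X 1) Y v) hG
    (Finsupp.single 0 i + Finsupp.single 1 j) (by simpa using hij)
  rw [← h1, coeff_tmap] at h4
  have e0 : (Finsupp.single 0 i + Finsupp.single 1 j : Fin 2 →₀ ℕ) 0 = i := by simp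
  have e1 : (Finsupp.single 0 i + Finsupp.single 1 j : Fin 2 →₀ ℕ) 1 = j := by simp
  rw [e0, e1] at h4
  exact_mod_cast h4

end Pool.Agent.H97.ZE
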