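import Pool.Agent.H97.ZE.ZEB
import Pool.Agent.H97.ZE.NEX
import Pool.Agent.H97.ZE.NPT
import Pool.Agent.H97.ZE.SER

/-! # [H97 ZE NZA] The zero estimate on the surface, with integer parameters

`DF, BF`: with `dg DF (F.coeff k)`, `n2 (F.coeff k) ≤ BF` for all `k` (finitely many coefficients are not zero), `DF, BF ≥ 1`.
`L2 = n (N0 + 1)^2` bounds `card (Lam I₂ n M₂)` (`I₂, M₂ ≤ N0`: `Lam I n M = Fin I × (Σ k : Fin n, Fin (M + 1 - k))`), `K0 = L2 ^ n` (`Lam I₂ n M₂` may be empty only if `c = 0`).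
`ze3 C₀ K0 (δ / (2 n))`: `d1`. `d = d1 + 2 n (DF + N0)` (`Gen` is monotone in `d`: `Gen d ε` implies `Gen d' ε` for `d' ≤ d`).
Given `ε`: `η1`, `A1`, `D1` of `ze3`; `η = min(η1, ε) / (4 n + 4)`-like, so that, with `A0` large:
(i) `(2n)! (BF (D + 1)^2 a^(η D))^(2n) ≤ a^(η1 (2 n D))` for `a ≥ A0`, `D ≥ 1` (`(D + 1)^2 ≤ 4^D`, `(2n)! ≤ ((2n)!)^D`, `BF ≤ BF^D`);
(ii) `(2n)! (BF (N0 + 1)^2 a^η)^(2n) < a^ε` for `a ≥ A0` (`2 n η ≤ ε / 2`).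
`D0 = D1 + DF + 1`.
PROOF. `c ≠ 0`: `l` with `c l ≠ 0`.
(1) `G2 = relG (c l) ≠ 0` (`relG_ne`), `G2.natDegree < n` (`relG_eq_zero`), `dg N0` and `n2 ≤ (N0 + 1)^2 a₂^η` for its coefficients (`n2_le`, every coefficient of
 `relG` is one `c` or zero: `relG_coeff`, at most one `l` contributes; `relG_eq_zero` for the degrees). If `ev3 a₂ x₂ y₂ G2 = 0`: `npt_rel` with `D = DF + N0`, `B = max BF ⌊(N0 + 1)^2 a₂^η⌋`
 gives `R ≠ 0` with `ev2 a₂ x₂ R = 0`, all coefficients `≤ n2 R < a₂^ε` by (ii), against `Gen d ε a₂ x₂`. So `ev3 a₂ x₂ y₂ (relG (c l)) = ∑_l' c l l' mv(l') ≠ 0`.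
(2) `G = relG (fun l => ∑ l', c l l' * mv a₂ x₂ y₂ l') ≠ 0` by (1); `G = ∑_l' (mv l') • relG (fun l => c l l')` (`relG` is linear). `G.natDegree < n`.
 `R = (syl F G n (n - 1)).det ≠ 0` (`npt_ne`), `= ∑_f (∏_k mv (f k)) • ρ f` (`nex` with `ι = Lam I₂ n M₂`, `D`, `B = BF + ⌊(D + 1)^2 a₁^(η D)⌋`; `D ≥ DF`).
(3) Suppose `Sm c .. ν = 0` for all `ν` with `ν 0 + ν 1 ≤ δ D`; `N = ⌊δ D⌋₊ + 1`. `sm_eq`, `van_of_comb` (`npt_comb`): `Van N a₁ x₁ R`. `ze3` for the family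
 `ρ f` (`card (Fin n → ι) ≤ K0`), `D' = 2 n D`: `N ≤ δ / (2 n) * (2 n D) = δ D`: contradiction. -/

namespace Pool.Agent.H97.ZE

open Finset Polynomial Pool.Agent.H37.TE Pool.Agent.H98.TE Pool.Agent.H98.XG

/-- bounds for the coefficients of `F` -/
private theorem nza_bd (F : ℤ[X][X][X]) : ∃ DF BF : ℕ, 1 ≤ BF ∧
    ∀ k, dg DF (F.coeff k) ∧ n2 (F.coeff k) ≤ BF := by
  refine ⟨∑ k ∈ F.support, ((F.coeff k).natDegree +
    ∑ j ∈ (F.coeff k).support, ((F.coeff k).coeff j).natDegree),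
    1 + ∑ k ∈ F.support, n2 (F.coeff k), by omega, fun k => ?_⟩
  by_cases hk : k ∈ F.support
  · have h1 : (F.coeff k).natDegree + ∑ j ∈ (F.coeff k).support, ((F.coeff k).coeff j).natDegree ≤
        ∑ k ∈ F.support, ((F.coeff k).natDegree +
          ∑ j ∈ (F.coeff k).support, ((F.coeff k).coeff j).natDegree) :=
      Finset.single_le_sum (f := fun k => (F.coeff k).natDegree +
      ∑ j ∈ (F.coeff k).support, ((F.coeff k).coeff j).natDegree) (fun _ _ => Nat.zero_le _) hk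
    have h2 : n2 (F.coeff k) ≤ ∑ k ∈ F.support, n2 (F.coeff k) :=
      Finset.single_le_sum (f := fun k => n2 (F.coeff k)) (fun _ _ => Nat.zero_le _) hk
    refine ⟨⟨by omega, fun j => ?_⟩, by omega⟩
    by_cases hj : j ∈ (F.coeff k).support
    · have h3 : ((F.coeff k).coeff j).natDegree ≤
          ∑ j ∈ (F.coeff k).support, ((F.coeff k).coeff j).natDegree :=
        Finset.single_le_sum (f := fun j => ((F.coeff k).coeff j).natDegree)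
        (fun _ _ => Nat.zero_le _) hj
      omega
    · rw [notMem_support_iff] at hj
      rw [hj, natDegree_zero]
      exact Nat.zero_le _
  · rw [notMem_support_iff] at hk
    rw [hk]
    exact ⟨dg_zero, by rw [n2_zero]; exact Nat.zero_le _⟩

private theorem nza_coef {I n M : ℕ} {B : ℝ} (hB : 0 ≤ B) (c : Lam I n M → ℤ)
    (hc : ∀ l, |((c l : ℤ) : ℝ)| ≤ B) (b a j : ℕ) :
    |(((((relG c).coeff b).coeff a).coeff j : ℤ) : ℝ)| ≤ B := by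
  classical
  rw [relG_coeff]
  by_cases h : ∃ l : Lam I n M, b = (l.2.1 : ℕ) ∧ a = (l.2.2 : ℕ) ∧ j = (l.1 : ℕ)
  · obtain ⟨l0, hl0⟩ := h
    rw [sum_eq_single l0]
    · rw [if_pos hl0]
      exact hc l0
    · intro l _ hl
      refine if_neg fun h' => hl ?_
      obtain ⟨e1, e2, e3⟩ := h'
      obtain ⟨f1, f2, f3⟩ := hl0
      rw [f1] at e1
      rw [f2] at e2
      rw [f3] at e3
      obtain ⟨i, ⟨k, j⟩⟩ := l
      obtain ⟨i0, ⟨k0, j0⟩⟩ := l0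
      simp only at e1 e2 e3
      have e4 : i = i0 := Fin.ext e3.symm
      have e5 : k = k0 := Fin.ext e1.symm
      subst e4 e5
      have e6 : j = j0 := Fin.ext e2.symm
      rw [e6]
    · intro h2
      exact absurd (mem_univ _) h2
  · rw [sum_eq_zero fun l _ => if_neg fun h' => h ⟨l, h'⟩]
    simpa using hB

private theorem nza_dg {I n M D : ℕ} (c : Lam I n M → ℤ) (hI : I ≤ D) (hM : M ≤ D) (k : ℕ) :
    dg D ((relG c).coeff k) := by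
  refine ⟨?_, fun j => ?_⟩
  · rw [natDegree_le_iff_coeff_eq_zero]
    intro a ha
    ext j
    rw [relG_eq_zero c (Or.inr (Or.inl (by omega))), coeff_zero]
  · rw [natDegree_le_iff_coeff_eq_zero]
    intro i hi
    exact relG_eq_zero c (Or.inr (Or.inr (by omega)))

private theorem nza_lin {I₁ M₁ I₂ M₂ n : ℕ} (c : Lam I₁ n M₁ → Lam I₂ n M₂ → ℤ)
    (v : Lam I₂ n M₂ → ℤ) :
    relG (fun l => ∑ l', c l l' * v l') = ∑ l', v l' • relG (fun l => c l l') := by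
  ext b a j
  rw [relG_coeff, finsetSum_coeff, finsetSum_coeff, finsetSum_coeff]
  have h1 : ∀ l' ∈ (univ : Finset (Lam I₂ n M₂)),
      (((v l' • relG fun l => c l l').coeff b).coeff a).coeff j =
      ∑ l : Lam I₁ n M₁, v l' * (if b = (l.2.1 : ℕ) ∧ a = (l.2.2 : ℕ) ∧ j = (l.1 : ℕ)
        then c l l' else 0) := by
    intro l' _
    rw [coeff_smul, coeff_smul, coeff_smul, relG_coeff, smul_eq_mul, mul_sum]
  rw [sum_congr rfl h1, sum_comm]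
  refine sum_congr rfl fun l _ => ?_
  split_ifs
  · exact sum_congr rfl fun l' _ => mul_comm _ _
  · simp

private theorem nza_card {I n M N0 : ℕ} (hI : I ≤ N0) (hM : M ≤ N0) :
    Fintype.card (Lam I n M) ≤ N0 * (n * (N0 + 1)) := by
  rw [lam_card]
  refine Nat.mul_le_mul hI ?_
  unfold QQ
  calc ∑ k : Fin n, (M + 1 - k) ≤ ∑ _k : Fin n, (N0 + 1) := sum_le_sum fun k _ => by omega
    _ = n * (N0 + 1) := by rw [sum_const, card_univ, Fintype.card_fin, smul_eq_mul]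

/-- the size estimate (i) -/
private theorem nza_i {n D BF B : ℕ} {a η η1 : ℝ} (ha : 1 ≤ a) (hD : 1 ≤ D)
    (hη : 0 < η) (hη1 : η ≤ η1 / 2)
    (hc : (((2 * n).factorial * (4 * (BF + 1)) ^ (2 * n) : ℕ) : ℝ) ≤ a ^ (η1 * n))
    (hB : (B : ℝ) ≤ BF + ((D : ℝ) + 1) ^ 2 * a ^ (η * D)) :
    (((2 * n).factorial * B ^ (2 * n) : ℕ) : ℝ) ≤ a ^ (η1 * ((2 * n * D : ℕ) : ℝ)) := by
  have ha0 : 0 < a := by linarith
  have h1 : 1 ≤ a ^ (η * D) := Real.one_le_rpow ha (by positivity)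
  have h2 : ((D : ℝ) + 1) ^ 2 ≤ 4 ^ D := by
    have h3 : D + 1 ≤ 2 ^ D := Nat.lt_two_pow_self
    have h4 : (D : ℝ) + 1 ≤ 2 ^ D := by exact_mod_cast h3
    calc ((D : ℝ) + 1) ^ 2 ≤ (2 ^ D) ^ 2 := by gcongr
      _ = 4 ^ D := by rw [← pow_mul, mul_comm, pow_mul]; norm_num
  have h3 : (BF : ℝ) + 1 ≤ ((BF : ℝ) + 1) ^ D := by
    refine le_self_pow₀ ?_ (by omega)
    have : (0 : ℝ) ≤ BF := Nat.cast_nonneg _
    linarith
  have h4 : (B : ℝ) ≤ (4 * ((BF : ℝ) + 1)) ^ D * a ^ (η * D) := by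
    have h5 : (BF : ℝ) ≤ BF * (((D : ℝ) + 1) ^ 2 * a ^ (η * D)) := by
      have h6 : 1 ≤ ((D : ℝ) + 1) ^ 2 * a ^ (η * D) := by
        have h7 : (1 : ℝ) ≤ ((D : ℝ) + 1) ^ 2 := by
          have : (0 : ℝ) ≤ D := Nat.cast_nonneg _
          nlinarith
        nlinarith
      have : (0 : ℝ) ≤ BF := Nat.cast_nonneg _
      nlinarith
    calc (B : ℝ) ≤ ((BF : ℝ) + 1) * (((D : ℝ) + 1) ^ 2 * a ^ (η * D)) := by linarith
      _ ≤ ((BF : ℝ) + 1) ^ D * (4 ^ D * a ^ (η * D)) := by gcongr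
      _ = (4 * ((BF : ℝ) + 1)) ^ D * a ^ (η * D) := by rw [mul_pow]; ring
  have h5 : (1 : ℝ) ≤ ((2 * n).factorial : ℝ) := by exact_mod_cast Nat.factorial_pos _
  have h6 : ((2 * n).factorial : ℝ) ≤ ((2 * n).factorial : ℝ) ^ D := le_self_pow₀ h5 (by omega)
  push_cast at hc ⊢
  calc ((2 * n).factorial : ℝ) * (B : ℝ) ^ (2 * n)
      ≤ ((2 * n).factorial : ℝ) ^ D * ((4 * ((BF : ℝ) + 1)) ^ D * a ^ (η * D)) ^ (2 * n) := by
        gcongr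
    _ = (((2 * n).factorial : ℝ) * (4 * ((BF : ℝ) + 1)) ^ (2 * n)) ^ D *
        (a ^ (η * D)) ^ (2 * n) := by
        rw [mul_pow ((4 * ((BF : ℝ) + 1)) ^ D), mul_pow ((2 * n).factorial : ℝ), ← pow_mul,
          ← pow_mul, mul_comm D (2 * n)]
        ring
    _ ≤ (a ^ (η1 * n)) ^ D * (a ^ (η * D)) ^ (2 * n) := by gcongr
    _ = a ^ (η1 * n * D + η * D * (2 * n : ℕ)) := by
        rw [← Real.rpow_natCast (a ^ (η1 * n)) D, ← Real.rpow_mul ha0.le,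
          ← Real.rpow_natCast (a ^ (η * D)) (2 * n), ← Real.rpow_mul ha0.le,
          ← Real.rpow_add ha0]
    _ ≤ a ^ (η1 * (2 * n * D)) := by
        refine Real.rpow_le_rpow_of_exponent_le ha ?_
        have h7 : η * D * (2 * n : ℕ) ≤ η1 / 2 * D * (2 * n : ℕ) := by gcongr
        have h8 : η1 / 2 * D * ((2 * n : ℕ) : ℝ) = η1 * n * D := by push_cast; ring
        have h9 : η1 * (2 * n * D) = η1 * n * D + η1 * n * D := by ring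
        rw [h9]
        linarith

/-- the size estimate (ii) -/
private theorem nza_ii {n BF N0 B : ℕ} {a η ε : ℝ} (ha : 1 ≤ a)
    (hη : 0 < η) (hη1 : 2 * n * η ≤ ε / 2)
    (hc : (((2 * n).factorial * (BF + (N0 + 1) ^ 2) ^ (2 * n) : ℕ) : ℝ) < a ^ (ε / 2))
    (hB : (B : ℝ) ≤ BF + ((N0 : ℝ) + 1) ^ 2 * a ^ η) :
    (((2 * n).factorial * B ^ (2 * n) : ℕ) : ℝ) < a ^ ε := by
  have ha0 : 0 < a := by linarith
  have h1 : 1 ≤ a ^ η := Real.one_le_rpow ha hη.le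
  have h4 : (B : ℝ) ≤ ((BF : ℝ) + ((N0 : ℝ) + 1) ^ 2) * a ^ η := by
    have : (0 : ℝ) ≤ BF := Nat.cast_nonneg _
    nlinarith
  push_cast at hc ⊢
  calc ((2 * n).factorial : ℝ) * (B : ℝ) ^ (2 * n)
      ≤ ((2 * n).factorial : ℝ) * (((BF : ℝ) + ((N0 : ℝ) + 1) ^ 2) * a ^ η) ^ (2 * n) := by
        gcongr
    _ = (((2 * n).factorial : ℝ) * ((BF : ℝ) + ((N0 : ℝ) + 1) ^ 2) ^ (2 * n)) *
        a ^ (2 * n * η) := by
        rw [mul_pow, ← Real.rpow_natCast (a ^ η) (2 * n), ← Real.rpow_mul ha0.le]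
        push_cast
        rw [mul_comm η]
        ring
    _ < a ^ (ε / 2) * a ^ (2 * n * η) := by
        have : 0 < a ^ (2 * n * η) := Real.rpow_pos_of_pos ha0 _
        gcongr
    _ ≤ a ^ (ε / 2) * a ^ (ε / 2) := by
        have : a ^ (2 * n * η) ≤ a ^ (ε / 2) := Real.rpow_le_rpow_of_exponent_le ha hη1
        gcongr
    _ = a ^ ε := by
        rw [← Real.rpow_add ha0]
        congr 1
        ring

theorem nzd {n : ℕ} (hn : 1 ≤ n) {F : ℤ[X][X][X]} (hF : F.natDegree = n)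
    (hirr : Irreducible (F.map (algebraMap ℤ[X][X] (FractionRing ℤ[X][X]))))
    (C₀ N0 : ℕ) (δ : ℝ) (hδ : 0 < δ) : ∃ d : ℕ, ∀ ε : ℝ, 0 < ε → ∃ η : ℝ, 0 < η ∧ ∃ A0 D0 : ℕ,
    ∀ (a₁ a₂ : ℕ) (x₁ y₁ x₂ y₂ : ℤ), A0 ≤ a₁ → A0 ≤ a₂ → |x₁| ≤ (a₁ : ℤ) ^ C₀ →
      ZE.Gen d ε (a₁ : ℤ) x₁ → ZE.Gen d ε (a₂ : ℤ) x₂ → ev3 (a₂ : ℤ) x₂ y₂ F = 0 →
      ∀ Y₁ : MvPowerSeries (Fin 2) ℚ, IsLoc F a₁ x₁ y₁ Y₁ →
      ∀ (D I₁ M₁ I₂ M₂ : ℕ), D0 ≤ D → I₁ ≤ D → M₁ ≤ D → I₂ ≤ N0 → M₂ ≤ N0 →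
      ∀ c : Lam I₁ n M₁ → Lam I₂ n M₂ → ℤ, c ≠ 0 →
      (∀ l l', |((c l l' : ℤ) : ℝ)| ≤ (a₁ : ℝ) ^ (η * D)) → (∀ l l', |((c l l' : ℤ) : ℝ)| ≤ (a₂ : ℝ) ^ η) →
      ∃ ν : Fin 2 →₀ ℕ, ((ν 0 + ν 1 : ℕ) : ℝ) ≤ δ * D ∧ Sm c Y₁ a₁ x₁ a₂ x₂ y₂ ν ≠ 0 := by
  classical
  have hnR : (0 : ℝ) < n := by exact_mod_cast hn
  obtain ⟨DF, BF, hBF, hFb⟩ := nza_bd F
  obtain ⟨d1, hd1⟩ := ze3 C₀ ((N0 * (n * (N0 + 1))) ^ n) (δ / (2 * n)) (by positivity)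
  refine ⟨d1 + 2 * n * (DF + N0), fun ε hε => ?_⟩
  obtain ⟨η1, hη1, A1, D1, hze⟩ := hd1 ε hε
  have ht1 : Filter.Tendsto (fun a : ℕ => (a : ℝ) ^ (η1 * n)) Filter.atTop Filter.atTop :=
    (tendsto_rpow_atTop (by positivity)).comp tendsto_natCast_atTop_atTop
  obtain ⟨A2, hA2⟩ := Filter.eventually_atTop.1 (ht1.eventually_ge_atTop
    (((2 * n).factorial * (4 * (BF + 1)) ^ (2 * n) : ℕ) : ℝ))
  have ht2 : Filter.Tendsto (fun a : ℕ => (a : ℝ) ^ (ε / 2)) Filter.atTop Filter.atTop :=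
    (tendsto_rpow_atTop (by positivity)).comp tendsto_natCast_atTop_atTop
  obtain ⟨A3, hA3⟩ := Filter.eventually_atTop.1 (ht2.eventually_gt_atTop
    (((2 * n).factorial * (BF + (N0 + 1) ^ 2) ^ (2 * n) : ℕ) : ℝ))
  obtain ⟨η, hη⟩ : ∃ η : ℝ, η = min (η1 / 2) (ε / (4 * n)) := ⟨_, rfl⟩
  have hη0 : 0 < η := by rw [hη]; exact lt_min (by positivity) (by positivity)
  have hηa : η ≤ η1 / 2 := by rw [hη]; exact min_le_left _ _
  have hηb : 2 * n * η ≤ ε / 2 := by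
    have h1 : η ≤ ε / (4 * n) := by rw [hη]; exact min_le_right _ _
    rw [le_div_iff₀ (by positivity)] at h1
    linarith
  refine ⟨η, hη0, A1 + A2 + A3 + 1, D1 + DF + 1, ?_⟩
  intro a₁ a₂ x₁ y₁ x₂ y₂ ha₁ ha₂ hx₁ hG₁ hG₂ hev Y₁ hY D I₁ M₁ I₂ M₂ hD hI₁ hM₁ hI₂ hM₂ c hc
    hc₁ hc₂
  have ha₁1 : (1 : ℝ) ≤ a₁ := by
    have : 1 ≤ a₁ := by omega
    exact_mod_cast this
  have ha₂1 : (1 : ℝ) ≤ a₂ := by
    have : 1 ≤ a₂ := by omega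
    exact_mod_cast this
  have hcastc : ∀ a : ℕ, |((a : ℤ) : ℝ)| = (a : ℝ) := by
    intro a
    rw [Int.cast_natCast, Nat.abs_cast]
  -- step 1
  obtain ⟨l0, hl0⟩ : ∃ l, c l ≠ 0 := by
    by_contra hcon
    push Not at hcon
    exact hc (funext hcon)
  have hG2ne := relG_ne (c l0) hl0
  have hG2deg := relG_deg (c l0) hn
  have hval : ev3 (a₂ : ℤ) x₂ y₂ (relG (c l0)) ≠ 0 := by
    intro h0
    have hB2 : ((BF + ⌊((N0 : ℝ) + 1) ^ 2 * (a₂ : ℝ) ^ η⌋₊ : ℕ) : ℝ) ≤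
        BF + ((N0 : ℝ) + 1) ^ 2 * (a₂ : ℝ) ^ η := by
      push_cast
      have := Nat.floor_le (show 0 ≤ ((N0 : ℝ) + 1) ^ 2 * (a₂ : ℝ) ^ η by positivity)
      linarith
    obtain ⟨R, hR0, hRd, hRn, hRe⟩ := npt_rel (D := DF + N0)
      (B := BF + ⌊((N0 : ℝ) + 1) ^ 2 * (a₂ : ℝ) ^ η⌋₊) (by omega) hF hirr hG2ne hG2deg
      (fun k => ⟨dg_mono (hFb k).1 (by omega), (hFb k).2.trans (by omega)⟩)
      (fun k => ⟨dg_mono (nza_dg (c l0) hI₂ hM₂ k) (by omega), by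
        refine le_trans (Nat.le_floor ?_) (Nat.le_add_left _ _)
        exact n2_le (nza_dg (c l0) hI₂ hM₂ k)
          (fun i j => nza_coef (by positivity) (c l0) (fun l => hc₂ l0 l) k j i)⟩) hev h0
    obtain ⟨i, j, hij⟩ := hG₂ R hR0 (hRd.1.trans (Nat.le_add_left _ _))
      (fun j => (hRd.2 j).trans (Nat.le_add_left _ _)) hRe
    rw [hcastc] at hij
    have h1 := nza_ii (n := n) ha₂1 hη0 hηb (hA3 a₂ (by omega)) hB2
    have h2 : |(((R.coeff j).coeff i : ℤ) : ℝ)| ≤ ((n2 R : ℕ) : ℝ) := by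
      have h3 := coeff_le_n2 R i j
      have h4 : |(((R.coeff j).coeff i : ℤ) : ℝ)| = ((((R.coeff j).coeff i).natAbs : ℕ) : ℝ) := by
        rw [Nat.cast_natAbs, Int.cast_abs]
      rw [h4]
      exact_mod_cast h3
    have h3 : ((n2 R : ℕ) : ℝ) ≤ (((2 * n).factorial *
        (BF + ⌊((N0 : ℝ) + 1) ^ 2 * (a₂ : ℝ) ^ η⌋₊) ^ (2 * n) : ℕ) : ℝ) := by
      exact_mod_cast hRn
    linarith
  -- step 2
  obtain ⟨v, hv⟩ : ∃ v : Lam I₂ n M₂ → ℤ, v = mv a₂ x₂ y₂ := ⟨_, rfl⟩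
  obtain ⟨G, hGdef⟩ : ∃ G : ℤ[X][X][X], G = relG (fun l => ∑ l', c l l' * mv a₂ x₂ y₂ l') :=
    ⟨_, rfl⟩
  have hGne : G ≠ 0 := by
    rw [hGdef]
    refine relG_ne _ fun h0 => hval ?_
    have h1 := congrFun h0 l0
    simp only [Pi.zero_apply] at h1
    rw [relG_ev, ← h1]
    exact sum_congr rfl fun l _ => rfl
  have hGdeg : G.natDegree < n := by
    rw [hGdef]
    exact relG_deg _ hn
  have hGlin : G = ∑ l', v l' • relG (fun l => c l l') := by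
    rw [hGdef, hv]
    exact nza_lin c _
  have hRne := npt_ne hF hirr hGne hGdeg
  have hDD : 1 ≤ D := by omega
  have hB1 : ((BF + ⌊((D : ℝ) + 1) ^ 2 * (a₁ : ℝ) ^ (η * D)⌋₊ : ℕ) : ℝ) ≤
      BF + ((D : ℝ) + 1) ^ 2 * (a₁ : ℝ) ^ (η * D) := by
    push_cast
    have := Nat.floor_le (show 0 ≤ ((D : ℝ) + 1) ^ 2 * (a₁ : ℝ) ^ (η * D) by positivity)
    linarith
  obtain ⟨ρ, hρ1, hρ2⟩ := nex hn F (fun l' : Lam I₂ n M₂ => relG (fun l => c l l')) (D := D)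
    (B := BF + ⌊((D : ℝ) + 1) ^ 2 * (a₁ : ℝ) ^ (η * D)⌋₊) (by omega)
    (fun k => ⟨dg_mono (hFb k).1 (by omega), (hFb k).2.trans (by omega)⟩)
    (fun l' k => ⟨nza_dg _ hI₁ hM₁ k, by
      refine le_trans (Nat.le_floor ?_) (Nat.le_add_left _ _)
      exact n2_le (nza_dg _ hI₁ hM₁ k)
        (fun i j => nza_coef (by positivity) _ (fun l => hc₁ l l') k j i)⟩)
  have hRsum := hρ2 v
  rw [← hGlin] at hRsum
  -- step 3
  by_contra hcon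
  push Not at hcon
  obtain ⟨u, w, huw⟩ := npt_comb hF hGdeg
  have hfl : ((⌊δ * D⌋₊ : ℕ) : ℝ) ≤ δ * D := Nat.floor_le (by positivity)
  have hvan : Van (⌊δ * D⌋₊ + 1) (a₁ : ℤ) x₁ (syl F G n (n - 1)).det := by
    refine van_of_comb hY huw fun ν hν => ?_
    rw [hGdef, sm_eq]
    refine hcon ν ?_
    refine le_trans ?_ hfl
    have : ν 0 + ν 1 ≤ ⌊δ * D⌋₊ := by omega
    exact_mod_cast this
  rw [hRsum] at hvan hRne
  have hfin := hze (a₁ : ℤ) x₁ (by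
      rw [Nat.abs_cast]
      have : A1 ≤ a₁ := by omega
      exact_mod_cast this) (by rw [Nat.abs_cast]; exact hx₁)
    (fun P h0 h1 h2 h3 => hG₁ P h0 (h1.trans (Nat.le_add_right _ _))
      (fun j => (h2 j).trans (Nat.le_add_right _ _)) h3) (2 * n * D) (by
      have : 1 * D ≤ 2 * n * D := Nat.mul_le_mul_right _ (by omega)
      omega) (Fin n → Lam I₂ n M₂) (by
      rw [Fintype.card_fun, Fintype.card_fin]
      exact Nat.pow_le_pow_left (nza_card hI₂ hM₂) n) ρ (fun f => ∏ k, v (f k))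
    (fun f => (hρ1 f).1) (fun f => by
      rw [hcastc]
      refine le_trans ?_ (nza_i (n := n) ha₁1 hDD hη0 hηa (hA2 a₁ (by omega)) hB1)
      exact_mod_cast (hρ1 f).2) hRne _ hvan
  have h1 : δ / (2 * n) * ((2 * n * D : ℕ) : ℝ) = δ * D := by
    push_cast
    field_simp
  rw [h1] at hfin
  have h2 := Nat.lt_floor_add_one (δ * D)
  push_cast at hfin
  linarith

end Pool.Agent.H97.ZE
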