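import Pool.Agent.H97.ZE.NZA
import Pool.Agent.H97.ZE.IRR

/-! # [H97 ZE NZB] Chapter NZ: the zero estimate

`irr_of_hyp`; `nzd` with `C₀ = j + 1`, `N0' = ⌈Q N0⌉₊ + ⌈N0⌉₊` (natural), `δ = del / Q`: `d`. Given `ε`: `η', A0', D0` of `nzd`. `η = min (η' / 2) (η' / (2 (|N0| + 1)))`,
`A0 = A0' + 3`, `R = D0 + 3`.
Let `L = log a₁ ≥ 1` (`a₁ ≥ 3`), `log a₂ ≥ R L ≥ L`, so `a₂ ≥ a₁ ≥ A0'`. `Υ ≥ log a₂ ≥ (D0 + 3) L`. `D = ⌊Q Υ / L⌋₊`: `D ≥ D0`, `D ≤ Q Υ / L`, `D ≥ Q Υ / L - 1 ≥ Υ / (2 L)`.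
* `|x₁| ≤ a₁^(j + 1)`: from `|x₁|^Q ≤ a₁^(j + 1)`, `Q ≥ 1` (`|x₁| ≤ |x₁|^Q` for integers).
* `I₁ L ≤ Υ`: `I₁ ≤ D`. `log |x₁| ≥ (j / Q) L ≥ L / Q` (`a₁^j ≤ |x₁|^Q`): `M₁ ≤ Q Υ / L`, `M₁ ≤ D` (natural number). `I₂ ≤ Υ / log a₂ ≤ N0`, `M₂ ≤ Q N0`.
* `Gen`: the two definitions agree (`Polynomial.evalEval`, `|((a : ℤ) : ℝ)| = a`; names of the indices `i`, `j` exchanged).
* `exp (η Υ) ≤ a₁^(η' D)`: `η Υ ≤ η' D L` because `D L ≥ Υ / 2`; `exp (η Υ) ≤ a₂^η'`: `η Υ ≤ η |N0| log a₂ ≤ η' log a₂`.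
* conclusion: `(ν 0 + ν 1) ≤ (del / Q) D`, so `(ν 0 + ν 1) L ≤ (del / Q) (Q Υ) = del Υ`. -/

namespace Pool.Agent.H97.ZE

open Finset Polynomial Pool.Agent.H37.TE Pool.Agent.H98.TE Pool.Agent.H4.TP Pool.Agent.H98.XG

private theorem gen_of {d : ℕ} {ε : ℝ} {a : ℕ} {x : ℤ} (h : Pool.Agent.H98.XG.Gen d ε a x) :
    ZE.Gen d ε (a : ℤ) x := by
  intro G hG h1 h2 h3
  obtain ⟨i, j, hij⟩ := h G hG h1 h2 h3
  refine ⟨j, i, ?_⟩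
  rw [Int.cast_natCast, Nat.abs_cast]
  exact hij

private theorem log_le_of_pow {a Q j : ℕ} {x : ℤ} (ha : 1 ≤ a) (hj : 1 ≤ j)
    (h : (a : ℤ) ^ j ≤ |x| ^ Q) : Real.log a ≤ Q * Real.log |(x : ℝ)| := by
  have haR : (1 : ℝ) ≤ a := by exact_mod_cast ha
  have h1 : (a : ℝ) ^ j ≤ |(x : ℝ)| ^ Q := by exact_mod_cast h
  have h2 : (a : ℝ) ≤ |(x : ℝ)| ^ Q := (le_self_pow₀ haR (by omega)).trans h1
  have h3 := Real.log_le_log (by linarith) h2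
  rwa [Real.log_pow] at h3

/-- CHAPTER NZ -/
theorem nz {n m : ℕ} {F : ℤ[X][X][X]} (hn : 1 ≤ n) (h : HypG n m F) : NZ n F := by
  intro Q j del N0 hQ hj hdel
  obtain ⟨hF, hirr⟩ := irr_of_hyp hn h
  have hQ1 : (1 : ℝ) ≤ Q := by exact_mod_cast hQ
  have hQ0 : (0 : ℝ) < Q := by linarith
  obtain ⟨d, hd⟩ := nzd hn hF hirr (j + 1) (⌈(Q : ℝ) * N0⌉₊ + ⌈N0⌉₊) (del / Q) (by positivity)
  refine ⟨d, fun ε hε => ?_⟩
  obtain ⟨η', hη', A0', D0, hmain⟩ := hd ε hε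
  have hN1 : 0 < |N0| + 1 := by positivity
  refine ⟨η' / (2 * (|N0| + 1)), by positivity, A0' + 3, (D0 : ℝ) + 3, ?_⟩
  intro a₁ a₂ x₁ y₁ x₂ y₂ ha₁ ha₂ hx1 hx1' hx2 hx2' hG1 hG2 hfy hev Y₁ hY Υ I₁ M₁ I₂ M₂ hS c hc hcb
  have ha3 : (3 : ℝ) ≤ a₁ := by exact_mod_cast (by omega : 3 ≤ a₁)
  have ha0 : (0 : ℝ) < a₁ := by linarith
  obtain ⟨L, hL⟩ : ∃ L : ℝ, L = Real.log a₁ := ⟨_, rfl⟩
  obtain ⟨L2, hL2⟩ : ∃ L : ℝ, L = Real.log a₂ := ⟨_, rfl⟩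
  have hL1 : 1 ≤ L := by
    rw [hL, Real.le_log_iff_exp_le ha0]
    linarith [Real.exp_one_lt_d9]
  have hL0 : 0 < L := by linarith
  have hS1 := hS.lo
  have hS2 := hS.hi
  have hS3 := hS.I1
  have hS4 := hS.M1
  have hS5 := hS.I2
  have hS6 := hS.M2
  rw [← hL, ← hL2] at ha₂
  rw [← hL2] at hS1 hS2 hS5
  rw [← hL] at hS3
  have hD0 : (0 : ℝ) ≤ D0 := Nat.cast_nonneg _
  have hL2L : (D0 + 3) * L ≤ L2 := ha₂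
  have hLL2 : L ≤ L2 := by nlinarith
  have hL20 : 0 < L2 := by linarith
  have ha20 : (0 : ℝ) < a₂ := by
    rcases Nat.eq_zero_or_pos a₂ with h0 | h0
    · rw [h0, Nat.cast_zero, Real.log_zero] at hL2
      linarith
    · exact_mod_cast h0
  have ha12 : a₁ ≤ a₂ := by
    have h1 : (a₁ : ℝ) ≤ a₂ := by
      rw [← Real.log_le_log_iff ha0 ha20, ← hL, ← hL2]
      exact hLL2
    exact_mod_cast h1
  have hΥ : (D0 + 3) * L ≤ Υ := hL2L.trans hS1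
  have hΥ0 : 0 < Υ := by nlinarith
  set D : ℕ := ⌊(Q : ℝ) * Υ / L⌋₊ with hD
  have hq0 : 0 ≤ (Q : ℝ) * Υ / L := by positivity
  have hDle : (D : ℝ) ≤ Q * Υ / L := Nat.floor_le hq0
  have hDle' : (D : ℝ) * L ≤ Q * Υ := by rwa [le_div_iff₀ hL0] at hDle
  have hDlt : Q * Υ / L < (D : ℝ) + 1 := Nat.lt_floor_add_one _
  have hDlt' : (Q : ℝ) * Υ < (D + 1) * L := by rwa [div_lt_iff₀ hL0] at hDlt
  have hQΥ : Υ ≤ Q * Υ := by nlinarith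
  have hDD0 : D0 ≤ D := by
    refine Nat.le_floor ?_
    rw [le_div_iff₀ hL0]
    nlinarith
  have hDL : Υ ≤ 2 * (D * L) := by nlinarith
  have hlx1 : L ≤ Q * Real.log |(x₁ : ℝ)| := by
    rw [hL]
    exact log_le_of_pow (by omega) hj hx1
  have hlx2 : L2 ≤ Q * Real.log |(x₂ : ℝ)| := by
    rw [hL2]
    exact log_le_of_pow (by omega) hj hx2
  have hI1 : I₁ ≤ D := by
    refine Nat.le_floor ?_
    rw [le_div_iff₀ hL0]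
    linarith
  have hM1 : M₁ ≤ D := by
    refine Nat.le_floor ?_
    rw [le_div_iff₀ hL0]
    have h1 : (0 : ℝ) ≤ M₁ := Nat.cast_nonneg _
    calc (M₁ : ℝ) * L ≤ M₁ * (Q * Real.log |(x₁ : ℝ)|) := by gcongr
      _ = Q * (M₁ * Real.log |(x₁ : ℝ)|) := by ring
      _ ≤ Q * Υ := by gcongr
  have hI2 : I₂ ≤ ⌈(Q : ℝ) * N0⌉₊ + ⌈N0⌉₊ := by
    have h1 : (I₂ : ℝ) * L2 ≤ N0 * L2 := hS5.trans hS2
    have h2 : (I₂ : ℝ) ≤ N0 := le_of_mul_le_mul_right h1 hL20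
    have h3 : (I₂ : ℝ) ≤ (⌈N0⌉₊ : ℝ) := h2.trans (Nat.le_ceil _)
    have h4 : I₂ ≤ ⌈N0⌉₊ := by exact_mod_cast h3
    omega
  have hM2 : M₂ ≤ ⌈(Q : ℝ) * N0⌉₊ + ⌈N0⌉₊ := by
    have h0 : (0 : ℝ) ≤ M₂ := Nat.cast_nonneg _
    have h1 : (M₂ : ℝ) * L2 ≤ Q * N0 * L2 := by
      calc (M₂ : ℝ) * L2 ≤ M₂ * (Q * Real.log |(x₂ : ℝ)|) := by gcongr
        _ = Q * (M₂ * Real.log |(x₂ : ℝ)|) := by ring
        _ ≤ Q * Υ := by gcongr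
        _ ≤ Q * (N0 * L2) := by gcongr
        _ = Q * N0 * L2 := by ring
    have h2 : (M₂ : ℝ) ≤ Q * N0 := le_of_mul_le_mul_right h1 hL20
    have h3 : (M₂ : ℝ) ≤ (⌈(Q : ℝ) * N0⌉₊ : ℝ) := h2.trans (Nat.le_ceil _)
    have h4 : M₂ ≤ ⌈(Q : ℝ) * N0⌉₊ := by exact_mod_cast h3
    omega
  have hx1a : |x₁| ≤ (a₁ : ℤ) ^ (j + 1) := by
    refine le_trans ?_ hx1'
    rcases eq_or_lt_of_le (abs_nonneg x₁) with h0 | h0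
    · rw [← h0, zero_pow (by omega)]
    · exact le_self_pow₀ h0 (by omega)
  have hηη : η' / (2 * (|N0| + 1)) ≤ η' / 2 := by
    refine div_le_div_of_nonneg_left hη'.le (by norm_num) ?_
    have := abs_nonneg N0
    linarith
  have hηN : η' / (2 * (|N0| + 1)) * N0 ≤ η' := by
    have h1 : η' / (2 * (|N0| + 1)) * N0 ≤ η' / (2 * (|N0| + 1)) * |N0| := by
      have := le_abs_self N0
      gcongr
    refine h1.trans ?_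
    rw [div_mul_eq_mul_div, div_le_iff₀ (by positivity)]
    have := abs_nonneg N0
    nlinarith
  have hfin := hmain a₁ a₂ x₁ y₁ x₂ y₂ (by omega) (by omega) hx1a (gen_of hG1)
    (gen_of hG2) hev Y₁ hY D I₁ M₁ I₂ M₂ hDD0 hI1 hM1 hI2 hM2 c hc ?_ ?_
  · obtain ⟨ν, hν1, hν2⟩ := hfin
    refine ⟨ν, ?_, hν2⟩
    rw [← hL]
    calc ((ν 0 + ν 1 : ℕ) : ℝ) * L ≤ del / Q * D * L := by gcongr
      _ = del / Q * (D * L) := by ring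
      _ ≤ del / Q * (Q * Υ) := by gcongr
      _ = del * Υ := by field_simp
  · intro l l'
    refine (hcb l l').trans ?_
    rw [Real.rpow_def_of_pos ha0, ← hL]
    refine Real.exp_le_exp.2 ?_
    calc η' / (2 * (|N0| + 1)) * Υ ≤ η' / 2 * Υ := by gcongr
      _ ≤ η' / 2 * (2 * (D * L)) := by gcongr
      _ = L * (η' * D) := by ring
  · intro l l'
    refine (hcb l l').trans ?_
    rw [Real.rpow_def_of_pos ha20, ← hL2]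
    refine Real.exp_le_exp.2 ?_
    calc η' / (2 * (|N0| + 1)) * Υ ≤ η' / (2 * (|N0| + 1)) * (N0 * L2) := by gcongr
      _ = η' / (2 * (|N0| + 1)) * N0 * L2 := by ring
      _ ≤ η' * L2 := by gcongr
      _ = L2 * η' := by ring

end Pool.Agent.H97.ZE
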