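import Pool.Agent.H97.ZE.Defs

/-! # [H97 ZE TY] Taylor coefficients and derivatives

* `dt` is coefficientwise `Polynomial.derivative` (`coeff_dt`): so it is additive and a derivation (`dt_mul`: compare coefficients,
  `Polynomial.coeff_mul`, `derivative_mul`).
* `sh a x` is a ring homomorphism with inverse `sh (-a) (-x)`: `sh_inj` (`Polynomial.ringHom_ext'`).
* `sh_derivative`, `sh_dt`: both sides are additive and agree on `C (C c)`, `C X`, `X` and products (derivation rule); e.g. by
  induction on the polynomial (`Polynomial.induction_on`, for the coefficients again), or by `sh a x g = (g.map (inner shift)).comp (X + C (C x))`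
  (`Polynomial.derivative_comp`, `Polynomial.derivative_map`).
* `tc_derivative`, `tc_dt`: `Polynomial.coeff_derivative`.
* `ev_Dn`: iterate, and `tc a x g 0 0 = ev2 a x g`.
* `van_hasse`: `sh a x (hasseDeriv μ g) = hasseDeriv μ (sh a x g)` (e.g. because `μ! • hasseDeriv μ = derivative^[μ]`,
  `Polynomial.factorial_smul_hasseDeriv`, and `ℤ[X][X]` has no torsion) and `Polynomial.hasseDeriv_coeff`.
* `exists_pt`: a non-zero polynomial over an infinite domain has a point where it does not vanish (twice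
  `Polynomial.funext` or `Polynomial.eq_zero_of_infinite_isRoot`). -/

namespace Pool.Agent.H97.ZE

open Finset Polynomial

theorem coeff_dt (g : ℤ[X][X]) (j : ℕ) : (dt g).coeff j = derivative (g.coeff j) := by
  unfold dt
  rw [finsetSum_coeff]
  simp only [coeff_monomial]
  rw [Finset.sum_ite_eq']
  split_ifs with h
  · rfl
  · rw [Finset.mem_range, not_lt] at h
    rw [coeff_eq_zero_of_natDegree_lt (by omega), derivative_zero]

theorem dt_zero : dt 0 = 0 := by
  ext j : 1
  rw [coeff_dt, coeff_zero, derivative_zero]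

theorem dt_add (g h : ℤ[X][X]) : dt (g + h) = dt g + dt h := by
  ext j : 1
  rw [coeff_dt, coeff_add, coeff_add, coeff_dt, coeff_dt, derivative_add]

theorem dt_sum {ι : Type*} (s : Finset ι) (f : ι → ℤ[X][X]) : dt (∑ i ∈ s, f i) = ∑ i ∈ s, dt (f i) := by
  classical
  induction s using Finset.induction_on with
  | empty => rw [Finset.sum_empty, Finset.sum_empty, dt_zero]
  | insert i s hi ih => rw [Finset.sum_insert hi, Finset.sum_insert hi, dt_add, ih]

theorem dt_mul (g h : ℤ[X][X]) : dt (g * h) = dt g * h + g * dt h := by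
  ext j : 1
  rw [coeff_dt, coeff_add, coeff_mul, coeff_mul, coeff_mul, derivative_sum,
    ← Finset.sum_add_distrib]
  refine Finset.sum_congr rfl fun i _ => ?_
  rw [derivative_mul, coeff_dt, coeff_dt]

theorem dt_derivative (g : ℤ[X][X]) : dt (derivative g) = derivative (dt g) := by
  ext j : 1
  rw [coeff_dt, coeff_derivative, coeff_derivative, coeff_dt, derivative_mul]
  have h : derivative ((j : ℤ[X]) + 1) = 0 := by
    rw [derivative_add, derivative_natCast, derivative_one, add_zero]
  rw [h, mul_zero, add_zero]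

private theorem sh_eq (a x : ℤ) (g : ℤ[X][X]) :
    sh a x g = (g.map (eval₂RingHom (C : ℤ →+* ℤ[X]) (X + C a))).comp (X + C (C x)) := by
  unfold sh
  rw [coe_eval₂RingHom, comp, eval₂_map]

private theorem dt_C (p : ℤ[X]) : dt (C p) = C (derivative p) := by
  ext j : 1
  rw [coeff_dt, coeff_C, coeff_C]
  split_ifs
  · rfl
  · exact derivative_zero

private theorem dt_X : dt (X : ℤ[X][X]) = 0 := by
  ext j : 1
  rw [coeff_dt, coeff_X, coeff_zero]
  split_ifs
  · exact derivative_one
  · exact derivative_zero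

private theorem tc_add (a x : ℤ) (g h : ℤ[X][X]) (i j : ℕ) :
    tc a x (g + h) i j = tc a x g i j + tc a x h i j := by
  unfold tc
  rw [map_add, coeff_add, coeff_add]

private theorem tc_zsmul (a x u : ℤ) (g : ℤ[X][X]) (i j : ℕ) :
    tc a x (u • g) i j = u * tc a x g i j := by
  unfold tc
  rw [map_zsmul, coeff_smul, coeff_smul, smul_eq_mul]

private theorem iter_sum (φ : ℤ[X][X] →+ ℤ[X][X]) (n : ℕ) {ι : Type*} (s : Finset ι) (u : ι → ℤ)
    (f : ι → ℤ[X][X]) : φ^[n] (∑ i ∈ s, u i • f i) = ∑ i ∈ s, u i • φ^[n] (f i) := by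
  induction n with
  | zero => rfl
  | succ n ih =>
    rw [Function.iterate_succ_apply', ih, map_sum]
    refine Finset.sum_congr rfl fun i _ => ?_
    rw [map_zsmul, Function.iterate_succ_apply']

/-- `Dn` is linear over the integers -/
theorem Dn_sum_zsmul {ι : Type*} (ν : ℕ × ℕ) (s : Finset ι) (u : ι → ℤ) (f : ι → ℤ[X][X]) :
    Dn ν (∑ i ∈ s, u i • f i) = ∑ i ∈ s, u i • Dn ν (f i) := by
  unfold Dn
  have h1 := iter_sum (derivative (R := ℤ[X])).toAddMonoidHom ν.2 s u f
  have h2 := iter_sum (AddMonoidHom.mk' dt dt_add) ν.1 s u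
    (fun i => (⇑(derivative (R := ℤ[X])))^[ν.2] (f i))
  have e1 : (⇑(derivative (R := ℤ[X])))^[ν.2] (∑ i ∈ s, u i • f i) =
    ∑ i ∈ s, u i • (⇑(derivative (R := ℤ[X])))^[ν.2] (f i) := h1
  rw [e1]
  exact h2

theorem Dn_zero (g : ℤ[X][X]) : Dn (0, 0) g = g := by
  rfl

theorem dt_Dn (ν : ℕ × ℕ) (g : ℤ[X][X]) : dt (Dn ν g) = Dn (ν.1 + 1, ν.2) g := by
  unfold Dn
  rw [Function.iterate_succ_apply']

theorem derivative_Dn (ν : ℕ × ℕ) (g : ℤ[X][X]) : derivative (Dn ν g) = Dn (ν.1, ν.2 + 1) g := by
  unfold Dn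
  have h : Function.Commute dt (⇑(derivative (R := ℤ[X]))) := fun g => dt_derivative g
  have h1 := (h.iterate_left ν.1) ((⇑(derivative (R := ℤ[X])))^[ν.2] g)
  rw [← h1, Function.iterate_succ_apply']

private theorem shC (a x : ℤ) (p : ℤ[X]) : sh a x (C p) = C (p.comp (X + C a)) := by
  unfold sh
  rw [coe_eval₂RingHom, eval₂_C]
  rfl

private theorem shX (a x : ℤ) : sh a x X = X + C (C x) := by
  unfold sh
  rw [coe_eval₂RingHom, eval₂_X]

theorem sh_inj (a x : ℤ) : Function.Injective (sh a x) := by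
  have h : (sh (-a) (-x)).comp (sh a x) = RingHom.id _ := by
    refine Polynomial.ringHom_ext' ?_ ?_
    · refine RingHom.ext fun p => ?_
      rw [RingHom.comp_apply, RingHom.comp_apply, shC, shC, comp_assoc, add_comp, X_comp, C_comp,
        add_assoc, ← C_add, neg_add_cancel, C_0, add_zero, comp_X]
      rfl
    · rw [RingHom.comp_apply, shX, map_add, shX, shC, C_comp, add_assoc, ← C_add, ← C_add,
        neg_add_cancel, C_0, C_0, add_zero]
      rfl
  intro f g hfg
  have h1 := congrArg (sh (-a) (-x)) hfg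
  rw [← RingHom.comp_apply, ← RingHom.comp_apply, h] at h1
  exact h1

theorem sh_C (a x : ℤ) (p : ℤ[X]) : sh a x (C p) = C (p.comp (X + C a)) := by
  unfold sh
  rw [coe_eval₂RingHom, eval₂_C]
  rfl

theorem sh_derivative (a x : ℤ) (g : ℤ[X][X]) : sh a x (derivative g) = derivative (sh a x g) := by
  rw [sh_eq, sh_eq, derivative_comp, derivative_add, derivative_X, derivative_C, add_zero,
    one_mul, derivative_map]

theorem sh_dt (a x : ℤ) (g : ℤ[X][X]) : sh a x (dt g) = dt (sh a x g) := by
  have hC : ∀ p : ℤ[X], sh a x (dt (C p)) = dt (sh a x (C p)) := by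
    intro p
    rw [dt_C, sh_C, sh_C, dt_C, derivative_comp, derivative_add, derivative_X, derivative_C,
      add_zero, one_mul]
  have hX : sh a x (dt X) = dt (sh a x X) := by
    have e1 : sh a x X = X + C (C x) := by
      unfold sh
      rw [coe_eval₂RingHom, eval₂_X]
    rw [dt_X, map_zero, e1, dt_add, dt_X, dt_C, derivative_C, C_0, add_zero]
  have hmul : ∀ f h : ℤ[X][X], sh a x (dt f) = dt (sh a x f) → sh a x (dt h) = dt (sh a x h) →
      sh a x (dt (f * h)) = dt (sh a x (f * h)) := by
    intro f h hf hh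
    rw [dt_mul, map_add, map_mul, map_mul, map_mul, dt_mul, hf, hh]
  have hone : sh a x (dt 1) = dt (sh a x 1) := hC 1
  have hXn : ∀ n : ℕ, sh a x (dt (X ^ n)) = dt (sh a x (X ^ n)) := by
    intro n
    induction n with
    | zero => rw [pow_zero]; exact hone
    | succ n ih => rw [pow_succ]; exact hmul _ _ ih hX
  induction g using Polynomial.induction_on' with
  | add f h hf hh => rw [dt_add, map_add, map_add, dt_add, hf, hh]
  | monomial n p =>
    rw [← C_mul_X_pow_eq_monomial]
    exact hmul _ _ (hC p) (hXn n)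

theorem tc_zero_zero (a x : ℤ) (g : ℤ[X][X]) : tc a x g 0 0 = ev2 a x g := by
  have h : (constantCoeff.comp (constantCoeff.comp (sh a x))) =
      (evalRingHom a).comp (evalRingHom (C x)) := by
    ext <;> simp [sh]
  exact DFunLike.congr_fun h g

theorem tc_derivative (a x : ℤ) (g : ℤ[X][X]) (i j : ℕ) :
    tc a x (derivative g) i j = ((j : ℤ) + 1) * tc a x g i (j + 1) := by
  unfold tc
  rw [sh_derivative, coeff_derivative, ← Nat.cast_succ, coeff_mul_natCast]
  push_cast
  ring

theorem tc_dt (a x : ℤ) (g : ℤ[X][X]) (i j : ℕ) :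
    tc a x (dt g) i j = ((i : ℤ) + 1) * tc a x g (i + 1) j := by
  unfold tc
  rw [sh_dt, coeff_dt, coeff_derivative]
  ring

private theorem tc_der_iter (a x : ℤ) (n : ℕ) (g : ℤ[X][X]) (i j : ℕ) :
    (j.factorial : ℤ) * tc a x ((⇑(derivative (R := ℤ[X])))^[n] g) i j =
      ((j + n).factorial : ℤ) * tc a x g i (j + n) := by
  induction n generalizing j with
  | zero => rfl
  | succ n ih =>
    rw [Function.iterate_succ_apply', tc_derivative]
    have h1 := ih (j + 1)
    have h2 : ((j + 1).factorial : ℤ) = ((j : ℤ) + 1) * (j.factorial : ℤ) := by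
      rw [Nat.factorial_succ]
      push_cast
      ring
    have h3 : j + 1 + n = j + (n + 1) := by ring
    rw [h2, h3] at h1
    rw [← h1]
    ring

private theorem tc_dt_iter (a x : ℤ) (n : ℕ) (g : ℤ[X][X]) (i j : ℕ) :
    (i.factorial : ℤ) * tc a x (dt^[n] g) i j =
      ((i + n).factorial : ℤ) * tc a x g (i + n) j := by
  induction n generalizing i with
  | zero => rfl
  | succ n ih =>
    rw [Function.iterate_succ_apply', tc_dt]
    have h1 := ih (i + 1)
    have h2 : ((i + 1).factorial : ℤ) = ((i : ℤ) + 1) * (i.factorial : ℤ) := by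
      rw [Nat.factorial_succ]
      push_cast
      ring
    have h3 : i + 1 + n = i + (n + 1) := by ring
    rw [h2, h3] at h1
    rw [← h1]
    ring

theorem ev_Dn (a x : ℤ) (ν : ℕ × ℕ) (g : ℤ[X][X]) :
    ev2 a x (Dn ν g) = (ν.1.factorial : ℤ) * (ν.2.factorial : ℤ) * tc a x g ν.1 ν.2 := by
  rw [← tc_zero_zero]
  have h1 := tc_dt_iter a x ν.1 ((⇑(derivative (R := ℤ[X])))^[ν.2] g) 0 0
  have h2 := tc_der_iter a x ν.2 g ν.1 0
  rw [Nat.factorial_zero, Nat.cast_one, one_mul, zero_add] at h1 h2
  unfold Dn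
  rw [h1, h2]
  ring

variable {N M : ℕ} {a x : ℤ} {g h : ℤ[X][X]}

theorem van_mono (hg : Van N a x g) (h : M ≤ N) : Van M a x g := by
  intro i j hij
  exact hg i j (by omega)

theorem van_zero : Van N a x 0 := by
  intro i j _
  unfold tc
  rw [map_zero, coeff_zero, coeff_zero]

theorem van_add (hg : Van N a x g) (hh : Van N a x h) : Van N a x (g + h) := by
  intro i j hij
  rw [tc_add, hg i j hij, hh i j hij, add_zero]

theorem van_sum {ι : Type*} (s : Finset ι) (f : ι → ℤ[X][X]) (hf : ∀ i ∈ s, Van N a x (f i)) :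
    Van N a x (∑ i ∈ s, f i) := by
  classical
  induction s using Finset.induction_on with
  | empty => rw [Finset.sum_empty]; exact van_zero
  | insert i s hi ih =>
    rw [Finset.sum_insert hi]
    exact van_add (hf i (Finset.mem_insert_self i s))
      (ih fun k hk => hf k (Finset.mem_insert_of_mem hk))

theorem van_mul (g : ℤ[X][X]) (hh : Van N a x h) : Van N a x (g * h) := by
  intro i j hij
  unfold tc
  rw [map_mul, coeff_mul, finsetSum_coeff]
  refine Finset.sum_eq_zero fun p hp => ?_
  rw [coeff_mul]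
  refine Finset.sum_eq_zero fun r hr => ?_
  rw [Finset.HasAntidiagonal.mem_antidiagonal] at hp hr
  have h1 := hh r.2 p.2 (by omega)
  unfold tc at h1
  rw [h1, mul_zero]

/-- the factor is an integer -/
theorem van_of_zsmul {u : ℤ} (hu : u ≠ 0) (hh : Van N a x (u • h)) : Van N a x h := by
  intro i j hij
  have h1 := hh i j hij
  rw [tc_zsmul] at h1
  exact (mul_eq_zero.mp h1).resolve_left hu

theorem van_derivative (hg : Van (N + 1) a x g) : Van N a x (derivative g) := by
  intro i j hij
  rw [tc_derivative, hg i (j + 1) (by omega), mul_zero]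

theorem van_dt (hg : Van (N + 1) a x g) : Van N a x (dt g) := by
  intro i j hij
  rw [tc_dt, hg (i + 1) j (by omega), mul_zero]

private theorem van_der_iter (n : ℕ) : ∀ {N : ℕ} {g : ℤ[X][X]}, Van (N + n) a x g →
    Van N a x ((⇑(derivative (R := ℤ[X])))^[n] g) := by
  induction n with
  | zero => intro N g hg; exact hg
  | succ n ih =>
    intro N g hg
    rw [Function.iterate_succ_apply']
    apply van_derivative
    apply ih
    have h : N + 1 + n = N + (n + 1) := by ring
    rw [h]
    exact hg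

private theorem van_dt_iter (n : ℕ) : ∀ {N : ℕ} {g : ℤ[X][X]}, Van (N + n) a x g →
    Van N a x (dt^[n] g) := by
  induction n with
  | zero => intro N g hg; exact hg
  | succ n ih =>
    intro N g hg
    rw [Function.iterate_succ_apply']
    apply van_dt
    apply ih
    have h : N + 1 + n = N + (n + 1) := by ring
    rw [h]
    exact hg

theorem van_Dn (ν : ℕ × ℕ) (hg : Van (N + (ν.1 + ν.2)) a x g) : Van N a x (Dn ν g) := by
  unfold Dn
  apply van_dt_iter
  apply van_der_iter
  rw [add_assoc]
  exact hg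

theorem van_hasse (μ : ℕ) (hg : Van (N + μ) a x g) : Van N a x (hasseDeriv μ g) := by
  have h1 : ((μ.factorial : ℤ)) • hasseDeriv μ g = (⇑(derivative (R := ℤ[X])))^[μ] g := by
    rw [natCast_zsmul]
    exact congrFun (factorial_smul_hasseDeriv (R := ℤ[X]) μ) g
  refine van_of_zsmul (u := (μ.factorial : ℤ)) (by exact_mod_cast μ.factorial_ne_zero) ?_
  rw [h1]
  exact van_der_iter μ hg

/-- all derivatives at one point vanish only for `0` -/
theorem eq_zero_of_tc (h : ∀ i j, tc a x g i j = 0) : g = 0 := by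
  apply sh_inj a x
  rw [map_zero]
  ext j i
  rw [coeff_zero, coeff_zero]
  exact h i j

theorem exists_pt (hg : g ≠ 0) : ∃ a x : ℤ, ev2 a x g ≠ 0 := by
  by_contra hcon
  push Not at hcon
  apply hg
  refine eq_zero_of_infinite_isRoot g ?_
  refine Set.Infinite.mono (s := Set.range fun x : ℤ => (C x : ℤ[X])) ?_ ?_
  · rintro _ ⟨x, rfl⟩
    show g.eval (C x) = 0
    apply Polynomial.funext
    intro a
    rw [eval_zero]
    exact hcon a x
  · exact Set.infinite_range_of_injective C_injective

theorem ev2_mul (a x : ℤ) (g h : ℤ[X][X]) : ev2 a x (g * h) = ev2 a x g * ev2 a x h := by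
  unfold ev2
  rw [eval_mul, eval_mul]

theorem ev2_sum {ι : Type*} (a x : ℤ) (s : Finset ι) (f : ι → ℤ[X][X]) :
    ev2 a x (∑ i ∈ s, f i) = ∑ i ∈ s, ev2 a x (f i) := by
  unfold ev2
  rw [eval_finsetSum, eval_finsetSum]

theorem ev2_zsmul (a x u : ℤ) (g : ℤ[X][X]) : ev2 a x (u • g) = u * ev2 a x g := by
  have h1 : u • g = C (C u) * g := by
    rw [zsmul_eq_mul]
    simp
  unfold ev2
  rw [h1, eval_mul, eval_C, eval_mul, eval_C]

end Pool.Agent.H97.ZE
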