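import Pool.Agent.H97.ZE.SIQ
import Pool.Agent.H97.ZE.GLF
import Pool.Agent.H97.ZE.TY

/-! # [H97 ZE QEX] An irreducible small relation, smooth at `(a, x)`

`s q = q.natDegree + (degree in t of q)` (`= (Polynomial.Bivariate.swap q).natDegree`, so it is additive for products), `≤ 2 b` for `dg b q`. `K0` of `siq`, `M ≥ b + 1` of `glf`
(enlarge), `H = K0 |a|^((1+C)/b)`, `K = K0 M^(2 b)`. Class: `q ≠ 0`, `dg b q`, `ev2 a x q = 0`, `n2 q ≤ H M^(2 b - s q)`; not empty (`siq`).
Take a member with minimal `s q`, and among these with minimal `n2 q` (`Nat.find` twice, or the well-founded lexicographic order).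
* Every `q'` with `q' ≠ 0`, `dg b q'`, `ev2 a x q' = 0`, `n2 q' ≤ M n2 q`, `s q' < s q` would be in the class: impossible.
* Irreducible: `q` is not a unit (a unit is `C (C ±1)`, `ev2 ≠ 0`). `q = q1 q2`, no units: `ev2 a x q1 = 0`, say (`ev2_mul`), `n2 q1 ≤ M n2 q` and
  `dg b q1` (`glf`), `s q = s q1 + s q2`; so `s q2 = 0`, `q2 = C (C k)`, `|k| ≥ 2` (no unit), `n2 q = |k| n2 q1 > n2 q1`, `s q1 = s q`: `q1` is in
  the class with smaller `n2`.
* `ev2 a x (derivative q) ≠ 0`: if `derivative q ≠ 0`: it has smaller `s`, `n2 ≤ b n2 q ≤ M n2 q` (`n2_derivative`): its value is not `0`. If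
  `derivative q = 0`: `q = C p` (`natDegree_eq_zero_of_derivative_eq_zero`), `p(a) = 0`, `p ≠ 0`: `X - a ∣ p`, `|a| ≤ n1 p` (the lowest non-zero
  coefficient of `p` is divisible by `a`) `= n2 q ≤ H M^(2b) ≤ K |a|^((1+C)/b) < |a|`: contradiction.
* `0 < q.natDegree`: because `derivative q ≠ 0`. -/

set_option autoImplicit false

namespace Pool.Agent.H97.ZE

open Finset Polynomial

private theorem sw_coeff (q : ℤ[X][X]) (i j : ℕ) :
    ((Bivariate.swap q).coeff i).coeff j = (q.coeff j).coeff i := by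
  induction q using Polynomial.induction_on' with
  | add p q hp hq =>
    rw [map_add, coeff_add, coeff_add, coeff_add, coeff_add, hp, hq]
  | monomial n f =>
    induction f using Polynomial.induction_on' with
    | add f g hf hg =>
      rw [map_add, map_add, coeff_add, coeff_add, coeff_add, coeff_add, hf, hg]
    | monomial m r =>
      rw [Bivariate.swap_monomial_monomial, coeff_monomial, coeff_monomial]
      by_cases h1 : m = i
      · by_cases h2 : n = j
        · rw [if_pos h1, if_pos h2, coeff_monomial, coeff_monomial, if_pos h1, if_pos h2]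
        · rw [if_pos h1, if_neg h2, coeff_monomial, if_neg h2, coeff_zero]
      · by_cases h2 : n = j
        · rw [if_neg h1, if_pos h2, coeff_monomial, if_neg h1, coeff_zero]
        · rw [if_neg h1, if_neg h2, coeff_zero, coeff_zero]

/-- the degree in `t` -/
private noncomputable def td (q : ℤ[X][X]) : ℕ := (Bivariate.swap q).natDegree

private theorem td_le {q : ℤ[X][X]} {D : ℕ} (h : ∀ j, (q.coeff j).natDegree ≤ D) : td q ≤ D := by
  unfold td
  rw [natDegree_le_iff_coeff_eq_zero]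
  intro N hN
  ext j
  rw [sw_coeff, coeff_zero]
  exact coeff_eq_zero_of_natDegree_lt ((h j).trans_lt hN)

private theorem le_td (q : ℤ[X][X]) (j : ℕ) : (q.coeff j).natDegree ≤ td q := by
  rw [natDegree_le_iff_coeff_eq_zero]
  intro N hN
  rw [← sw_coeff, coeff_eq_zero_of_natDegree_lt hN, coeff_zero]

private theorem td_mul {p q : ℤ[X][X]} (hp : p ≠ 0) (hq : q ≠ 0) : td (p * q) = td p + td q := by
  unfold td
  rw [map_mul, natDegree_mul]
  · exact (map_ne_zero_iff _ (Bivariate.swap (R := ℤ)).injective).2 hp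
  · exact (map_ne_zero_iff _ (Bivariate.swap (R := ℤ)).injective).2 hq

/-- the sum of the degrees -/
private noncomputable def sd (q : ℤ[X][X]) : ℕ := q.natDegree + td q

private theorem sd_mul {p q : ℤ[X][X]} (hp : p ≠ 0) (hq : q ≠ 0) : sd (p * q) = sd p + sd q := by
  unfold sd
  rw [td_mul hp hq, natDegree_mul hp hq]
  ring

private theorem sd_le {q : ℤ[X][X]} {b : ℕ} (h : dg b q) : sd q ≤ 2 * b := by
  unfold sd
  have := td_le h.2
  have := h.1
  omega

private theorem sd_der {q : ℤ[X][X]} (h : derivative q ≠ 0) : sd (derivative q) < sd q := by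
  have h1 : q.natDegree ≠ 0 := by
    intro h0
    apply h
    rw [eq_C_of_natDegree_eq_zero h0, derivative_C]
  have h2 := natDegree_derivative_lt h1
  have h3 : td (derivative q) ≤ td q := by
    apply td_le
    intro j
    rw [coeff_derivative]
    have h4 : ((j : ℤ[X]) + 1) = C ((j : ℤ) + 1) := by
      rw [C_add, C_1]
      simp
    rw [h4]
    refine (natDegree_mul_le).trans ?_
    rw [natDegree_C, add_zero]
    exact le_td q (j + 1)
  unfold sd
  omega

private theorem n1_smul (k : ℤ) (p : ℤ[X]) : n1 (C k * p) = k.natAbs * n1 p := by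
  have h1 : (C k * p).support ⊆ p.support := by
    intro i hi
    rw [mem_support_iff] at hi ⊢
    intro h0
    apply hi
    rw [coeff_C_mul, h0, mul_zero]
  rw [n1_eq _ h1, n1, Finset.mul_sum]
  refine Finset.sum_congr rfl fun i _ => ?_
  rw [coeff_C_mul, Int.natAbs_mul]

private theorem n2_smul (k : ℤ) (q : ℤ[X][X]) : n2 (C (C k) * q) = k.natAbs * n2 q := by
  have h1 : (C (C k) * q).support ⊆ q.support := by
    intro i hi
    rw [mem_support_iff] at hi ⊢
    intro h0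
    apply hi
    rw [coeff_C_mul, h0, mul_zero]
  rw [n2_eq _ h1, n2, Finset.mul_sum]
  refine Finset.sum_congr rfl fun i _ => ?_
  rw [coeff_C_mul, n1_smul]

private theorem root_le {p : ℤ[X]} (hp : p ≠ 0) {a : ℤ} (ha : a ≠ 0) (h : p.eval a = 0) :
    a.natAbs ≤ n1 p := by
  obtain ⟨q, hq, hnd⟩ := exists_eq_pow_rootMultiplicity_mul_and_not_dvd p hp 0
  rw [C_0, sub_zero] at hq hnd
  set n := rootMultiplicity 0 p
  have h1 : q.coeff 0 ≠ 0 := by
    intro h0
    exact hnd (X_dvd_iff.2 h0)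
  have h2 : q.eval a = 0 := by
    rw [hq, eval_mul, eval_pow, eval_X] at h
    exact (mul_eq_zero.1 h).resolve_left (pow_ne_zero _ ha)
  have h3 := sub_dvd_eval_sub a 0 q
  rw [h2, sub_zero, zero_sub, ← coeff_zero_eq_eval_zero, dvd_neg] at h3
  have h4 : q.coeff 0 = p.coeff n := by
    rw [hq, coeff_X_pow_mul', if_pos le_rfl, Nat.sub_self]
  rw [h4] at h1 h3
  exact (Nat.le_of_dvd (Int.natAbs_pos.2 h1) (Int.natAbs_dvd_natAbs.2 h3)).trans (coeff_le_n1 p n)

private theorem ev2_C (a x : ℤ) (p : ℤ[X]) : ev2 a x (C p) = p.eval a := by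
  unfold ev2
  rw [eval_C]

theorem qex (C₀ b : ℕ) (hb : 1 ≤ b) : ∃ K : ℕ, 1 ≤ K ∧ ∀ a x : ℤ, a ≠ 0 → |x| ≤ |a| ^ C₀ →
    (K : ℝ) * |(a : ℝ)| ^ ((1 + (C₀ : ℝ)) / b) < |(a : ℝ)| →
    ∃ q : ℤ[X][X], Irreducible q ∧ dg b q ∧ 0 < q.natDegree ∧ ev2 a x q = 0 ∧
      ev2 a x (derivative q) ≠ 0 ∧ (n2 q : ℝ) ≤ K * |(a : ℝ)| ^ ((1 + (C₀ : ℝ)) / b) := by
  obtain ⟨K0, hK0, hsiq⟩ := siq C₀ b hb
  obtain ⟨M0, hM0, hglf0⟩ := glf b
  obtain ⟨M, hM⟩ : ∃ M : ℕ, M = M0 + b := ⟨_, rfl⟩
  have hM1 : 1 ≤ M := by omega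
  have hMb : b ≤ M := by omega
  have hM1R : (1 : ℝ) ≤ M := by exact_mod_cast hM1
  have hglf : ∀ f g h : ℤ[X][X], f ≠ 0 → dg b f → f = g * h → dg b g ∧ n2 g ≤ M * n2 f := by
    intro f g h h1 h2 h3
    obtain ⟨h4, h5⟩ := hglf0 f g h h1 h2 h3
    refine ⟨h4, h5.trans (Nat.mul_le_mul_right _ (by omega))⟩
  refine ⟨K0 * M ^ (2 * b), Nat.one_le_iff_ne_zero.2 (by positivity), fun a x ha hx hlt => ?_⟩
  obtain ⟨H, hH⟩ : ∃ H : ℝ, H = K0 * |(a : ℝ)| ^ ((1 + (C₀ : ℝ)) / b) := ⟨_, rfl⟩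
  have hH0 : 0 ≤ H := by rw [hH]; positivity
  have hKH : ((K0 * M ^ (2 * b) : ℕ) : ℝ) * |(a : ℝ)| ^ ((1 + (C₀ : ℝ)) / b) =
      H * (M : ℝ) ^ (2 * b) := by
    rw [hH]
    push_cast
    ring
  rw [hKH] at hlt ⊢
  let Cl : ℤ[X][X] → Prop := fun q => q ≠ 0 ∧ dg b q ∧ ev2 a x q = 0 ∧
    (n2 q : ℝ) ≤ H * (M : ℝ) ^ (2 * b - sd q)
  have hex : ∃ m, ∃ q, Cl q ∧ sd q = m := by
    obtain ⟨q, h1, h2, h3, h4⟩ := hsiq a x ha hx
    refine ⟨sd q, q, ⟨h1, h2, h3, ?_⟩, rfl⟩
    rw [← hH] at h4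
    exact h4.trans (le_mul_of_one_le_right hH0 (one_le_pow₀ hM1R))
  classical
  obtain ⟨m, hm⟩ : ∃ m, m = Nat.find hex := ⟨_, rfl⟩
  have hex2 : ∃ k, ∃ q, (Cl q ∧ sd q = m) ∧ n2 q = k := by
    obtain ⟨q, hq1, hq2⟩ := Nat.find_spec hex
    rw [← hm] at hq2
    exact ⟨n2 q, q, ⟨hq1, hq2⟩, rfl⟩
  obtain ⟨q, ⟨hq, hqm⟩, hqn⟩ := Nat.find_spec hex2
  have hmin1 : ∀ q', Cl q' → m ≤ sd q' := by
    intro q' h
    rw [hm]
    exact Nat.find_min' hex ⟨q', h, rfl⟩
  have hmin2 : ∀ q', Cl q' → sd q' = m → n2 q ≤ n2 q' := by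
    intro q' h h'
    rw [hqn]
    exact Nat.find_min' hex2 ⟨q', ⟨h, h'⟩, rfl⟩
  obtain ⟨hq0, hqd, hqe, hqs⟩ := hq
  have hsb := sd_le hqd
  -- no smaller members
  have hA : ∀ q', q' ≠ 0 → dg b q' → ev2 a x q' = 0 → n2 q' ≤ M * n2 q → sd q' < sd q → False := by
    intro q' h1 h2 h3 h4 h5
    have h6 : Cl q' := by
      refine ⟨h1, h2, h3, ?_⟩
      have h7 : (n2 q' : ℝ) ≤ M * n2 q := by exact_mod_cast h4
      calc (n2 q' : ℝ) ≤ M * n2 q := h7
        _ ≤ M * (H * (M : ℝ) ^ (2 * b - sd q)) := mul_le_mul_of_nonneg_left hqs (by positivity)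
        _ = H * (M : ℝ) ^ (2 * b - sd q + 1) := by rw [pow_succ]; ring
        _ ≤ H * (M : ℝ) ^ (2 * b - sd q') := by
          refine mul_le_mul_of_nonneg_left ?_ hH0
          exact pow_le_pow_right₀ hM1R (by omega)
    have h7 := hmin1 q' h6
    omega
  -- one factor
  have hB : ∀ q1 q2, q = q1 * q2 → ev2 a x q1 = 0 → IsUnit q2 := by
    intro q1 q2 h12 he1
    have hq1 : q1 ≠ 0 := by
      rintro rfl
      exact hq0 (by rw [h12, zero_mul])
    have hq2 : q2 ≠ 0 := by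
      rintro rfl
      exact hq0 (by rw [h12, mul_zero])
    obtain ⟨hd1, hn1⟩ := hglf q q1 q2 hq0 hqd h12
    have hs : sd q = sd q1 + sd q2 := by rw [h12, sd_mul hq1 hq2]
    have hs2 : sd q2 = 0 := by
      by_contra hne
      exact hA q1 hq1 hd1 he1 hn1 (by omega)
    have hs2' : q2.natDegree = 0 ∧ td q2 = 0 := by
      unfold sd at hs2
      omega
    obtain ⟨k, hk⟩ : ∃ k : ℤ, q2 = C (C k) := by
      have h1 := eq_C_of_natDegree_eq_zero hs2'.1
      have h2 : (q2.coeff 0).natDegree = 0 := by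
        have := le_td q2 0
        omega
      have h3 := eq_C_of_natDegree_eq_zero h2
      exact ⟨(q2.coeff 0).coeff 0, by rw [← h3, ← h1]⟩
    have hk0 : k ≠ 0 := by
      rintro rfl
      exact hq2 (by rw [hk, C_0, C_0])
    by_cases hku : IsUnit k
    · rw [hk]
      exact (hku.map C).map C
    · exfalso
      have hk2 : 2 ≤ k.natAbs := by
        have h1 : k.natAbs ≠ 0 := Int.natAbs_ne_zero.2 hk0
        have h2 : k.natAbs ≠ 1 := fun h => hku (Int.isUnit_iff_natAbs_eq.2 h)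
        omega
      have hn : n2 q = k.natAbs * n2 q1 := by
        rw [h12, hk, mul_comm, n2_smul]
      have hn1' := n2_pos hq1
      have hlt : n2 q1 < n2 q := by
        rw [hn]
        nlinarith
      have h3 : n2 q ≤ n2 q1 := by
        refine hmin2 q1 ⟨hq1, hd1, he1, ?_⟩ (by omega)
        have h4 : (n2 q1 : ℝ) ≤ n2 q := by exact_mod_cast hlt.le
        have h5 : sd q1 = sd q := by omega
        rw [h5]
        exact h4.trans hqs
      omega
  have hpow : (M : ℝ) ^ (2 * b - sd q) ≤ (M : ℝ) ^ (2 * b) :=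
    pow_le_pow_right₀ hM1R (Nat.sub_le _ _)
  have hqK : (n2 q : ℝ) ≤ H * (M : ℝ) ^ (2 * b) := hqs.trans (mul_le_mul_of_nonneg_left hpow hH0)
  have hder : ev2 a x (derivative q) ≠ 0 := by
    intro h0
    by_cases hd : derivative q = 0
    · have h1 : q.natDegree = 0 := derivative_eq_zero.1 hd
      have h2 := eq_C_of_natDegree_eq_zero h1
      have h3 : q.coeff 0 ≠ 0 := by
        intro h
        exact hq0 (by rw [h2, h, C_0])
      have h4 : (q.coeff 0).eval a = 0 := by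
        rw [← ev2_C a x, ← h2]
        exact hqe
      have h5 := root_le h3 ha h4
      have h6 : n1 (q.coeff 0) = n2 q := by
        conv_rhs => rw [h2]
        rw [n2_C]
      rw [h6] at h5
      have h7 : |(a : ℝ)| ≤ n2 q := by
        have : ((a.natAbs : ℕ) : ℝ) = |(a : ℝ)| := by
          rw [Nat.cast_natAbs]
          simp
        rw [← this]
        exact_mod_cast h5
      linarith
    · refine hA (derivative q) hd (dg_derivative hqd) h0 ?_ (sd_der hd)
      exact (n2_derivative hqd).trans (Nat.mul_le_mul_right _ hMb)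
  refine ⟨q, ?_, hqd, ?_, hqe, hder, hqK⟩
  · rw [irreducible_iff]
    constructor
    · intro hu
      have h1 : IsUnit (((evalRingHom a).comp (evalRingHom (C x))) q) := hu.map _
      have h2 : ((evalRingHom a).comp (evalRingHom (C x))) q = 0 := hqe
      rw [h2] at h1
      exact not_isUnit_zero h1
    · intro q1 q2 h12
      have h1 : ev2 a x q1 * ev2 a x q2 = 0 := by
        rw [← ev2_mul, ← h12]
        exact hqe
      rcases mul_eq_zero.1 h1 with h | h
      · exact Or.inr (hB q1 q2 h12 h)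
      · exact Or.inl (hB q2 q1 (by rw [h12, mul_comm]) h)
  · rw [Nat.pos_iff_ne_zero]
    intro h0
    apply hder
    rw [eq_C_of_natDegree_eq_zero h0, derivative_C]
    unfold ev2
    simp

end Pool.Agent.H97.ZE
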