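import Pool.Agent.H97.ZE.TY

/-! # [H97 ZE ROT] The order of a polynomial `R(t)` in the ideal `(q, g)`

Apply `sh a x` to `C R = u q + v g`: `C (R.comp (X + C a)) = U Q + V G` in `ℤ[S][T]` (`sh_C`), `Q = sh a x q`, `G = sh a x g`. Map to
`ℚ[S][T]`. `Q(0, 0) = 0`, `Q_T(0, 0) ≠ 0` (`tc_zero_zero`, `sh_derivative`).
NEWTON: for every `k` there is `p ∈ ℚ[S]` with `p(0) = 0` and `S^(k+1) ∣ Q(S, p)`: `k = 0`: `p = 0`. Step: `Q(S, p) = S^(k+1) r`,
`p' = p - S^(k+1) C (r(0) / Q_T(0, 0))`; `Q(S, p + h) = Q(S, p) + Q_T(S, p) h + z h^2` (`Polynomial.binomExpansion`), so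
`Q(S, p') = S^(k+1) (r - Q_T(S, p) r(0) / Q_T(0, 0)) + z S^(2 k + 2) (..)` and the bracket vanishes at `S = 0`.
With `k + 1 ≥ N`: `R(a + S) = U(S, p) Q(S, p) + V(S, p) G(S, p)`; `G(S, p) = ∑_j G_j(S) p^j`, `S^(N - j) ∣ G_j` (`Van N a x g`: the
coefficients `i < N - j` of `G_j` vanish, `Polynomial.X_pow_dvd_iff`), `S^j ∣ p^j`: so `S^N` divides `R(a + S)` in `ℚ[S]`, hence (coefficients) in
`ℤ[S]`; substitute `S = X - a`. -/

set_option autoImplicit false

namespace Pool.Agent.H97.ZE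

open Finset Polynomial

private theorem rot_ev (Q : ℚ[X][X]) (p : ℚ[X]) (hp : X ∣ p) :
    (Q.eval p).coeff 0 = (Q.coeff 0).coeff 0 := by
  have h1 : p.eval 0 = 0 := by
    rw [← coeff_zero_eq_eval_zero]
    exact X_dvd_iff.1 hp
  have h2 := Polynomial.hom_eval₂ Q (RingHom.id ℚ[X]) (evalRingHom (0 : ℚ)) p
  rw [coe_evalRingHom, h1, eval₂_at_zero] at h2
  rw [coeff_zero_eq_eval_zero, coeff_zero_eq_eval_zero]
  exact h2

private theorem newton (Q : ℚ[X][X]) (h0 : (Q.coeff 0).coeff 0 = 0) (h1 : (Q.coeff 1).coeff 0 ≠ 0)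
    (k : ℕ) : ∃ p : ℚ[X], X ∣ p ∧ X ^ (k + 1) ∣ Q.eval p := by
  induction k with
  | zero =>
    refine ⟨0, dvd_zero _, ?_⟩
    rw [zero_add, pow_one, X_dvd_iff, rot_ev Q 0 (dvd_zero _)]
    exact h0
  | succ k ih =>
    obtain ⟨p, hp, r, hr⟩ := ih
    set d := (derivative Q).eval p with hd
    have hd0 : d.coeff 0 ≠ 0 := by
      rw [hd, rot_ev _ p hp, coeff_derivative]
      simpa using h1
    obtain ⟨z, hz⟩ := Polynomial.binomExpansion Q p (-(X ^ (k + 1) * C (r.coeff 0 / d.coeff 0)))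
    refine ⟨p + -(X ^ (k + 1) * C (r.coeff 0 / d.coeff 0)), ?_, ?_⟩
    · refine dvd_add hp ((dvd_neg).2 (dvd_mul_of_dvd_left ?_ _))
      exact dvd_pow_self X (by omega)
    · rw [hz, hr, ← hd]
      have h2 : X ^ (k + 1) * r + d * -(X ^ (k + 1) * C (r.coeff 0 / d.coeff 0)) +
          z * (-(X ^ (k + 1) * C (r.coeff 0 / d.coeff 0))) ^ 2 =
          X ^ (k + 1) * (r - d * C (r.coeff 0 / d.coeff 0) +
            X * (z * X ^ k * C (r.coeff 0 / d.coeff 0) ^ 2)) := by ring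
      rw [h2, pow_succ X (k + 1)]
      refine mul_dvd_mul_left _ ?_
      rw [X_dvd_iff, coeff_add, coeff_sub, coeff_mul_C, mul_coeff_zero X, coeff_X_zero, zero_mul,
        add_zero, mul_div_cancel₀ _ hd0, sub_self]

theorem rot {N : ℕ} {a x : ℤ} {q g u v : ℤ[X][X]} {R : ℤ[X]} (h0 : ev2 a x q = 0)
    (h1 : ev2 a x (derivative q) ≠ 0) (hR : C R = u * q + v * g) (hg : Van N a x g) :
    (X - C a) ^ N ∣ R := by
  set ψ : ℤ[X] →+* ℚ[X] := mapRingHom (Int.castRingHom ℚ) with hψ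
  have hψc : ∀ (p : ℤ[X]) (i : ℕ), (ψ p).coeff i = ((p.coeff i : ℤ) : ℚ) := by
    intro p i
    rw [hψ, coe_mapRingHom, coeff_map, eq_intCast]
  have e0 : ((((sh a x q).map ψ).coeff 0).coeff 0) = 0 := by
    rw [coeff_map, hψc]
    have := tc_zero_zero a x q
    unfold tc at this
    rw [this, h0, Int.cast_zero]
  have e1 : ((((sh a x q).map ψ).coeff 1).coeff 0) ≠ 0 := by
    rw [coeff_map, hψc]
    have h2 := tc_zero_zero a x (derivative q)
    rw [tc_derivative] at h2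
    unfold tc at h2
    norm_num at h2
    rw [h2]
    exact_mod_cast h1
  obtain ⟨p, hp, hpq⟩ := newton _ e0 e1 N
  have h2 : ψ (R.comp (X + C a)) = ((sh a x u).map ψ).eval p * ((sh a x q).map ψ).eval p +
      ((sh a x v).map ψ).eval p * ((sh a x g).map ψ).eval p := by
    have h3 := congrArg (fun z => (Polynomial.map ψ (sh a x z)).eval p) hR
    simp only [sh_C, map_add, map_mul, Polynomial.map_C, eval_C, Polynomial.map_add,
      Polynomial.map_mul, eval_add, eval_mul] at h3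
    exact h3
  have h3 : (X : ℚ[X]) ^ N ∣ ((sh a x g).map ψ).eval p := by
    rw [eval_eq_sum_range]
    refine Finset.dvd_sum fun j _ => ?_
    have hpj : (X : ℚ[X]) ^ j ∣ p ^ j := pow_dvd_pow_of_dvd hp j
    by_cases hj : N ≤ j
    · exact dvd_mul_of_dvd_right ((pow_dvd_pow X hj).trans hpj) _
    · push Not at hj
      have h4 : (X : ℚ[X]) ^ N = X ^ (N - j) * X ^ j := by
        rw [← pow_add]
        congr 1
        omega
      rw [h4]
      refine mul_dvd_mul ?_ hpj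
      rw [X_pow_dvd_iff]
      intro i hi
      rw [coeff_map, hψc]
      have h5 := hg i j (by omega)
      unfold tc at h5
      rw [h5, Int.cast_zero]
  have h4 : (X : ℚ[X]) ^ N ∣ ψ (R.comp (X + C a)) := by
    rw [h2]
    refine dvd_add (dvd_mul_of_dvd_right ?_ _) (dvd_mul_of_dvd_right h3 _)
    exact (pow_dvd_pow X (Nat.le_succ N)).trans hpq
  have h5 : (X : ℤ[X]) ^ N ∣ R.comp (X + C a) := by
    rw [X_pow_dvd_iff] at h4 ⊢
    intro i hi
    have h6 := h4 i hi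
    rw [hψc] at h6
    exact_mod_cast h6
  obtain ⟨w, hw⟩ := h5
  refine ⟨w.comp (X - C a), ?_⟩
  have h6 := congrArg (fun z : ℤ[X] => z.comp (X - C a)) hw
  simp only [mul_comp, X_pow_comp] at h6
  rw [← h6, comp_assoc, add_comp, X_comp, C_comp, sub_add_cancel, comp_X]

end Pool.Agent.H97.ZE
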