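import Pool.Agent.H97.ZE.SZ

/-! # [H97 ZE SIQ] A small relation between `a` and `x` (Siegel's lemma)

Unknowns: the `(b + 1)^2` coefficients `c i j`, `i, j ≤ b`, one equation `∑ c i j a^i x^j = 0`; `|a^i x^j| ≤ |a|^(b + C b) = |a|^((1 + C) b)`.
`Int.Matrix.exists_ne_zero_int_vec_norm_le` (rows `Fin 1`, columns `Fin (b + 1) × Fin (b + 1)`), norm of the solution at most
`((b + 1)^2 max(1, ‖A‖))^(1 / ((b + 1)^2 - 1))` with `‖A‖ ≤ |a|^((1 + C) b)`; `b / ((b + 1)^2 - 1) = 1 / (b + 2) ≤ 1 / b` and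
`((b + 1)^2)^(1 / ..) ≤ (b + 1)^2`. So all `|c i j| ≤ (b + 1)^2 |a|^((1 + C) / b)` (`1 ≤ |a|`). `q = ∑ C (C (c i j) * X^i) * X^j`,
`n2 q ≤ (b + 1)^2 max |c|` (`n2_le`), `K = (b + 1)^4`. -/

namespace Pool.Agent.H97.ZE

open Finset Polynomial

attribute [local instance] Matrix.seminormedAddCommGroup in
private theorem siegel_one {β : Type} [Fintype β] (v : β → ℤ) {B : ℝ} (hB : 1 ≤ B)
    (hv : ∀ j, |(v j : ℝ)| ≤ B) (hn : 1 < Fintype.card β) :
    ∃ t : β → ℤ, t ≠ 0 ∧ ∑ j, v j * t j = 0 ∧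
      ∀ j, |(t j : ℝ)| ≤ ((Fintype.card β : ℝ) * B) ^ (1 / ((Fintype.card β : ℝ) - 1)) := by
  obtain ⟨t, ht0, htA, htn⟩ := Int.Matrix.exists_ne_zero_int_vec_norm_le
    (Matrix.of fun (_ : Fin 1) j => v j) (by rw [Fintype.card_fin]; exact hn)
    (by rw [Fintype.card_fin]; exact one_pos)
  refine ⟨t, ht0, congrFun htA 0, fun j => ?_⟩
  have h1 : |(t j : ℝ)| ≤ ‖t‖ := by
    have h2 := norm_le_pi_norm t j
    rwa [Int.norm_eq_abs] at h2
  refine h1.trans (htn.trans ?_)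
  rw [Fintype.card_fin, Nat.cast_one]
  have h3 : ‖(Matrix.of fun (_ : Fin 1) j => v j : Matrix (Fin 1) β ℤ)‖ ≤ B := by
    rw [Matrix.norm_le_iff (by linarith)]
    intro i j
    rw [Int.norm_eq_abs]
    exact hv j
  have h4 : max 1 ‖(Matrix.of fun (_ : Fin 1) j => v j : Matrix (Fin 1) β ℤ)‖ ≤ B := max_le hB h3
  have h5 : (1 : ℝ) < Fintype.card β := by exact_mod_cast hn
  apply Real.rpow_le_rpow (by positivity) (by gcongr)
  exact div_nonneg zero_le_one (by linarith)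

private theorem siq_exp {C₀ b : ℕ} (hb : 1 ≤ b) {α n : ℝ} (hα : 1 ≤ α)
    (hn : n = ((b : ℝ) + 1) ^ 2) :
    (n * α ^ ((1 + C₀) * b)) ^ (1 / (n - 1)) ≤ n * α ^ ((1 + (C₀ : ℝ)) / b) := by
  have hb1 : (1 : ℝ) ≤ b := by exact_mod_cast hb
  have hn4 : 4 ≤ n := by
    rw [hn]
    nlinarith
  rw [Real.mul_rpow (by linarith) (by positivity)]
  have h1 : n ^ (1 / (n - 1)) ≤ n := by
    have h2 : n ^ (1 / (n - 1)) ≤ n ^ (1 : ℝ) := by
      apply Real.rpow_le_rpow_of_exponent_le (by linarith)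
      rw [div_le_one (by linarith)]
      linarith
    rwa [Real.rpow_one] at h2
  have h3 : (α ^ ((1 + C₀) * b)) ^ (1 / (n - 1)) ≤ α ^ ((1 + (C₀ : ℝ)) / b) := by
    rw [← Real.rpow_natCast, ← Real.rpow_mul (by linarith)]
    apply Real.rpow_le_rpow_of_exponent_le hα
    push_cast
    rw [mul_one_div, div_le_div_iff₀ (by linarith) (by linarith), hn]
    have h4 : (0 : ℝ) ≤ C₀ := Nat.cast_nonneg C₀
    have h5 : (1 + (C₀ : ℝ)) * (((b : ℝ) + 1) ^ 2 - 1) - (1 + (C₀ : ℝ)) * b * b =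
        (1 + (C₀ : ℝ)) * (2 * b) := by ring
    have h6 : 0 ≤ (1 + (C₀ : ℝ)) * (2 * b) := by positivity
    linarith
  exact mul_le_mul h1 h3 (by positivity) (by linarith)

theorem siq (C₀ b : ℕ) (hb : 1 ≤ b) : ∃ K : ℕ, 1 ≤ K ∧ ∀ a x : ℤ, a ≠ 0 → |x| ≤ |a| ^ C₀ →
    ∃ q : ℤ[X][X], q ≠ 0 ∧ dg b q ∧ ev2 a x q = 0 ∧
      (n2 q : ℝ) ≤ K * |(a : ℝ)| ^ ((1 + (C₀ : ℝ)) / b) := by
  classical
  refine ⟨(b + 1) ^ 4, Nat.one_le_pow _ _ (by omega), fun a x ha hx => ?_⟩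
  have hα : (1 : ℝ) ≤ |(a : ℝ)| := by
    have h1 : (1 : ℤ) ≤ |a| := Int.one_le_abs ha
    rw [← Int.cast_abs]
    exact_mod_cast h1
  have hx' : |(x : ℝ)| ≤ |(a : ℝ)| ^ C₀ := by
    rw [← Int.cast_abs, ← Int.cast_abs, ← Int.cast_pow]
    exact_mod_cast hx
  have hcard : (Fintype.card (Fin (b + 1) × Fin (b + 1)) : ℝ) = ((b : ℝ) + 1) ^ 2 := by
    rw [Fintype.card_prod, Fintype.card_fin]
    push_cast
    ring
  have hv : ∀ p : Fin (b + 1) × Fin (b + 1),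
      |((a ^ (p.1 : ℕ) * x ^ (p.2 : ℕ) : ℤ) : ℝ)| ≤ |(a : ℝ)| ^ ((1 + C₀) * b) := by
    rintro ⟨i, j⟩
    push_cast
    rw [abs_mul, abs_pow, abs_pow]
    have hi : (i : ℕ) ≤ b := Nat.lt_succ_iff.1 i.2
    have hj : (j : ℕ) ≤ b := Nat.lt_succ_iff.1 j.2
    calc |(a : ℝ)| ^ (i : ℕ) * |(x : ℝ)| ^ (j : ℕ) ≤
          |(a : ℝ)| ^ b * (|(a : ℝ)| ^ C₀) ^ b := by
          refine mul_le_mul (pow_le_pow_right₀ hα hi) ?_ (by positivity) (by positivity)
          exact (pow_le_pow_left₀ (abs_nonneg _) hx' _).trans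
            (pow_le_pow_right₀ (one_le_pow₀ hα) hj)
      _ = |(a : ℝ)| ^ ((1 + C₀) * b) := by
          rw [← pow_mul, ← pow_add]
          congr 1
          ring
  obtain ⟨t, ht0, hts, htb⟩ := siegel_one (fun p : Fin (b + 1) × Fin (b + 1) =>
    a ^ (p.1 : ℕ) * x ^ (p.2 : ℕ)) (one_le_pow₀ hα) hv (by
      rw [Fintype.card_prod, Fintype.card_fin]
      nlinarith)
  obtain ⟨T, hT⟩ : ∃ T : ℕ → ℕ → ℤ, T = fun i j => if h : i < b + 1 ∧ j < b + 1 then
    t (⟨i, h.1⟩, ⟨j, h.2⟩) else 0 := ⟨_, rfl⟩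
  have hTf : ∀ i j : Fin (b + 1), T i j = t (i, j) := by
    intro i j
    rw [hT]
    exact dif_pos ⟨i.2, j.2⟩
  obtain ⟨q, hq⟩ : ∃ q : ℤ[X][X], q = ∑ j ∈ range (b + 1), monomial j
    (∑ i ∈ range (b + 1), monomial i (T i j)) := ⟨_, rfl⟩
  have hqc : ∀ j, q.coeff j = if j < b + 1 then ∑ i ∈ range (b + 1), monomial i (T i j) else 0 := by
    intro j
    rw [hq, finsetSum_coeff]
    simp only [coeff_monomial]
    rw [Finset.sum_ite_eq']
    simp only [Finset.mem_range]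
  have hqcc : ∀ j i, (q.coeff j).coeff i = if j < b + 1 ∧ i < b + 1 then T i j else 0 := by
    intro j i
    rw [hqc]
    split_ifs with h1 h2 h2
    · rw [finsetSum_coeff]
      simp only [coeff_monomial]
      rw [Finset.sum_ite_eq', if_pos (Finset.mem_range.2 h2.2)]
    · rw [finsetSum_coeff]
      simp only [coeff_monomial]
      rw [Finset.sum_ite_eq', if_neg]
      rw [Finset.mem_range]
      exact fun h3 => h2 ⟨h1, h3⟩
    · exact absurd h2.1 h1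
    · rw [coeff_zero]
  have hdg : dg b q := by
    refine ⟨?_, fun j => ?_⟩
    · rw [hq]
      refine natDegree_sum_le_of_forall_le _ _ fun j hj => (natDegree_monomial_le _).trans ?_
      exact Nat.lt_succ_iff.1 (Finset.mem_range.1 hj)
    · rw [hqc]
      split_ifs
      · refine natDegree_sum_le_of_forall_le _ _ fun i hi => (natDegree_monomial_le _).trans ?_
        exact Nat.lt_succ_iff.1 (Finset.mem_range.1 hi)
      · rw [natDegree_zero]
        exact Nat.zero_le _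
  refine ⟨q, ?_, hdg, ?_, ?_⟩
  · intro h0
    apply ht0
    funext p
    obtain ⟨i, j⟩ := p
    have h1 := hqcc j i
    rw [h0, coeff_zero, coeff_zero, if_pos ⟨j.2, i.2⟩, hTf] at h1
    exact h1.symm
  · unfold ev2
    rw [hq, eval_finsetSum, eval_finsetSum]
    rw [Fintype.sum_prod_type_right] at hts
    rw [Finset.sum_range, ← hts]
    refine Finset.sum_congr rfl fun j _ => ?_
    rw [eval_monomial, eval_mul, eval_finsetSum, ← C_pow, eval_C, Finset.sum_range, Finset.sum_mul]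
    refine Finset.sum_congr rfl fun i _ => ?_
    rw [eval_monomial, hTf]
    ring
  · have hB : ∀ i j, |(((q.coeff j).coeff i : ℤ) : ℝ)| ≤
        ((b : ℝ) + 1) ^ 2 * |(a : ℝ)| ^ ((1 + (C₀ : ℝ)) / b) := by
      intro i j
      rw [hqcc]
      split_ifs with h
      · have h1 := hTf ⟨i, h.2⟩ ⟨j, h.1⟩
        change T i j = _ at h1
        rw [h1]
        refine (htb _).trans ?_
        rw [hcard]
        exact siq_exp hb hα rfl
      · rw [Int.cast_zero, abs_zero]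
        positivity
    refine (n2_le hdg hB).trans (le_of_eq ?_)
    push_cast
    ring

end Pool.Agent.H97.ZE
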