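import Pool.Agent.H97.ZE.SZ

/-! # [H97 ZE SPC] Specialisation of a multiple of `q^μ` at `x = c`

Let `s = rootMultiplicity (C c) g`, `g = (X - C (C c))^s * g1`, `g1(c) ≠ 0` (`Polynomial.exists_eq_pow_rootMultiplicity_mul_and_not_dvd`,
`Polynomial.dvd_iff_isRoot`). `g' = g1.eval (C c) = (hasseDeriv s g).eval (C c)`: e.g. `taylor (C c) g` is `X^s * taylor (C c) g1`
(`Polynomial.taylor_mul`, `taylor` of `X - C (C c)` is `X`), its coefficient `s` is `(hasseDeriv s g).eval (C c)` (`Polynomial.taylor_coeff`) and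
is the coefficient `0` of `taylor (C c) g1`, i.e. `g1.eval (C c)`.
Divisibility: `q^μ h = (X - c)^s g1`, `X - c` is prime (`Polynomial.prime_X_sub_C`) and does not divide `q^μ` (`q(c) ≠ 0`), so
`(X - c)^s ∣ h` (`Prime.pow_dvd_of_dvd_mul_left`), `q^μ h1 = g1`; evaluate at `x = c`.
Size: `(hasseDeriv s g).eval (C c) = ∑_(j ≤ D) C (choose j s * c^(j - s)) * g_j` (`Polynomial.hasseDeriv_apply`),
`choose j s * c^(j - s) ≤ (1 + c)^j ≤ (1 + c)^D` (binomial theorem: `add_pow`, one term). -/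

namespace Pool.Agent.H97.ZE

open Finset Polynomial

private theorem spc_coef (s c : ℕ) {i D : ℕ} (hi : i ≤ D) :
    i.choose s * c ^ (i - s) ≤ (1 + c) ^ D := by
  have h1 : i.choose s * c ^ (i - s) ≤ (1 + c) ^ i := by
    by_cases hs : s ≤ i
    · rw [add_pow]
      have h2 := Finset.single_le_sum (f := fun m => 1 ^ m * c ^ (i - m) * i.choose m)
        (fun _ _ => Nat.zero_le _) (Finset.mem_range.2 (Nat.lt_succ_of_le hs))
      refine le_trans (le_of_eq ?_) h2
      simp only [one_pow, one_mul]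
      ring
    · rw [Nat.choose_eq_zero_of_lt (by omega), zero_mul]
      exact Nat.zero_le _
  exact h1.trans (Nat.pow_le_pow_right (by omega) hi)

theorem spc {D μ : ℕ} {q g : ℤ[X][X]} (hg : g ≠ 0) (hD : g.natDegree ≤ D) (hq : q ^ μ ∣ g) (c : ℕ)
    (hc : q.eval (C (c : ℤ)) ≠ 0) :
    ∃ g' : ℤ[X], g' ≠ 0 ∧ (q.eval (C (c : ℤ))) ^ μ ∣ g' ∧ n1 g' ≤ (1 + c) ^ D * n2 g := by
  obtain ⟨g1, hg1, hnd⟩ := exists_eq_pow_rootMultiplicity_mul_and_not_dvd g hg (C (c : ℤ))
  obtain ⟨s, hs⟩ : ∃ s, s = rootMultiplicity (C (c : ℤ)) g := ⟨_, rfl⟩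
  rw [← hs] at hg1
  have hg1c : g1.eval (C (c : ℤ)) ≠ 0 := fun h => hnd (dvd_iff_isRoot.2 h)
  refine ⟨g1.eval (C (c : ℤ)), hg1c, ?_, ?_⟩
  · obtain ⟨h, hh⟩ := hq
    have hprime := prime_X_sub_C (C (c : ℤ) : ℤ[X])
    have hnq : ¬ (X - C (C (c : ℤ))) ∣ q ^ μ := by
      intro hd
      have h2 := hprime.dvd_of_dvd_pow hd
      rw [dvd_iff_isRoot] at h2
      exact hc h2
    have h3 : (X - C (C (c : ℤ))) ^ s ∣ q ^ μ * h := by
      rw [← hh, hg1]
      exact dvd_mul_right _ _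
    obtain ⟨h1, rfl⟩ := hprime.pow_dvd_of_dvd_mul_left s hnq h3
    have h5 : q ^ μ * h1 = g1 := by
      apply mul_left_cancel₀ (pow_ne_zero s hprime.ne_zero)
      rw [← hg1, hh]
      ring
    rw [← h5, eval_mul, eval_pow]
    exact dvd_mul_right _ _
  · have h6 : g1.eval (C (c : ℤ)) = (hasseDeriv s g).eval (C (c : ℤ)) := by
      rw [← taylor_coeff, ← taylor_coeff_zero]
      conv_rhs => rw [hg1, taylor_mul, taylor_pow, map_sub, taylor_X, taylor_C, add_sub_cancel_right]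
      have h7 := coeff_X_pow_mul (taylor (C (c : ℤ)) g1) s 0
      rw [zero_add] at h7
      exact h7.symm
    rw [h6, hasseDeriv_apply, Polynomial.sum_def, eval_finsetSum]
    refine (n1_sum _ _).trans ?_
    unfold n2
    rw [Finset.mul_sum]
    refine Finset.sum_le_sum fun i hi => ?_
    rw [eval_monomial]
    have hiD : i ≤ D := (le_natDegree_of_mem_supp i hi).trans hD
    have h8 : n1 ((i.choose s : ℤ[X]) * g.coeff i * C (c : ℤ) ^ (i - s)) ≤
        i.choose s * n1 (g.coeff i) * c ^ (i - s) := by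
      refine (n1_mul _ _).trans (Nat.mul_le_mul ((n1_mul _ _).trans (Nat.mul_le_mul_right _ ?_))
        ((n1_pow _ _).trans (Nat.pow_le_pow_left ?_ _)))
      · have h9 : ((i.choose s : ℕ) : ℤ[X]) = C ((i.choose s : ℕ) : ℤ) := by simp
        rw [h9, n1_C, Int.natAbs_natCast]
      · rw [n1_C, Int.natAbs_natCast]
    refine h8.trans ?_
    calc i.choose s * n1 (g.coeff i) * c ^ (i - s) =
          (i.choose s * c ^ (i - s)) * n1 (g.coeff i) := by ring
      _ ≤ (1 + c) ^ D * n1 (g.coeff i) := Nat.mul_le_mul_right _ (spc_coef s c hiD)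

end Pool.Agent.H97.ZE
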