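import Pool.Agent.H97.ZE.TY
import Pool.Agent.H97.ZE.SZ

/-! # [H97 ZE WRV] The Wronskian vanishes with the combination; its size

* `wrv`: `M k j = Dn (J k) (ρ j)`; `∑_j u_j M k j = Dn (J k) (∑ u_j • ρ_j)` (`Dn_sum_zsmul`) vanishes at `(a, x)` to order `N` (`van_Dn`, `van_mono`).
 `adj(M) M = det M`: `det M * u_j0 = ∑_k adj(j0, k) (∑_j M k j u_j)` (`Matrix.adjugate_mul`), so `u_j0 • det M` vanishes to order `N` (`van_mul`, `van_sum`);
 `van_of_zsmul` with `u_j0 ≠ 0`.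
* `wr_size`: `dg_Dn`, `n2_Dn` (`|ν| < l`, `D ≥ 1`: `D^|ν| ≤ D^l`), `dg_det`, `n2_det`.
* `span_sub`: choose a maximal linearly independent subfamily: `exists_linearIndependent`-type lemma for the family over `ℚ`, or: take a
 subset `S ⊆ ι` maximal with `LinearIndependent ℤ (ρ restricted to S)` (finite type). Then for every `i` there is an integer `w_i ≠ 0` with
 `w_i • ρ_i` in the span of the `ρ_s`, `s ∈ S` (maximality: `LinearIndependent` fails for `S ∪ {i}`: `Fintype.not_linearIndependent_iff`, the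
 coefficient of `ρ_i` is not zero). `w = ∏ w_i`. Enumerate `S` by `Fin l` (`Finset.equivFin`), `l ≤ card ι`. -/

set_option autoImplicit false

namespace Pool.Agent.H97.ZE

open Finset Polynomial

theorem wrv {l N : ℕ} {a x : ℤ} (ρ : Fin l → ℤ[X][X]) (J : Fin l → ℕ × ℕ) (hJ : ∀ k, (J k).1 + (J k).2 < l)
    (u : Fin l → ℤ) (hu : u ≠ 0) (hV : Van (N + l) a x (∑ j, u j • ρ j)) :
    Van N a x (Matrix.of fun k j => Dn (J k) (ρ j)).det := by
  obtain ⟨j0, hj0⟩ : ∃ j0, u j0 ≠ 0 := by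
    by_contra hcon
    push Not at hcon
    exact hu (funext hcon)
  set M : Matrix (Fin l) (Fin l) ℤ[X][X] := Matrix.of fun k j => Dn (J k) (ρ j) with hM
  have h1 : ∀ k, Van N a x (∑ j, M k j * (u j : ℤ[X][X])) := by
    intro k
    have h2 := van_Dn (N := N) (J k) (van_mono hV (by have := hJ k; omega))
    rw [Dn_sum_zsmul] at h2
    have h3 : ∑ j, M k j * (u j : ℤ[X][X]) = ∑ j, u j • Dn (J k) (ρ j) := by
      refine Finset.sum_congr rfl fun j _ => ?_
      rw [zsmul_eq_mul, mul_comm]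
      rfl
    rw [h3]
    exact h2
  refine van_of_zsmul hj0 ?_
  have h4 : u j0 • M.det = ∑ k, M.adjugate j0 k * ∑ j, M k j * (u j : ℤ[X][X]) := by
    have h5 : (M.adjugate * M).mulVec (fun j => (u j : ℤ[X][X])) j0 =
        M.det * (u j0 : ℤ[X][X]) := by
      rw [Matrix.adjugate_mul, Matrix.smul_mulVec, Matrix.one_mulVec, Pi.smul_apply, smul_eq_mul]
    rw [← Matrix.mulVec_mulVec] at h5
    rw [zsmul_eq_mul, mul_comm, ← h5]
    rfl
  rw [h4]
  exact van_sum _ _ fun k _ => van_mul _ (h1 k)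

theorem wr_size {l D B : ℕ} (hD : 1 ≤ D) (ρ : Fin l → ℤ[X][X]) (J : Fin l → ℕ × ℕ)
    (hJ : ∀ k, (J k).1 + (J k).2 < l) (h1 : ∀ j, dg D (ρ j)) (h2 : ∀ j, n2 (ρ j) ≤ B) :
    dg (l * D) (Matrix.of fun k j => Dn (J k) (ρ j)).det ∧
    n2 (Matrix.of fun k j => Dn (J k) (ρ j)).det ≤ l.factorial * (D ^ l * B) ^ l := by
  constructor
  · have h3 := dg_det (D := D) (Matrix.of fun k j => Dn (J k) (ρ j)) (fun k j => dg_Dn (h1 j) (J k))
    rwa [Fintype.card_fin] at h3
  · have h3 := n2_det (B := D ^ l * B) (Matrix.of fun k j => Dn (J k) (ρ j)) (fun k j => by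
      refine (n2_Dn (h1 j) (J k)).trans ?_
      exact Nat.mul_le_mul (Nat.pow_le_pow_right hD (hJ k).le) (h2 j))
    rwa [Fintype.card_fin] at h3

/-- a maximal linearly independent subfamily -/
theorem span_sub {ι : Type} [Fintype ι] (ρ : ι → ℤ[X][X]) :
    ∃ (l : ℕ) (σ : Fin l → ι), l ≤ Fintype.card ι ∧ LinearIndependent ℤ (fun k => ρ (σ k)) ∧
      ∀ u : ι → ℤ, ∃ (w : ℤ) (u' : Fin l → ℤ), w ≠ 0 ∧ w • ∑ i, u i • ρ i = ∑ k, u' k • ρ (σ k) := by
  classical
  let P : ℕ → Prop := fun n => ∃ σ : Fin n → ι, LinearIndependent ℤ (fun k => ρ (σ k))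
  have hP : ∀ n, P n → n ≤ Fintype.card ι := by
    rintro n ⟨σ, hσ⟩
    have h1 : Function.Injective σ := by
      intro a b hab
      exact hσ.injective (by simp only [hab])
    have h2 := Fintype.card_le_of_injective σ h1
    rwa [Fintype.card_fin] at h2
  have hP0 : P 0 := ⟨Fin.elim0, linearIndependent_empty_type⟩
  obtain ⟨l, hl⟩ : ∃ l, l = Nat.findGreatest P (Fintype.card ι) := ⟨_, rfl⟩
  have hPl : P l := by
    rw [hl]
    exact Nat.findGreatest_spec (Nat.zero_le _) hP0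
  have hPl' : ¬ P (l + 1) := by
    intro h
    have h1 := Nat.le_findGreatest (hP _ h) h
    rw [← hl] at h1
    omega
  obtain ⟨σ, hσ⟩ := hPl
  refine ⟨l, σ, hP l ⟨σ, hσ⟩, hσ, ?_⟩
  have hw : ∀ i, ∃ (w : ℤ) (v : Fin l → ℤ), w ≠ 0 ∧ w • ρ i = ∑ k, v k • ρ (σ k) := by
    intro i
    have h1 : ¬ LinearIndependent ℤ (fun k : Fin (l + 1) => ρ ((Fin.cons i σ : Fin (l + 1) → ι) k)) :=
      fun h => hPl' ⟨_, h⟩
    rw [Fintype.not_linearIndependent_iff] at h1
    obtain ⟨g, hg, i0, hi0⟩ := h1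
    rw [Fin.sum_univ_succ] at hg
    simp only [Fin.cons_zero, Fin.cons_succ] at hg
    refine ⟨g 0, fun k => - g k.succ, ?_, ?_⟩
    · intro h0
      rw [h0, zero_smul, zero_add] at hg
      have h2 := Fintype.linearIndependent_iff.1 hσ (fun k => g k.succ) hg
      apply hi0
      refine Fin.cases h0 (fun k => h2 k) i0
    · rw [eq_neg_of_add_eq_zero_left hg, ← Finset.sum_neg_distrib]
      exact Finset.sum_congr rfl fun k _ => (neg_smul _ _).symm
  choose w v hw0 hwv using hw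
  intro u
  refine ⟨∏ i, w i, fun k => ∑ i, (∏ j ∈ Finset.univ.erase i, w j) * u i * v i k, ?_, ?_⟩
  · exact Finset.prod_ne_zero_iff.2 fun i _ => hw0 i
  · rw [Finset.smul_sum]
    have h1 : ∀ i, (∏ i, w i) • u i • ρ i =
        ∑ k, ((∏ j ∈ Finset.univ.erase i, w j) * u i * v i k) • ρ (σ k) := by
      intro i
      rw [← Finset.mul_prod_erase _ w (Finset.mem_univ i)]
      have h2 : (w i * ∏ j ∈ Finset.univ.erase i, w j) • u i • ρ i =
          ((∏ j ∈ Finset.univ.erase i, w j) * u i) • (w i • ρ i) := by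
        rw [smul_smul, smul_smul]
        congr 1
        ring
      rw [h2, hwv, Finset.smul_sum]
      exact Finset.sum_congr rfl fun k _ => by rw [smul_smul]
    rw [Finset.sum_congr rfl fun i _ => h1 i, Finset.sum_comm]
    refine Finset.sum_congr rfl fun k _ => ?_
    rw [Finset.sum_smul]

end Pool.Agent.H97.ZE
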