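import Pool.Agent.H97.ZE.LAG
import Pool.Agent.H97.ZE.SPC
import Pool.Agent.H97.ZE.MAH

/-! # [H97 ZE ZDV] High powers of `q` do not divide `g`

`K = K_lag * 2^b`. If `q = 0` then `μ = 0` (as `g ≠ 0`), trivial (`n2_pos`). Otherwise take `c` of `lag`; `n2 q ≥ 1` so `q(t, c) ≠ 0`; `spc`
gives `g'`, `mah` (the degree of `q(t, c)` is at most `b`: sum of `C (c^j) * q_j`): `n1 (q(t, c))^μ ≤ 2^(b μ) n1 g' ≤ 2^(b μ) (1 + c)^D n2 g`. -/

namespace Pool.Agent.H97.ZE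

open Finset Polynomial

theorem zdv (b : ℕ) : ∃ K : ℕ, 1 ≤ K ∧ ∀ (q g : ℤ[X][X]) (μ D : ℕ), dg b q → g ≠ 0 → g.natDegree ≤ D →
    q ^ μ ∣ g → n2 q ^ μ ≤ K ^ μ * (1 + b) ^ D * n2 g := by
  obtain ⟨K, hK, hlag⟩ := lag b
  refine ⟨K * 2 ^ b, Nat.mul_pos hK (by positivity), fun q g μ D hq hg hD hdvd => ?_⟩
  by_cases hq0 : q = 0
  · have hμ : μ = 0 := by
      by_contra h
      rw [hq0, zero_pow h, zero_dvd_iff] at hdvd
      exact hg hdvd
    rw [hμ, pow_zero, pow_zero, one_mul]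
    exact Nat.mul_pos (by positivity) (n2_pos hg)
  · obtain ⟨c, hc, hn⟩ := hlag q hq.1
    have hq1 := n2_pos hq0
    have hne : q.eval (C (c : ℤ)) ≠ 0 := by
      intro h
      rw [h, n1_zero, mul_zero] at hn
      omega
    obtain ⟨g', hg', hd', hn'⟩ := spc hg hD hdvd c hne
    have hdeg : (q.eval (C (c : ℤ))).natDegree ≤ b := by
      rw [eval_eq_sum_range]
      refine natDegree_sum_le_of_forall_le _ _ fun j _ => ?_
      rw [← C_pow]
      exact (natDegree_mul_C_le _ _).trans (hq.2 j)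
    have h1 := mah hg' hdeg hd'
    calc n2 q ^ μ ≤ (K * n1 (q.eval (C (c : ℤ)))) ^ μ := Nat.pow_le_pow_left hn μ
      _ = K ^ μ * (n1 (q.eval (C (c : ℤ)))) ^ μ := mul_pow _ _ _
      _ ≤ K ^ μ * ((2 ^ b) ^ μ * n1 g') := Nat.mul_le_mul_left _ h1
      _ ≤ K ^ μ * ((2 ^ b) ^ μ * ((1 + b) ^ D * n2 g)) := by
          refine Nat.mul_le_mul_left _ (Nat.mul_le_mul_left _ (hn'.trans ?_))
          exact Nat.mul_le_mul_right _ (Nat.pow_le_pow_left (by omega) D)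
      _ = (K * 2 ^ b) ^ μ * (1 + b) ^ D * n2 g := by
          rw [mul_pow]
          ring

end Pool.Agent.H97.ZE
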