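import Pool.Agent.H97.ZE.SYL
import Pool.Agent.H97.ZE.ROT
import Pool.Agent.H97.ZE.HAS

/-! # [H97 ZE ZRS] The resultant estimate

`g1 = hasseDeriv μ g`, `b' = q.natDegree ≤ b`, `M = syl q g1 b' D` (`D` rows of `q`, `b'` rows of `g1`), `R = det M ∈ ℤ[t]`.
* `q` does not divide `g1` (`has`); `q` irreducible of positive degree, so primitive, irreducible over the field of fractions
  (`Polynomial.IsPrimitive.irreducible_iff_irreducible_map_fraction_map`, `Irreducible.isPrimitive`) and does not divide `g1` there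
  (`Polynomial.IsPrimitive.dvd_of_fraction_map_dvd_fraction_map` needs only `q` primitive). So `R ≠ 0` (`syl_ne`).
* `Van N a x g1` (`van_hasse`), `syl_comb`, `rot`: `(X - a)^N ∣ R`; `rob`: `|a|^N ≤ n1 R`.
* `n1_det_rows`: `n1 R ≤ ∏_r ∑_k n1 (M r k)`; a row of `q` has sum at most `n2 q` (distinct coefficients of `X^r q`, which has the same
  `n2`; `n2_eq`), a row of `g1` at most `n2 g1 ≤ 2^D n2 g`; `D` rows of `q`, `b' ≤ b` rows of `g1` (`2^D n2 g ≥ 1`). -/

namespace Pool.Agent.H97.ZE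

open Finset Polynomial

private theorem zrs_row (n : ℕ) (p : ℤ[X][X]) : ∑ k : Fin n, n1 (p.coeff (k : ℕ)) ≤ n2 p := by
  rw [Fin.sum_univ_eq_sum_range (fun k => n1 (p.coeff k)) n,
    n2_eq p (t := range n ∪ p.support) Finset.subset_union_right]
  exact Finset.sum_le_sum_of_subset Finset.subset_union_left

private theorem zrs_pow (r : ℕ) (p : ℤ[X][X]) : n2 (X ^ r * p) ≤ n2 p := by
  have := n2_mul (X ^ r) p
  rwa [n2_X_pow, one_mul] at this

theorem zrs {b D N μ : ℕ} {a x : ℤ} {q g : ℤ[X][X]} (hq : Irreducible q) (hqd : 0 < q.natDegree) (hb : dg b q)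
    (h0 : ev2 a x q = 0) (h1 : ev2 a x (derivative q) ≠ 0) (hg : g ≠ 0) (hD : dg D g) (hμ : q ^ μ ∣ g)
    (hμ' : ¬ q ^ (μ + 1) ∣ g) (hV : Van (N + μ) a x g) :
    a.natAbs ^ N ≤ n2 q ^ D * (2 ^ D * n2 g) ^ b := by
  have hndvd : ¬ q ∣ hasseDeriv μ g := has hq hqd hμ hμ'
  have hprim : q.IsPrimitive := hq.isPrimitive (by omega)
  have hirr : Irreducible (q.map (algebraMap ℤ[X] (FractionRing ℤ[X]))) :=
    (hprim.irreducible_iff_irreducible_map_fraction_map (K := FractionRing ℤ[X])).mp hq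
  have hnd' : ¬ q.map (algebraMap ℤ[X] (FractionRing ℤ[X])) ∣
      (hasseDeriv μ g).map (algebraMap ℤ[X] (FractionRing ℤ[X])) := fun h =>
    hndvd (hprim.dvd_of_fraction_map_dvd_fraction_map h)
  have hg1d : (hasseDeriv μ g).natDegree ≤ D := (dg_hasse hD μ).1
  have hRne : (syl q (hasseDeriv μ g) q.natDegree D).det ≠ 0 := syl_ne rfl hg1d hirr hnd'
  obtain ⟨u, v, huv⟩ := syl_comb (f := q) (g := hasseDeriv μ g) (m := q.natDegree) (n := D) le_rfl
    hg1d (by omega)
  have hV1 : Van N a x (hasseDeriv μ g) := van_hasse μ hV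
  have hdvd : (X - C a) ^ N ∣ (syl q (hasseDeriv μ g) q.natDegree D).det := rot h0 h1 huv hV1
  refine (rob hRne hdvd).trans ?_
  refine (n1_det_rows _).trans ?_
  have hB1 : 1 ≤ 2 ^ D * n2 g := Nat.mul_pos (by positivity) (n2_pos hg)
  have hrow : ∀ r : Fin (q.natDegree + D),
      ∑ k, n1 (syl q (hasseDeriv μ g) q.natDegree D r k) ≤
        (fun r : ℕ => if r < D then n2 q else 2 ^ D * n2 g) (r : ℕ) := by
    intro r
    simp only [syl, Matrix.of_apply]
    split_ifs with hr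
    · exact (zrs_row _ _).trans (zrs_pow _ _)
    · exact ((zrs_row _ _).trans (zrs_pow _ _)).trans (n2_hasse hD.1 μ)
  refine (Finset.prod_le_prod' fun r _ => hrow r).trans ?_
  rw [Fin.prod_univ_eq_prod_range (fun r : ℕ => if r < D then n2 q else 2 ^ D * n2 g)
    (q.natDegree + D), Nat.add_comm, Finset.prod_range_add]
  have e1 : ∏ r ∈ range D, (if r < D then n2 q else 2 ^ D * n2 g) = n2 q ^ D := by
    rw [Finset.prod_congr rfl fun r hr => if_pos (Finset.mem_range.mp hr), Finset.prod_const,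
      Finset.card_range]
  have e2 : ∏ r ∈ range q.natDegree, (if D + r < D then n2 q else 2 ^ D * n2 g) =
      (2 ^ D * n2 g) ^ q.natDegree := by
    rw [Finset.prod_congr rfl fun r _ => if_neg (by omega), Finset.prod_const, Finset.card_range]
  rw [e1, e2]
  exact Nat.mul_le_mul_left _ (Nat.pow_le_pow_right hB1 hb.1)

end Pool.Agent.H97.ZE
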