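import Pool.Agent.H97.ZE.QEX
import Pool.Agent.H97.ZE.ZDV
import Pool.Agent.H97.ZE.ZRS

/-! # [H97 ZE ZEA] The zero estimate at a generic point (one polynomial)

`α = 1 + C₀`. `b ≥ 1` with `α / b ≤ δ / 8` and `α / b ≤ 1 / 4`, `d = b`. `K1` of `qex`, `K2` of `zdv`; `K = K1 K2 8^b (4 b + 4)`. Given `ε`: `η > 0` with
`η ≤ ε δ / 8`, `b η ≤ δ / 8`. `A0` with (`L = log A0`): `A0^(1/4) ≥ K1` and more: `A0 ≥ 2`, `K ≤ A0^κ` for `κ = min (1/4, ε/2, η, δ/8)`.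
Let `A = |a| ≥ A0`. Suppose `Van N a x g` and `N > δ D`.
(1) `q` of `qex`: `K1 A^(α/b) ≤ A^(1/4 + 1/4) < A`. `Gen`: a coefficient of `q` is `≥ A^ε` in absolute value, so `n2 q ≥ A^ε` (`coeff_le_n2`).
(2) `μ` = the greatest number with `q^μ ∣ g` (`q` is not a unit, `g ≠ 0`: finite, `multiplicity`/`Nat.find`, e.g. `natDegree`: `μ ≤ D`).
 `zdv`: `(n2 q / K2)^μ ≤ (1 + b)^D n2 g ≤ (1+b)^D A^(η D)`, and `n2 q / K2 ≥ A^ε / A^(ε/2) = A^(ε/2)`: `A^(μ ε/2) ≤ A^(2 η D)` (`1 + b ≤ A^η`), so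
 `μ ≤ 4 η D / ε ≤ δ D / 2`.
(3) `N' = N - μ ≥ 1`, `N' ≥ δ D / 2` (as real numbers), `Van (N' + μ) a x g`. `zrs`: `A^N' ≤ n2 q^D (2^D n2 g)^b ≤ (K1 A^(α/b))^D 2^(b D) A^(b η D)
 ≤ (K1 2^b)^D A^(D (δ/8 + δ/8))`, and `K1 2^b < A^(δ/8)` strictly if `K1 2^b < K`: so `A^(δ D/2) ≤ A^N' < A^(3 δ D / 8)`: contradiction
 (`D ≥ 1`). -/

namespace Pool.Agent.H97.ZE

open Finset Polynomial

/-- the parameters -/
private theorem par (C₀ : ℕ) (δ : ℝ) (hδ : 0 < δ) : ∃ b : ℕ, 1 ≤ b ∧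
    (1 + (C₀ : ℝ)) / b ≤ δ / 8 ∧ (1 + (C₀ : ℝ)) / b ≤ 1 / 4 := by
  have hα : (0 : ℝ) < 1 + (C₀ : ℝ) := by positivity
  refine ⟨⌈8 * (1 + (C₀ : ℝ)) / δ⌉₊ + ⌈4 * (1 + (C₀ : ℝ))⌉₊ + 1, by omega, ?_, ?_⟩
  · have h1 := Nat.le_ceil (8 * (1 + (C₀ : ℝ)) / δ)
    have h2 : (0 : ℝ) ≤ (⌈4 * (1 + (C₀ : ℝ))⌉₊ : ℝ) := Nat.cast_nonneg _
    rw [div_le_iff₀ (by positivity)]
    rw [div_le_iff₀ hδ] at h1
    push_cast
    nlinarith
  · have h1 := Nat.le_ceil (4 * (1 + (C₀ : ℝ)))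
    have h2 : (0 : ℝ) ≤ (⌈8 * (1 + (C₀ : ℝ)) / δ⌉₊ : ℝ) := Nat.cast_nonneg _
    rw [div_le_iff₀ (by positivity)]
    push_cast
    linarith

private theorem ev_large (c e : ℝ) (he : 0 < e) : ∀ᶠ n : ℕ in Filter.atTop, c ≤ (n : ℝ) ^ e :=
  ((tendsto_rpow_atTop he).comp tendsto_natCast_atTop_atTop).eventually_ge_atTop c

/-- a polynomial with small coefficients vanishes at a generic point to low order -/
theorem ze2 (C₀ : ℕ) (δ : ℝ) (hδ : 0 < δ) : ∃ d : ℕ, ∀ ε : ℝ, 0 < ε → ∃ η : ℝ, 0 < η ∧ ∃ A0 : ℕ,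
    ∀ a x : ℤ, (A0 : ℤ) ≤ |a| → |x| ≤ |a| ^ C₀ → Gen d ε a x → ∀ D : ℕ, 1 ≤ D →
    ∀ g : ℤ[X][X], g ≠ 0 → dg D g → (n2 g : ℝ) ≤ |(a : ℝ)| ^ (η * D) →
    ∀ N : ℕ, Van N a x g → (N : ℝ) ≤ δ * D := by
  obtain ⟨b, hb, hb1, hb2⟩ := par C₀ δ hδ
  obtain ⟨K1, hK1, hqex⟩ := qex C₀ b hb
  obtain ⟨K2, hK2, hzdv⟩ := zdv b
  have hb0 : (0 : ℝ) < b := by exact_mod_cast hb
  refine ⟨b, fun ε hε => ?_⟩
  obtain ⟨η, hη, hη1, hη2⟩ : ∃ η : ℝ, 0 < η ∧ η ≤ ε * δ / 8 ∧ b * η ≤ δ / 8 := by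
    refine ⟨min (ε * δ / 8) (δ / (8 * b)), by positivity, min_le_left _ _, ?_⟩
    calc (b : ℝ) * min (ε * δ / 8) (δ / (8 * b)) ≤ b * (δ / (8 * b)) := by
          gcongr
          exact min_le_right _ _
      _ = δ / 8 := by field_simp
  refine ⟨η, hη, ?_⟩
  have hev := (Filter.eventually_ge_atTop 2).and
    ((ev_large (K1 : ℝ) (1 / 4) (by norm_num)).and
    ((ev_large (K2 : ℝ) (ε / 2) (by positivity)).and
    ((ev_large (1 + b : ℝ) η hη).and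
    (ev_large ((K1 : ℝ) * 2 ^ b) (δ / 8) (by positivity)))))
  obtain ⟨A0, hA0⟩ := Filter.eventually_atTop.1 hev
  refine ⟨A0, fun a x ha hx hG D hD g hg hdg hn N hV => ?_⟩
  have hA : |(a : ℝ)| = (a.natAbs : ℝ) := by
    rw [Nat.cast_natAbs, Int.cast_abs]
  have haA : A0 ≤ a.natAbs := by
    have : (A0 : ℤ) ≤ (a.natAbs : ℤ) := by rwa [Int.natCast_natAbs]
    exact_mod_cast this
  obtain ⟨h2, hc1, hc2, hc3, hc4⟩ := hA0 _ haA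
  rw [hA] at hn
  have ha0 : a ≠ 0 := by
    intro h
    rw [h] at h2
    simp at h2
  obtain ⟨A, hAdef⟩ : ∃ A : ℝ, A = (a.natAbs : ℝ) := ⟨_, rfl⟩
  rw [← hAdef] at hc1 hc2 hc3 hc4 hn hA
  have hA2 : 2 ≤ A := by rw [hAdef]; exact_mod_cast h2
  have hA1 : 1 < A := by linarith
  have hA0' : 0 < A := by linarith
  have hD0 : (0 : ℝ) < D := by exact_mod_cast hD
  -- (1)
  obtain ⟨q, hirr, hdq, hqd, hq0, hq1, hnq⟩ := hqex a x ha0 hx (by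
    rw [hA]
    calc (K1 : ℝ) * A ^ ((1 + (C₀ : ℝ)) / b) ≤ A ^ (1 / 4 : ℝ) * A ^ (1 / 4 : ℝ) := by
          have : A ^ ((1 + (C₀ : ℝ)) / b) ≤ A ^ (1 / 4 : ℝ) :=
            Real.rpow_le_rpow_of_exponent_le hA1.le hb2
          gcongr
      _ = A ^ (1 / 2 : ℝ) := by rw [← Real.rpow_add hA0']; norm_num
      _ < A ^ (1 : ℝ) := (Real.rpow_lt_rpow_left_iff hA1).2 (by norm_num)
      _ = A := Real.rpow_one A)
  rw [hA] at hnq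
  obtain ⟨i, j, hij⟩ := hG q hirr.ne_zero hdq.1 hdq.2 hq0
  have hqlow : A ^ ε ≤ (n2 q : ℝ) := by
    rw [hA] at hij
    refine hij.trans ?_
    have h3 := coeff_le_n2 q i j
    have h4 : (((((q.coeff j).coeff i).natAbs : ℕ)) : ℝ) ≤ (n2 q : ℝ) := by exact_mod_cast h3
    rwa [Nat.cast_natAbs, Int.cast_abs] at h4
  -- (2)
  obtain ⟨μ, g', hng, hgg⟩ := WfDvdMonoid.max_power_factor hg hirr
  have hμ : q ^ μ ∣ g := ⟨g', hgg⟩
  have hμ' : ¬ q ^ (μ + 1) ∣ g := by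
    rw [hgg, pow_succ]
    intro h
    exact hng ((mul_dvd_mul_iff_left (pow_ne_zero μ hirr.ne_zero)).1 h)
  have hz := hzdv q g μ D hdq hg hdg.1 hμ
  have hz' : (n2 q : ℝ) ^ μ ≤ (K2 : ℝ) ^ μ * (1 + b) ^ D * n2 g := by exact_mod_cast hz
  have hμD : (μ : ℝ) ≤ δ * D / 2 := by
    have e1 : A ^ (ε * μ) ≤ A ^ (ε / 2 * μ + η * D + η * D) := by
      calc A ^ (ε * μ) = (A ^ ε) ^ μ := by rw [Real.rpow_mul hA0'.le, Real.rpow_natCast]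
        _ ≤ (n2 q : ℝ) ^ μ := pow_le_pow_left₀ (by positivity) hqlow μ
        _ ≤ (K2 : ℝ) ^ μ * (1 + b) ^ D * n2 g := hz'
        _ ≤ (A ^ (ε / 2)) ^ μ * (A ^ η) ^ D * A ^ (η * D) := by gcongr
        _ = A ^ (ε / 2 * μ + η * D + η * D) := by
          rw [Real.rpow_add hA0', Real.rpow_add hA0', Real.rpow_mul hA0'.le (ε / 2),
            Real.rpow_natCast, Real.rpow_mul hA0'.le η, Real.rpow_natCast]
    rw [Real.rpow_le_rpow_left_iff hA1] at e1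
    have e2 : ε * μ ≤ ε * (δ * D / 2) := by
      have e3 : η * D ≤ ε * δ / 8 * D := by gcongr
      nlinarith
    exact le_of_mul_le_mul_left e2 hε
  -- (3)
  by_contra hcon
  push Not at hcon
  have hμN : μ ≤ N := by
    have : (μ : ℝ) ≤ N := by
      have : δ * D / 2 ≤ δ * D := by
        have : 0 < δ * D := by positivity
        linarith
      linarith
    exact_mod_cast this
  obtain ⟨N', rfl⟩ := Nat.exists_eq_add_of_le hμN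
  have hN' : δ * D / 2 < (N' : ℝ) := by
    push_cast at hcon
    linarith
  rw [Nat.add_comm] at hV
  have hr := zrs hirr hqd hdq hq0 hq1 hg hdg hμ hμ' hV
  have hr' : A ^ N' ≤ (n2 q : ℝ) ^ D * (2 ^ D * n2 g) ^ b := by
    rw [hAdef]
    exact_mod_cast hr
  have e1 : A ^ (N' : ℝ) ≤ A ^ (3 * δ / 8 * D) := by
    calc A ^ (N' : ℝ) = A ^ N' := Real.rpow_natCast _ _
      _ ≤ (n2 q : ℝ) ^ D * (2 ^ D * n2 g) ^ b := hr'
      _ ≤ (K1 * A ^ ((1 + (C₀ : ℝ)) / b)) ^ D * (2 ^ D * A ^ (η * D)) ^ b := by gcongr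
      _ ≤ (K1 * A ^ (δ / 8)) ^ D * (2 ^ D * A ^ (η * D)) ^ b := by
        have : A ^ ((1 + (C₀ : ℝ)) / b) ≤ A ^ (δ / 8) :=
          Real.rpow_le_rpow_of_exponent_le hA1.le hb1
        gcongr
      _ = (K1 * 2 ^ b * A ^ (δ / 8) * A ^ (b * η)) ^ D := by
        have f1 : (A ^ (η * D)) ^ b = (A ^ (b * η)) ^ D := by
          rw [← Real.rpow_natCast, ← Real.rpow_natCast, ← Real.rpow_mul hA0'.le,
            ← Real.rpow_mul hA0'.le]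
          congr 1
          ring
        rw [mul_pow, mul_pow, mul_pow, mul_pow, mul_pow, f1, ← pow_mul, ← pow_mul, mul_comm D b]
        ring
      _ ≤ (A ^ (δ / 8) * A ^ (δ / 8) * A ^ (δ / 8)) ^ D := by
        have : A ^ (b * η) ≤ A ^ (δ / 8) := Real.rpow_le_rpow_of_exponent_le hA1.le hη2
        gcongr
      _ = A ^ (3 * δ / 8 * D) := by
        rw [← Real.rpow_add hA0', ← Real.rpow_add hA0', ← Real.rpow_natCast,
          ← Real.rpow_mul hA0'.le]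
        congr 1
        ring
  rw [Real.rpow_le_rpow_left_iff hA1] at e1
  have : 0 < δ * D := by positivity
  nlinarith

end Pool.Agent.H97.ZE
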