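import Pool.Agent.H97.ZE.ZEA
import Pool.Agent.H97.ZE.JC
import Pool.Agent.H97.ZE.WRV

/-! # [H97 ZE ZEB] The zero estimate for linear combinations of few small polynomials

`δ' = δ / (2 (K0 + 1))`, `d` of `ze2 C₀ δ'`. Given `ε`: `η'`, `A0'` of `ze2`; `η = η' / 2` (and `η ≤ η'/2`), `D0 = ⌈2 K0 / δ⌉ + 1`, `A0 ≥ A0'` with
`K0! * 2^(K0^2) ≤ A0^(η'/2)`, more exactly: `K0! D^(K0^2) ≤ A0^(η' D / 2)` for all `D ≥ 1` (as `D ≤ 2^D`: `K0! * D^(K0^2) ≤ (K0! 2^(K0^2))^D`).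
Let `H = ∑ u_i • ρ_i ≠ 0`, `Van N a x H`, `N > K0`. `span_sub`: `w • H = ∑ u'_k • ρ (σ k)`, `w • H ≠ 0`, so `u' ≠ 0`, `l ≥ 1`. `jet` for `ρ ∘ σ`: `J`,
`U = det ≠ 0`. `wrv` with `N - l` in the place of `N` (`Van N a x (w • H)`: `van_mul` or coefficients): `Van (N - l) a x U`.
`wr_size`: `dg (l D) U`, `n2 U ≤ l! (D^l B)^l` with `B = ⌊|a|^(η D)⌋` (natural number), so `n2 U ≤ K0! D^(K0^2) |a|^(η D l) ≤ |a|^(η' D (l D)..)`:
precisely `≤ |a|^(η' D / 2) |a|^(η' D l / 2) ≤ |a|^(η' (l D))`. `ze2` with `D' = l D ≥ 1`: `N - l ≤ δ' l D ≤ δ D / 2`, and `l ≤ K0 ≤ δ D / 2`. -/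

namespace Pool.Agent.H97.ZE

open Finset Polynomial

private theorem zeb_van {N : ℕ} {a x : ℤ} {g : ℤ[X][X]} (w : ℤ) (h : Van N a x g) :
    Van N a x (w • g) := by
  intro i j hij
  have h1 := h i j hij
  unfold tc at h1 ⊢
  rw [map_zsmul, coeff_smul, coeff_smul, h1, smul_zero]

/-- a non-zero combination, with any integer coefficients, of few polynomials with small coefficients vanishes at a
generic point to low order -/
theorem ze3 (C₀ K0 : ℕ) (δ : ℝ) (hδ : 0 < δ) : ∃ d : ℕ, ∀ ε : ℝ, 0 < ε → ∃ η : ℝ, 0 < η ∧ ∃ A0 D0 : ℕ,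
    ∀ a x : ℤ, (A0 : ℤ) ≤ |a| → |x| ≤ |a| ^ C₀ → Gen d ε a x → ∀ D : ℕ, D0 ≤ D →
    ∀ (ι : Type) [Fintype ι], Fintype.card ι ≤ K0 → ∀ (ρ : ι → ℤ[X][X]) (u : ι → ℤ), (∀ i, dg D (ρ i)) →
    (∀ i, (n2 (ρ i) : ℝ) ≤ |(a : ℝ)| ^ (η * D)) → ∑ i, u i • ρ i ≠ 0 →
    ∀ N : ℕ, Van N a x (∑ i, u i • ρ i) → (N : ℝ) ≤ δ * D := by
  obtain ⟨d, hd⟩ := ze2 C₀ (δ / (2 * ((K0 : ℝ) + 1))) (by positivity)
  refine ⟨d, fun ε hε => ?_⟩
  obtain ⟨η', hη', A0', hA0'⟩ := hd ε hε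
  have htend : Filter.Tendsto (fun n : ℕ => (n : ℝ) ^ (η' / 2)) Filter.atTop Filter.atTop :=
    (tendsto_rpow_atTop (by positivity)).comp tendsto_natCast_atTop_atTop
  obtain ⟨A1, hA1⟩ := Filter.eventually_atTop.1
    (htend.eventually_ge_atTop ((K0.factorial * 2 ^ (K0 ^ 2) : ℕ) : ℝ))
  refine ⟨η' / 2, by positivity, max A0' (max A1 1), max 1 ⌈2 * (K0 : ℝ) / δ⌉₊, ?_⟩
  intro a x ha hx hG D hD ι _ hι ρ u hdg hn2 hne N hV
  have haR : |(a : ℝ)| = ((a.natAbs : ℕ) : ℝ) := by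
    rw [Nat.cast_natAbs, Int.cast_abs]
  have ha2 : max A0' (max A1 1) ≤ a.natAbs := by
    have h1 : ((max A0' (max A1 1) : ℕ) : ℤ) ≤ (a.natAbs : ℤ) := by
      rw [Int.natCast_natAbs]
      exact ha
    exact_mod_cast h1
  have ha3 : A1 ≤ a.natAbs := (le_max_left _ _).trans ((le_max_right _ _).trans ha2)
  have ha4 : 1 ≤ a.natAbs := (le_max_right _ _).trans ((le_max_right _ _).trans ha2)
  have haA : (A0' : ℤ) ≤ |a| := by
    refine le_trans ?_ ha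
    exact_mod_cast le_max_left _ _
  have h1a : 1 ≤ |(a : ℝ)| := by
    rw [haR]
    exact_mod_cast ha4
  have hD1 : 1 ≤ D := (le_max_left _ _).trans hD
  have hKD : (K0 : ℝ) ≤ δ * D / 2 := by
    have h1 : 2 * (K0 : ℝ) / δ ≤ D := by
      refine (Nat.le_ceil _).trans ?_
      exact_mod_cast (le_max_right _ _).trans hD
    rw [div_le_iff₀ hδ] at h1
    linarith
  have hDR : (0 : ℝ) ≤ D := Nat.cast_nonneg D
  by_cases hNK : N ≤ K0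
  · have h1 : (N : ℝ) ≤ K0 := by exact_mod_cast hNK
    nlinarith
  push Not at hNK
  obtain ⟨l, σ, hl, hli, hsp⟩ := span_sub ρ
  obtain ⟨w, u', hw, hwu⟩ := hsp u
  obtain ⟨J, hJ, hdet⟩ := jet (fun k => ρ (σ k)) hli
  have hwH : ∑ k, u' k • ρ (σ k) ≠ 0 := by
    rw [← hwu]
    exact smul_ne_zero hw hne
  have hl1 : 1 ≤ l := by
    rcases Nat.eq_zero_or_pos l with rfl | h
    · exact absurd (Finset.univ_eq_empty (α := Fin 0) ▸ Finset.sum_empty) hwH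
    · exact h
  have hu' : u' ≠ 0 := by
    rintro rfl
    apply hwH
    simp
  have hlK : l ≤ K0 := hl.trans hι
  have hNl : N - l + l = N := by omega
  have hV' : Van (N - l + l) a x (∑ j, u' j • ρ (σ j)) := by
    rw [hNl, ← hwu]
    exact zeb_van w hV
  have hU := wrv (fun k => ρ (σ k)) J hJ u' hu' hV'
  obtain ⟨hs1, hs2⟩ := wr_size (B := ⌊|(a : ℝ)| ^ (η' / 2 * D)⌋₊) hD1 (fun k => ρ (σ k)) J hJ
    (fun j => hdg (σ j)) (fun j => Nat.le_floor (hn2 (σ j)))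
  have hlD : 1 ≤ l * D := Nat.one_le_iff_ne_zero.2 (by positivity)
  have hB : ((⌊|(a : ℝ)| ^ (η' / 2 * D)⌋₊ : ℕ) : ℝ) ≤ |(a : ℝ)| ^ (η' / 2 * D) :=
    Nat.floor_le (by positivity)
  have hl1R : (1 : ℝ) ≤ l := by exact_mod_cast hl1
  have hsize : (n2 (Matrix.of fun k j => Dn (J k) (ρ (σ j))).det : ℝ) ≤
      |(a : ℝ)| ^ (η' * ((l * D : ℕ) : ℝ)) := by
    have h2 : (n2 (Matrix.of fun k j => Dn (J k) (ρ (σ j))).det : ℝ) ≤
        ((l.factorial * (D ^ l * ⌊|(a : ℝ)| ^ (η' / 2 * D)⌋₊) ^ l : ℕ) : ℝ) := by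
      exact_mod_cast hs2
    refine h2.trans ?_
    have h3 : (l.factorial * (D ^ l * ⌊|(a : ℝ)| ^ (η' / 2 * D)⌋₊) ^ l : ℕ) =
        (l.factorial * D ^ (l ^ 2)) * ⌊|(a : ℝ)| ^ (η' / 2 * D)⌋₊ ^ l := by
      rw [mul_pow, ← pow_mul, sq]
      ring
    have h4 : l.factorial * D ^ (l ^ 2) ≤ (K0.factorial * 2 ^ (K0 ^ 2)) ^ D := by
      rw [mul_pow]
      refine Nat.mul_le_mul ?_ ?_
      · calc l.factorial ≤ K0.factorial := Nat.factorial_le hlK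
          _ = K0.factorial ^ 1 := (pow_one _).symm
          _ ≤ K0.factorial ^ D := Nat.pow_le_pow_right (Nat.factorial_pos _) hD1
      · calc D ^ (l ^ 2) ≤ (2 ^ D) ^ (l ^ 2) :=
              Nat.pow_le_pow_left (Nat.lt_two_pow_self).le _
          _ ≤ (2 ^ D) ^ (K0 ^ 2) :=
              Nat.pow_le_pow_right (by positivity) (Nat.pow_le_pow_left hlK 2)
          _ = (2 ^ K0 ^ 2) ^ D := by rw [← pow_mul, ← pow_mul, mul_comm]
    rw [h3, Nat.cast_mul, Nat.cast_pow]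
    have h5 : ((l.factorial * D ^ (l ^ 2) : ℕ) : ℝ) ≤ |(a : ℝ)| ^ (η' / 2 * (l * D)) := by
      calc ((l.factorial * D ^ (l ^ 2) : ℕ) : ℝ)
          ≤ (((K0.factorial * 2 ^ (K0 ^ 2)) ^ D : ℕ) : ℝ) := by exact_mod_cast h4
        _ = ((K0.factorial * 2 ^ (K0 ^ 2) : ℕ) : ℝ) ^ D := Nat.cast_pow _ _
        _ ≤ (|(a : ℝ)| ^ (η' / 2)) ^ D := by
            rw [haR]
            exact pow_le_pow_left₀ (Nat.cast_nonneg _) (hA1 _ ha3) D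
        _ = |(a : ℝ)| ^ (η' / 2 * D) := by
            rw [Real.rpow_mul (abs_nonneg _), Real.rpow_natCast]
        _ ≤ |(a : ℝ)| ^ (η' / 2 * (l * D)) := by
            refine Real.rpow_le_rpow_of_exponent_le h1a ?_
            have h6 : (D : ℝ) ≤ l * D := le_mul_of_one_le_left hDR hl1R
            gcongr
    have h6 : ((⌊|(a : ℝ)| ^ (η' / 2 * D)⌋₊ : ℕ) : ℝ) ^ l ≤ |(a : ℝ)| ^ (η' / 2 * (l * D)) := by
      calc ((⌊|(a : ℝ)| ^ (η' / 2 * D)⌋₊ : ℕ) : ℝ) ^ l ≤ (|(a : ℝ)| ^ (η' / 2 * D)) ^ l :=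
            pow_le_pow_left₀ (Nat.cast_nonneg _) hB l
        _ = |(a : ℝ)| ^ (η' / 2 * (l * D)) := by
            rw [← Real.rpow_natCast, ← Real.rpow_mul (abs_nonneg _)]
            congr 1
            ring
    calc ((l.factorial * D ^ (l ^ 2) : ℕ) : ℝ) * ((⌊|(a : ℝ)| ^ (η' / 2 * D)⌋₊ : ℕ) : ℝ) ^ l
        ≤ |(a : ℝ)| ^ (η' / 2 * (l * D)) * |(a : ℝ)| ^ (η' / 2 * (l * D)) := by gcongr
      _ = |(a : ℝ)| ^ (η' * ((l * D : ℕ) : ℝ)) := by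
          rw [← Real.rpow_add (lt_of_lt_of_le one_pos h1a)]
          congr 1
          push_cast
          ring
  have hfin := hA0' a x haA hx hG (l * D) hlD _ hdet hs1 hsize (N - l) hU
  have h7 : (N : ℝ) = ((N - l : ℕ) : ℝ) + l := by exact_mod_cast hNl.symm
  have h8 : δ / (2 * ((K0 : ℝ) + 1)) * ((l * D : ℕ) : ℝ) ≤ δ * D / 2 := by
    have h9 : (l : ℝ) ≤ (K0 : ℝ) + 1 := by
      have : (l : ℝ) ≤ K0 := by exact_mod_cast hlK
      linarith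
    push_cast
    rw [div_mul_eq_mul_div, div_le_div_iff₀ (by positivity) (by norm_num)]
    have h10 : δ * D * l ≤ δ * D * ((K0 : ℝ) + 1) := by gcongr
    nlinarith
  have h9 : (l : ℝ) ≤ K0 := by exact_mod_cast hlK
  rw [h7]
  linarith

end Pool.Agent.H97.ZE
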